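import Pool.Agent.P.MP_677d31_pr.Defs

set_option autoImplicit false

namespace Pool.Agent.P.MP_677d31_pr

open Set Metric Filter Topology Complex

/-- two continuous logarithms of the same function differ by a constant -/
lemma topo_log_const {X : Type} [TopologicalSpace X] {s : Set X} (hs : IsPreconnected s)
    {l₁ l₂ : X → ℂ} (h₁ : ContinuousOn l₁ s) (h₂ : ContinuousOn l₂ s)
    (h : ∀ t ∈ s, exp (l₁ t) = exp (l₂ t)) {a b : X} (ha : a ∈ s) (hb : b ∈ s) :
    l₁ b - l₁ a = l₂ b - l₂ a := by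
  have key := isCoveringMap_exp.constOn_of_comp hs (h₁.sub h₂) (fun u hu v hv => by
    apply Subtype.ext
    change exp (l₁ u - l₂ u) = exp (l₁ v - l₂ v)
    rw [exp_sub, exp_sub, h u hu, h v hv, div_self (exp_ne_zero _), div_self (exp_ne_zero _)])
    ha hb
  simp only [Pi.sub_apply] at key
  linear_combination -key

lemma topo_log_div {a b : ℂ} (ha : 0 < a.re) (hb : 0 < b.re) : log (a / b) = log a - log b := by
  have ha0 : a ≠ 0 := by rintro rfl; simp at ha
  have hb0 : b ≠ 0 := by rintro rfl; simp at hb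
  have h1 := abs_lt.1 (abs_arg_lt_pi_div_two_iff.2 (Or.inl ha))
  have h2 := abs_lt.1 (abs_arg_lt_pi_div_two_iff.2 (Or.inl hb))
  have : a / b = exp (log a - log b) := by rw [exp_sub, exp_log ha0, exp_log hb0]
  rw [this, log_exp] <;> simp only [sub_im, log_im] <;> linarith [h1.1, h1.2, h2.1, h2.2]

lemma topo_re_pos {b x z : ℂ} (h : ‖z - b‖ < ‖b - x‖) : 0 < ((z - x) / (b - x)).re := by
  have hb : b - x ≠ 0 := norm_pos_iff.1 ((norm_nonneg _).trans_lt h)
  have e : (z - x) / (b - x) = 1 + (z - b) / (b - x) := by field_simp; ring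
  have h1 : ‖(z - b) / (b - x)‖ < 1 := by
    rw [norm_div, div_lt_one (norm_pos_iff.2 hb)]; exact h
  have := (abs_le.1 (abs_re_le_norm ((z - b) / (b - x)))).1
  rw [e, add_re, one_re]
  linarith

lemma topo_log_sub {b x z z' : ℂ} (h : ‖z - b‖ < ‖b - x‖) (h' : ‖z' - b‖ < ‖b - x‖) :
    log ((z' - x) / (z - x)) = log ((z' - x) / (b - x)) - log ((z - x) / (b - x)) := by
  have hb : b - x ≠ 0 := norm_pos_iff.1 ((norm_nonneg _).trans_lt h)
  rw [← topo_log_div (topo_re_pos h') (topo_re_pos h), div_div_div_cancel_right₀ hb]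

lemma topo_wsum_local {x b : ℂ} {c : ℕ → ℂ} (m k : ℕ)
    (h : ∀ i, m ≤ i → i ≤ m + k → ‖c i - b‖ < ‖b - x‖) :
    wsum x c (m + k) - wsum x c m =
      log ((c (m + k) - x) / (b - x)) - log ((c m - x) / (b - x)) := by
  induction k with
  | zero => simp
  | succ k ih =>
    have := ih fun i h1 h2 => h i h1 (by omega)
    have e := topo_log_sub (h (m + k) (by omega) (by omega)) (h (m + k + 1) (by omega) (by omega))
    rw [← add_assoc, wsum, Finset.sum_range_succ, e]
    rw [wsum] at this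
    linear_combination this

theorem wsum_far {x : ℂ} {c : ℕ → ℂ} {n : ℕ} (hc : c n = c 0)
    (h : ∀ i ≤ n, ‖c i - c 0‖ < ‖c 0 - x‖) : wsum x c n = 0 := by
  have := topo_wsum_local (x := x) (b := c 0) (c := c) 0 n fun i _ hi => h i (by omega)
  simpa [hc, wsum] using this

theorem wsum_circle (x : ℂ) {ζ : ℂ} (hζ : ζ ≠ 0) {m : ℕ} (hm : 3 ≤ m) :
    wsum x (fun k => x + ζ * Complex.exp (2 * Real.pi * Complex.I * k / m)) m ≠ 0 := by
  have hm0 : (m : ℂ) ≠ 0 := by exact_mod_cast (by omega : m ≠ 0)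
  have hm3 : (3 : ℝ) ≤ m := by exact_mod_cast hm
  have hpi := Real.pi_pos
  have e : ∀ k : ℕ, log ((x + ζ * exp (2 * Real.pi * I * ((k + 1 : ℕ) : ℂ) / m) - x) /
      (x + ζ * exp (2 * Real.pi * I * (k : ℂ) / m) - x)) = ((2 * Real.pi / m : ℝ) : ℂ) * I := by
    intro k
    have : (x + ζ * exp (2 * Real.pi * I * ((k + 1 : ℕ) : ℂ) / m) - x) /
      (x + ζ * exp (2 * Real.pi * I * (k : ℂ) / m) - x) = exp (((2 * Real.pi / m : ℝ) : ℂ) * I) := by
      rw [add_sub_cancel_left, add_sub_cancel_left, mul_div_mul_left _ _ hζ, ← exp_sub]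
      congr 1
      push_cast
      field_simp
      ring
    rw [this, log_exp]
    · simp only [mul_im, ofReal_re, I_im, mul_one, ofReal_im, I_re, mul_zero, add_zero]
      have : 0 < 2 * Real.pi / m := by positivity
      linarith
    · simp only [mul_im, ofReal_re, I_im, mul_one, ofReal_im, I_re, mul_zero, add_zero]
      rw [div_le_iff₀ (by positivity)]
      nlinarith
  simp only [wsum, e, Finset.sum_const, Finset.card_range, nsmul_eq_mul]
  have : ((2 * Real.pi / m : ℝ) : ℂ) ≠ 0 := by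
    have : (2 * Real.pi / m : ℝ) ≠ 0 := by positivity
    exact_mod_cast this
  exact mul_ne_zero hm0 (mul_ne_zero this I_ne_zero)

/-- a logarithm of `(z - a) / (z - b)` on a closed set which does not separate `a` from `b` -/
lemma topo_log_ratio {Γ C : Set ℂ} (hΓ : IsClosed Γ) (hC : IsPreconnected C) (hd : C ⊆ Γᶜ)
    {a b : ℂ} (ha : a ∈ C) (hb : b ∈ C) :
    ∃ L : ℂ → ℂ, ContinuousOn L Γ ∧ ∀ z ∈ Γ, exp (L z) = (z - a) / (z - b) := by
  refine hC.induction₂
    (fun a b => ∃ L : ℂ → ℂ, ContinuousOn L Γ ∧ ∀ z ∈ Γ, exp (L z) = (z - a) / (z - b))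
    (fun p hp => ?_) ?_ ?_ ha hb
  · obtain ⟨δ, hδ, hsub⟩ := Metric.isOpen_iff.1 hΓ.isOpen_compl p (hd hp)
    refine mem_nhdsWithin_of_mem_nhds ?_
    filter_upwards [ball_mem_nhds p hδ] with q hq
    have hpos : ∀ z ∈ Γ, 0 < ((z - q) / (z - p)).re := by
      intro z hz
      have h1 : δ ≤ ‖p - z‖ := by
        by_contra hlt
        exact hsub (by rw [mem_ball, dist_comm, dist_eq_norm]; linarith) hz
      have h2 : ‖q - p‖ < ‖p - z‖ := by rw [mem_ball, dist_eq_norm] at hq; linarith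
      have := topo_re_pos h2
      rwa [← neg_sub z q, ← neg_sub z p, neg_div_neg_eq] at this
    have hzp : ∀ z ∈ Γ, z - p ≠ 0 := fun z hz h0 => hd hp (sub_eq_zero.1 h0 ▸ hz)
    refine ⟨fun z => -log ((z - q) / (z - p)), ?_, fun z hz => ?_⟩
    · refine (ContinuousOn.clog ?_ fun z hz => Or.inl (hpos z hz)).neg
      exact (continuousOn_id.sub continuousOn_const).div (continuousOn_id.sub continuousOn_const) hzp
    · have h0 : (z - q) / (z - p) ≠ 0 := fun h0 => by simpa [h0] using hpos z hz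
      rw [exp_neg, exp_log h0, inv_div]
  · rintro p q r - hq - ⟨L₁, c₁, e₁⟩ ⟨L₂, c₂, e₂⟩
    refine ⟨fun z => L₁ z + L₂ z, c₁.add c₂, fun z hz => ?_⟩
    have hzq : z - q ≠ 0 := fun h0 => hd hq (sub_eq_zero.1 h0 ▸ hz)
    rw [exp_add, e₁ z hz, e₂ z hz, div_mul_div_cancel₀ hzq]
  · rintro p q - - ⟨L, c, e⟩
    exact ⟨fun z => -L z, c.neg, fun z hz => by rw [exp_neg, e z hz, inv_div]⟩

lemma topo_exists_log {X : Type} [NormedAddCommGroup X] [NormedSpace ℝ X] {F : X → ℂ}
    (hF : Continuous F) (h0 : ∀ p, F p ≠ 0) :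
    ∃ L : X → ℂ, Continuous L ∧ ∀ p, exp (L p) = F p := by
  have : ContractibleSpace (univ : Set X) := convex_univ.contractibleSpace univ_nonempty
  have hs : IsSimplyConnected (univ : Set X) := SimplyConnectedSpace.ofContractible _
  obtain ⟨L, hL, e⟩ := exists_continuousOn_eqOn_exp_comp hs isOpen_univ hF.continuousOn
    (by rintro ⟨p, -, hp⟩; exact h0 p hp)
  exact ⟨L, continuousOn_univ.1 hL, fun p => e (mem_univ p)⟩

/-- increment of a logarithm along a path staying in a half plane -/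
lemma topo_half {F L : ℝ → ℂ} (hF : Continuous F) (hL : Continuous L) (e : ∀ u, exp (L u) = F u)
    {a b : ℝ} (ζ : ℂ) (h : ∀ u ∈ uIcc a b, 0 < (ζ * F u).re) :
    (L b - L a).im = arg (ζ * F b) - arg (ζ * F a) := by
  have hζ : ζ ≠ 0 := by rintro rfl; simpa using h a left_mem_uIcc
  have := topo_log_const (s := uIcc a b) isPreconnected_uIcc (l₁ := L)
    (l₂ := fun u => log (ζ * F u) - log ζ) hL.continuousOn
    ((ContinuousOn.clog (by fun_prop) fun u hu => Or.inl (h u hu)).sub continuousOn_const)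
    (fun u hu => by
      have h0 : ζ * F u ≠ 0 := fun h0 => by simpa [h0] using h u hu
      rw [e, exp_sub, exp_log h0, exp_log hζ, mul_div_cancel_left₀ _ hζ])
    left_mem_uIcc right_mem_uIcc
  rw [this]
  simp [log_im]

lemma topo_arg_lt {p q : ℂ} (hp : 0 < p.im) (hq : q.im < 0) : arg q - arg p < 0 := by
  have h1 := arg_neg_iff.2 hq
  have h2 := arg_nonneg_iff.2 hp.le
  linarith

/-- two paths crossing a square in the two directions meet -/
lemma topo_crossing {γ : ℝ → ℂ} (hγ : Continuous γ) {s₀ s₁ t₀ t₁ : ℝ}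
    (hs : s₀ ≤ s₁) (ht : t₀ ≤ t₁) (c : ℂ) (L : ℝ)
    (h1 : ∀ s ∈ Icc s₀ s₁, |(γ s - c).im| < L) (h2 : (γ s₀ - c).re ≤ -L) (h3 : L ≤ (γ s₁ - c).re)
    (h4 : ∀ t ∈ Icc t₀ t₁, |(γ t - c).re| < L) (h5 : (γ t₀ - c).im ≤ -L)
    (h6 : L ≤ (γ t₁ - c).im) : ∃ s ∈ Icc s₀ s₁, ∃ t ∈ Icc t₀ t₁, γ s = γ t := by
  by_contra hne
  push Not at hne
  set F : ℝ × ℝ → ℂ := fun p => γ (projIcc s₀ s₁ hs p.1) - γ (projIcc t₀ t₁ ht p.2) with hF
  have hFc : Continuous F := by
    have := continuous_projIcc (h := hs)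
    have := continuous_projIcc (h := ht)
    fun_prop
  obtain ⟨l, hl, e⟩ := topo_exists_log hFc fun p =>
    sub_ne_zero.2 (hne _ (projIcc s₀ s₁ hs p.1).2 _ (projIcc t₀ t₁ ht p.2).2)
  have hv : ∀ s ∈ Icc s₀ s₁, ∀ t ∈ Icc t₀ t₁, F (s, t) = (γ s - c) - (γ t - c) := by
    intro s hs' t ht'
    simp only [hF, projIcc_of_mem hs hs', projIcc_of_mem ht ht']
    ring
  have ms₀ : s₀ ∈ Icc s₀ s₁ := left_mem_Icc.2 hs
  have ms₁ : s₁ ∈ Icc s₀ s₁ := right_mem_Icc.2 hs
  have mt₀ : t₀ ∈ Icc t₀ t₁ := left_mem_Icc.2 ht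
  have mt₁ : t₁ ∈ Icc t₀ t₁ := right_mem_Icc.2 ht
  have bot : ∀ s ∈ Icc s₀ s₁, 0 < (F (s, t₀)).im := fun s hs' => by
    rw [hv s hs' t₀ mt₀, sub_im]; linarith [(abs_lt.1 (h1 s hs')).1]
  have top : ∀ s ∈ Icc s₀ s₁, (F (s, t₁)).im < 0 := fun s hs' => by
    rw [hv s hs' t₁ mt₁, sub_im]; linarith [(abs_lt.1 (h1 s hs')).2]
  have lef : ∀ t ∈ Icc t₀ t₁, (F (s₀, t)).re < 0 := fun t ht' => by
    rw [hv s₀ ms₀ t ht', sub_re]; linarith [(abs_lt.1 (h4 t ht')).1]
  have rig : ∀ t ∈ Icc t₀ t₁, 0 < (F (s₁, t)).re := fun t ht' => by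
    rw [hv s₁ ms₁ t ht', sub_re]; linarith [(abs_lt.1 (h4 t ht')).2]
  have a1 := topo_half (F := fun s => F (s, t₀)) (L := fun s => l (s, t₀)) (by fun_prop)
    (by fun_prop) (fun u => e _) (a := s₀) (b := s₁) (-I) fun u hu => by
      rw [uIcc_of_le hs] at hu; simpa using bot u hu
  have a2 := topo_half (F := fun t => F (s₁, t)) (L := fun t => l (s₁, t)) (by fun_prop)
    (by fun_prop) (fun u => e _) (a := t₀) (b := t₁) 1 fun u hu => by
      rw [uIcc_of_le ht] at hu; simpa using rig u hu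
  have a3 := topo_half (F := fun s => F (s, t₁)) (L := fun s => l (s, t₁)) (by fun_prop)
    (by fun_prop) (fun u => e _) (a := s₁) (b := s₀) I fun u hu => by
      rw [uIcc_of_ge hs] at hu; simpa using top u hu
  have a4 := topo_half (F := fun t => F (s₀, t)) (L := fun t => l (s₀, t)) (by fun_prop)
    (by fun_prop) (fun u => e _) (a := t₁) (b := t₀) (-1) fun u hu => by
      rw [uIcc_of_ge ht] at hu; simpa using lef u hu
  have b1 : arg (-I * F (s₁, t₀)) - arg (-I * F (s₀, t₀)) < 0 :=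
    topo_arg_lt (by simpa using lef t₀ mt₀) (by simpa using rig t₀ mt₀)
  have b2 : arg (1 * F (s₁, t₁)) - arg (1 * F (s₁, t₀)) < 0 :=
    topo_arg_lt (by simpa using bot s₁ ms₁) (by simpa using top s₁ ms₁)
  have b3 : arg (I * F (s₀, t₁)) - arg (I * F (s₁, t₁)) < 0 :=
    topo_arg_lt (by simpa using rig t₁ mt₁) (by simpa using lef t₁ mt₁)
  have b4 : arg (-1 * F (s₀, t₀)) - arg (-1 * F (s₀, t₁)) < 0 :=
    topo_arg_lt (by simpa using top s₀ ms₀) (by simpa using bot s₀ ms₀)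
  simp only [sub_im] at a1 a2 a3 a4
  linarith

/-- value of a logarithm of `γ - x` along a path following a chain -/
lemma topo_follow {γ : ℝ → ℂ} (hγ : Continuous γ) {t : ℕ → ℝ} {c : ℕ → ℂ} {N : ℕ} {h : ℝ}
    {x : ℂ} (ht : ∀ i < N, t i ≤ t (i + 1) ∧ ∀ u ∈ Icc (t i) (t (i + 1)), γ u ∈ ball (c i) (3 * h))
    (hs : ∀ i, i + 1 < N → ‖c (i + 1) - c i‖ ≤ h) (hx : ∀ i < N, 3 * h ≤ ‖c i - x‖) (hh : 0 < h)
    {l : ℝ → ℂ} (hl : Continuous l)
    (e : ∀ i < N, ∀ u ∈ Icc (t i) (t (i + 1)), exp (l u) = γ u - x) :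
    ∀ i < N, ∀ u ∈ Icc (t i) (t (i + 1)), l u = l (t 0) - log ((γ (t 0) - x) / (c 0 - x)) +
      wsum x c i + log ((γ u - x) / (c i - x)) := by
  have hb : ∀ i < N, ∀ u ∈ Icc (t i) (t (i + 1)), ‖γ u - c i‖ < ‖c i - x‖ := fun i hi u hu => by
    have := (ht i hi).2 u hu
    rw [mem_ball, dist_eq_norm] at this
    linarith [hx i hi]
  have loc : ∀ i < N, ∀ u ∈ Icc (t i) (t (i + 1)), l u - l (t i) =
      log ((γ u - x) / (c i - x)) - log ((γ (t i) - x) / (c i - x)) := by
    intro i hi u hu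
    have hc0 : c i - x ≠ 0 := norm_pos_iff.1 (by linarith [hx i hi])
    have := topo_log_const (s := Icc (t i) (t (i + 1))) isPreconnected_Icc (l₁ := l)
      (l₂ := fun u => log ((γ u - x) / (c i - x)) + log (c i - x)) hl.continuousOn
      ((ContinuousOn.clog (by fun_prop) fun u hu => Or.inl (topo_re_pos (hb i hi u hu))).add
        continuousOn_const)
      (fun u hu => by
        have h0 : (γ u - x) / (c i - x) ≠ 0 := fun h0 => by
          simpa [h0] using topo_re_pos (hb i hi u hu)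
        rw [e i hi u hu, exp_add, exp_log h0, exp_log hc0, div_mul_cancel₀ _ hc0])
      (left_mem_Icc.2 (ht i hi).1) hu
    linear_combination this
  intro i
  induction i with
  | zero =>
    intro hi u hu
    have := loc 0 hi u hu
    simp only [wsum, Finset.range_zero, Finset.sum_empty]
    linear_combination this
  | succ i ih =>
    intro hi u hu
    have hi' : i < N := by omega
    have h1 := loc (i + 1) hi u hu
    have hm : t (i + 1) ∈ Icc (t i) (t (i + 1)) := right_mem_Icc.2 (ht i hi').1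
    have h2 := ih hi' _ hm
    have h3 := topo_log_sub (b := c i) (x := x) (z := c (i + 1)) (z' := γ (t (i + 1)))
      (by linarith [hs i hi, hx i hi']) (hb i hi' _ hm)
    rw [wsum, Finset.sum_range_succ]
    rw [wsum] at h2
    linear_combination h1 + h2 - h3

lemma topo_phase {t : ℕ → ℝ} {N : ℕ} (_ht : ∀ i < N, t i ≤ t (i + 1)) (a k : ℕ) (hk : a + k < N)
    {u : ℝ} (hu : u ∈ Icc (t a) (t (a + k + 1))) :
    ∃ i, a ≤ i ∧ i ≤ a + k ∧ u ∈ Icc (t i) (t (i + 1)) := by
  induction k with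
  | zero => exact ⟨a, le_rfl, le_rfl, hu⟩
  | succ k ih =>
    by_cases h : u ≤ t (a + k + 1)
    · obtain ⟨i, h1, h2, h3⟩ := ih (by omega) ⟨hu.1, h⟩
      exact ⟨i, h1, by omega, h3⟩
    · exact ⟨a + k + 1, by omega, by omega, (not_le.1 h).le, hu.2⟩

lemma topo_mono {t : ℕ → ℝ} {N : ℕ} (ht : ∀ i < N, t i ≤ t (i + 1)) {a b : ℕ} (hab : a ≤ b)
    (hb : b ≤ N) : t a ≤ t b := by
  induction b, hab using Nat.le_induction with
  | base => exact le_rfl
  | succ b _ ih => exact (ih (by omega)).trans (ht b (by omega))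

/-- the zigzag `0, -1, …, -4, -3, …, 4, 3, …, 0` -/
def topoZ (k : ℕ) : ℤ := if k ≤ 4 then -k else if k ≤ 12 then k - 8 else if k ≤ 16 then 16 - k else 0

lemma topoZ_abs (k : ℕ) : |(topoZ k : ℝ)| ≤ 4 := by
  have : |topoZ k| ≤ 4 := by
    rw [abs_le]; unfold topoZ; split_ifs <;> omega
  exact_mod_cast this

lemma topoZ_step (k : ℕ) : |((topoZ (k + 1) : ℝ) - topoZ k)| ≤ 1 := by
  have : |topoZ (k + 1) - topoZ k| ≤ 1 := by
    rw [abs_le]; unfold topoZ; split_ifs <;> omega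
  exact_mod_cast this

/-- the chain with the two crossing gadgets -/
noncomputable def topoC (h : ℝ) (c : ℕ → ℂ) (n i : ℕ) : ℂ :=
  if i ≤ 16 then c 0 + ((h * topoZ i : ℝ) : ℂ) else if i ≤ 16 + n then c (i - 16)
  else c 0 + ((h * topoZ (i - 16 - n) : ℝ) : ℂ) * I

theorem valid_of_loop {E : Set ℂ} {h : ℝ} (hh : 0 < h) {c : ℕ → ℂ} {n : ℕ} (hc : c n = c 0)
    (hs : ∀ i < n, ‖c (i + 1) - c i‖ ≤ h) {x₀ x₁ : ℂ} (h₀ : x₀ ∈ E) (h₁ : x₁ ∈ E)
    (hf : ∀ i ≤ n, 20 * h ≤ ‖c i - x₀‖ ∧ 20 * h ≤ ‖c i - x₁‖) (hw : wsum x₀ c n ≠ wsum x₁ c n) :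
    ∃ c' : ℕ → ℂ, c' 0 = c 0 ∧ (∀ i, i + 1 < n + 33 → ‖c' (i + 1) - c' i‖ ≤ h) ∧
      (∀ i < n + 33, ∃ j ≤ n, ‖c' i - c j‖ ≤ 4 * h) ∧ Valid E h c' (n + 33) := by
  have A : ∀ i ≤ 16, topoC h c n i = c 0 + ((h * topoZ i : ℝ) : ℂ) := fun i hi => if_pos hi
  have B : ∀ k ≤ n, topoC h c n (16 + k) = c k := by
    intro k hk
    rcases Nat.eq_zero_or_pos k with rfl | hk0
    · simp [topoC, topoZ]
    · rw [topoC, if_neg (by omega), if_pos (by omega), Nat.add_sub_cancel_left]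
  have C : ∀ k, topoC h c n (16 + n + k) = c 0 + ((h * topoZ k : ℝ) : ℂ) * I := by
    intro k
    rcases Nat.eq_zero_or_pos k with rfl | hk0
    · rw [add_zero, B n le_rfl, hc]; simp [topoZ]
    · rw [topoC, if_neg (by omega), if_neg (by omega), show 16 + n + k - 16 - n = k by omega]
  have nA : ∀ i ≤ 16, ‖topoC h c n i - c 0‖ ≤ 4 * h := fun i hi => by
    rw [A i hi, add_sub_cancel_left, norm_real, Real.norm_eq_abs, abs_mul, abs_of_pos hh]
    nlinarith [topoZ_abs i]
  have nC : ∀ k, ‖topoC h c n (16 + n + k) - c 0‖ ≤ 4 * h := fun k => by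
    rw [C k, add_sub_cancel_left, norm_mul, norm_I, mul_one, norm_real, Real.norm_eq_abs, abs_mul,
      abs_of_pos hh]
    nlinarith [topoZ_abs k]
  have step : ∀ i, ‖topoC h c n (i + 1) - topoC h c n i‖ ≤ h := by
    intro i
    by_cases h1 : i + 1 ≤ 16
    · rw [A _ h1, A i (by omega), add_sub_add_left_eq_sub, ← ofReal_sub, norm_real,
        Real.norm_eq_abs, ← mul_sub, abs_mul, abs_of_pos hh]
      nlinarith [topoZ_step i]
    by_cases h2 : i + 1 ≤ 16 + n
    · obtain ⟨k, rfl⟩ : ∃ k, i = 16 + k := ⟨i - 16, by omega⟩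
      rw [add_assoc, B _ (by omega), B k (by omega)]
      exact hs k (by omega)
    · obtain ⟨k, rfl⟩ : ∃ k, i = 16 + n + k := ⟨i - 16 - n, by omega⟩
      rw [add_assoc, C, C, add_sub_add_left_eq_sub, ← sub_mul, norm_mul, norm_I, mul_one,
        ← ofReal_sub, norm_real, Real.norm_eq_abs, ← mul_sub, abs_mul, abs_of_pos hh]
      nlinarith [topoZ_step k]
  have near : ∀ i, ∃ j ≤ n, ‖topoC h c n i - c j‖ ≤ 4 * h := by
    intro i
    by_cases h1 : i ≤ 16
    · exact ⟨0, Nat.zero_le _, nA i h1⟩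
    by_cases h2 : i ≤ 16 + n
    · obtain ⟨k, rfl⟩ : ∃ k, i = 16 + k := ⟨i - 16, by omega⟩
      exact ⟨k, by omega, by rw [B k (by omega), sub_self, norm_zero]; positivity⟩
    · obtain ⟨k, rfl⟩ : ∃ k, i = 16 + n + k := ⟨i - 16 - n, by omega⟩
      exact ⟨0, Nat.zero_le _, nC k⟩
  refine ⟨topoC h c n, by simp [topoC, topoZ], fun i _ => step i, fun i _ => near i, ?_⟩
  intro γ hγ t ht
  have ht1 : ∀ i < n + 33, t i ≤ t (i + 1) := fun i hi => (ht i hi).1
  -- the two crossings meet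
  obtain ⟨s, hs5, s', hs21, hss⟩ : ∃ s ∈ Icc (t 5) (t 13), ∃ s' ∈ Icc (t (21 + n)) (t (29 + n)),
      γ s = γ s' := by
    refine topo_crossing hγ (topo_mono ht1 (by omega) (by omega))
      (topo_mono ht1 (by omega) (by omega)) (c 0) (3 * h) ?_ ?_ ?_ ?_ ?_ ?_
    · intro u hu
      obtain ⟨i, i1, i2, i3⟩ := topo_phase ht1 5 7 (by omega) hu
      have := (ht i (by omega)).2.1 u i3
      rw [mem_ball, dist_eq_norm, A i (by omega)] at this
      refine lt_of_le_of_lt (le_of_eq ?_) ((abs_im_le_norm _).trans_lt this)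
      simp
    · have := (ht 4 (by omega)).2.2
      rw [mem_ball, dist_eq_norm, A 4 (by omega)] at this
      have := (abs_lt.1 ((abs_re_le_norm _).trans_lt this)).2
      simp [topoZ] at this ⊢
      linarith
    · have := (ht 12 (by omega)).2.2
      rw [mem_ball, dist_eq_norm, A 12 (by omega)] at this
      have := (abs_lt.1 ((abs_re_le_norm _).trans_lt this)).1
      simp [topoZ] at this ⊢
      linarith
    · intro u hu
      obtain ⟨i, i1, i2, i3⟩ := topo_phase ht1 (21 + n) 7 (by omega)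
        (u := u) (by rwa [show 21 + n + 7 + 1 = 29 + n by omega])
      have := (ht i (by omega)).2.1 u i3
      obtain ⟨k, rfl⟩ : ∃ k, i = 16 + n + k := ⟨i - 16 - n, by omega⟩
      rw [mem_ball, dist_eq_norm, C] at this
      refine lt_of_le_of_lt (le_of_eq ?_) ((abs_re_le_norm _).trans_lt this)
      simp
    · have := (ht (16 + n + 4) (by omega)).2.2
      rw [mem_ball, dist_eq_norm, C, show 16 + n + 4 + 1 = 21 + n by omega] at this
      have := (abs_lt.1 ((abs_im_le_norm _).trans_lt this)).2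
      simp [topoZ] at this ⊢
      linarith
    · have := (ht (16 + n + 12) (by omega)).2.2
      rw [mem_ball, dist_eq_norm, C, show 16 + n + 12 + 1 = 29 + n by omega] at this
      have := (abs_lt.1 ((abs_im_le_norm _).trans_lt this)).1
      simp [topoZ] at this ⊢
      linarith
  have hle : s ≤ s' := hs5.2.trans ((topo_mono ht1 (by omega) (by omega)).trans hs21.1)
  have h0s : t 0 ≤ s := (topo_mono ht1 (by omega) (by omega)).trans hs5.1
  have hsN : s' ≤ t (n + 33) := hs21.2.trans (topo_mono ht1 (by omega) (by omega))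
  have h0N : t 0 ≤ t (n + 33) := topo_mono ht1 (by omega) le_rfl
  -- increments of the logarithms
  have inc : ∀ x : ℂ, (∀ i ≤ n, 20 * h ≤ ‖c i - x‖) → ∃ l : ℝ → ℂ, Continuous l ∧
      (∀ u ∈ Icc (t 0) (t (n + 33)), exp (l u) = γ u - x) ∧ l s' - l s = wsum x c n := by
    intro x hx
    have far : ∀ i, 16 * h ≤ ‖topoC h c n i - x‖ := fun i => by
      obtain ⟨j, hj, hj'⟩ := near i
      have := norm_sub_le_norm_sub_add_norm_sub (c j) (topoC h c n i) x
      rw [norm_sub_rev (c j) (topoC h c n i)] at this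
      linarith [hx j hj]
    have hne : ∀ u ∈ Icc (t 0) (t (n + 33)), γ u - x ≠ 0 := by
      intro u hu h0
      obtain ⟨i, -, i2, i3⟩ := topo_phase ht1 0 (n + 32) (by omega)
        (u := u) (by rwa [show 0 + (n + 32) + 1 = n + 33 by omega])
      have := (ht i (by omega)).2.1 u i3
      rw [mem_ball, dist_eq_norm, sub_eq_zero.1 h0, norm_sub_rev] at this
      linarith [far i]
    obtain ⟨l, hl, e⟩ := topo_exists_log (F := fun u : ℝ => γ (projIcc _ _ h0N u) - x)
      (by have := continuous_projIcc (h := h0N); fun_prop)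
      fun u => hne _ (projIcc _ _ h0N u).2
    have e' : ∀ u ∈ Icc (t 0) (t (n + 33)), exp (l u) = γ u - x := fun u hu => by
      rw [e, projIcc_of_mem h0N hu]
    refine ⟨l, hl, e', ?_⟩
    have F := topo_follow hγ (t := t) (c := topoC h c n) (N := n + 33) (h := h) (x := x)
      (fun i hi => ⟨(ht i hi).1, (ht i hi).2.1⟩) (fun i _ => step i)
      (fun i _ => by linarith [far i]) hh hl fun i hi u hu => e' u
        ⟨(topo_mono ht1 (by omega) (by omega)).trans hu.1,
          hu.2.trans (topo_mono ht1 (by omega) le_rfl)⟩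
    obtain ⟨i, i1, i2, i3⟩ := topo_phase ht1 5 7 (by omega) hs5
    obtain ⟨j, j1, j2, j3⟩ := topo_phase ht1 (21 + n) 7 (by omega)
      (u := s') (by rwa [show 21 + n + 7 + 1 = 29 + n by omega])
    obtain ⟨k, rfl⟩ : ∃ k, j = 16 + n + k := ⟨j - 16 - n, by omega⟩
    have F1 := F i (by omega) s i3
    have F2 := F _ (by omega) s' j3
    have hb := hx 0 (Nat.zero_le _)
    have hp : ‖γ s - c 0‖ < ‖c 0 - x‖ := by
      have := (ht i (by omega)).2.1 s i3
      rw [mem_ball, dist_eq_norm] at this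
      have h2 := norm_sub_le_norm_sub_add_norm_sub (γ s) (topoC h c n i) (c 0)
      linarith [nA i (by omega)]
    have w1 := topo_wsum_local (x := x) (b := c 0) (c := topoC h c n) i (16 - i)
      fun m _ m2 => by linarith [nA m (by omega)]
    rw [show i + (16 - i) = 16 + 0 by omega, B 0 (Nat.zero_le _)] at w1
    have w2 : ∀ m ≤ n, wsum x (topoC h c n) (16 + m) - wsum x (topoC h c n) (16 + 0) =
        wsum x c m := by
      intro m
      induction m with
      | zero => simp [wsum]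
      | succ m ih =>
        intro hm
        have := ih (by omega)
        rw [← add_assoc, wsum, Finset.sum_range_succ, add_assoc 16, B _ hm, B m (by omega),
          wsum.eq_1 x c, Finset.sum_range_succ]
        rw [wsum, wsum.eq_1 x c] at this
        linear_combination this
    have w3 := topo_wsum_local (x := x) (b := c 0) (c := topoC h c n) (16 + n) k
      fun m m1 _ => by
        obtain ⟨k', rfl⟩ : ∃ k', m = 16 + n + k' := ⟨m - 16 - n, by omega⟩
        linarith [nC k']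
    rw [B n le_rfl, hc] at w3
    have v1 := topo_log_sub (b := c 0) (x := x) (z := topoC h c n i) (z' := γ s)
      (by linarith [nA i (by omega)]) hp
    have v2 := topo_log_sub (b := c 0) (x := x) (z := topoC h c n (16 + n + k)) (z' := γ s)
      (by linarith [nC k]) hp
    rw [← hss] at F2
    linear_combination F2 - F1 + w1 + w2 n le_rfl + w3 + v2 - v1
  obtain ⟨l₀, c₀, e₀, i₀⟩ := inc x₀ fun i hi => (hf i hi).1
  obtain ⟨l₁, c₁, e₁, i₁⟩ := inc x₁ fun i hi => (hf i hi).2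
  have hsub : Icc s s' ⊆ Icc (t 0) (t (n + 33)) := Icc_subset_Icc h0s hsN
  refine ⟨s, s', h0s, lt_of_le_of_ne hle ?_, hsN, hss, x₀, h₀, x₁, h₁, fun hcomp => ?_⟩
  · rintro rfl
    exact hw (by rw [← i₀, ← i₁, sub_self, sub_self])
  · have n₀ : x₀ ∈ (γ '' Icc s s')ᶜ := by
      rintro ⟨u, hu, hu'⟩
      exact exp_ne_zero _ ((e₀ u (hsub hu)).trans (sub_eq_zero.2 hu'))
    have n₁ : x₁ ∈ (γ '' Icc s s')ᶜ := by
      rintro ⟨u, hu, hu'⟩
      exact exp_ne_zero _ ((e₁ u (hsub hu)).trans (sub_eq_zero.2 hu'))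
    obtain ⟨L, hL, eL⟩ := topo_log_ratio (isCompact_Icc.image hγ).isClosed
      (isPreconnected_connectedComponentIn (x := x₀) (F := (γ '' Icc s s')ᶜ))
      (connectedComponentIn_subset _ _) (mem_connectedComponentIn n₀)
      (hcomp ▸ mem_connectedComponentIn n₁)
    have := topo_log_const (s := Icc s s') isPreconnected_Icc (l₁ := fun u => l₀ u - l₁ u)
      (l₂ := fun u => L (γ u)) (c₀.sub c₁).continuousOn
      (hL.comp hγ.continuousOn (mapsTo_image _ _))
      (fun u hu => by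
        rw [exp_sub, e₀ u (hsub hu), e₁ u (hsub hu), eL _ (mem_image_of_mem _ hu)])
      (left_mem_Icc.2 hle) (right_mem_Icc.2 hle)
    rw [hss, sub_self] at this
    exact hw (by linear_combination this - i₀ + i₁)

end Pool.Agent.P.MP_677d31_pr
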