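import Pool.Agent.P.MP_677d31_pr.Gauss
import Pool.Agent.P.MP_677d31_pr.Topo

set_option autoImplicit false
set_option linter.unusedSectionVars false

namespace Pool.Agent.P.MP_677d31_pr

open Set Metric MeasureTheory Filter Topology Real

/-- the walk follows the chain `c 0, …, c (k - 1)` between times `j` and `n` -/
def Fol (h : ℝ) : ℕ → (ℕ → ℂ) → ℕ → ℕ → Set (ℕ → ℂ)
  | 0, _, _, _ => univ
  | k + 1, c, j, n => {X | ∃ t, j ≤ t ∧ t ≤ n ∧ (∀ m, j ≤ m → m ≤ t → X m ∈ ball (c 0) (2 * h)) ∧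
      X t ∈ ball (c 0) (h / 2) ∧ X ∈ Fol h k (fun i => c (i + 1)) t n}

theorem isOpen_Fol (h : ℝ) (k : ℕ) : ∀ c j n, IsOpen (Fol h k c j n) := by
  induction k with
  | zero => exact fun _ _ _ => isOpen_univ
  | succ k ih =>
    intro c j n
    simp only [Fol, ofPred_exists, ofPred_and]
    refine isOpen_iUnion fun t => isOpen_const.inter (isOpen_const.inter (IsOpen.inter ?_
      ((isOpen_ball.preimage (continuous_apply t)).inter (ih _ _ _))))
    have : {X : ℕ → ℂ | ∀ m, j ≤ m → m ≤ t → X m ∈ ball (c 0) (2 * h)} =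
        ⋂ m ∈ Icc j t, (fun X => X m) ⁻¹' ball (c 0) (2 * h) := by
      ext X; simp
    rw [this]
    exact (finite_Icc j t).isOpen_biInter fun m _ => isOpen_ball.preimage (continuous_apply m)

theorem Fol_congr {h : ℝ} {k : ℕ} : ∀ {c : ℕ → ℂ} {j n n' : ℕ} {X Y : ℕ → ℂ},
    (∀ m ≤ n, X m = Y m) → n ≤ n' → X ∈ Fol h k c j n → Y ∈ Fol h k c j n' := by
  induction k with
  | zero => exact fun _ _ _ => trivial
  | succ k ih =>
    rintro c j n n' X Y e hn ⟨t, h1, h2, h3, h4, h5⟩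
    exact ⟨t, h1, h2.trans hn, fun m k1 k2 => e m (k2.trans h2) ▸ h3 m k1 k2, e t h2 ▸ h4,
      ih e hn h5⟩

/-- small steps and no separating chain followed between times `j` and `n` -/
def ND (E : Set ℂ) (θ : ℝ) (j n : ℕ) : Set (ℕ → ℂ) :=
  {X | ∀ m, j ≤ m → m < n → ‖X (m + 1) - X m‖ ≤ θ} ∩
    (⋃ (h : ℝ) (c : ℕ → ℂ) (k : ℕ) (t : ℕ) (_ : θ ≤ h ∧ Valid E h c k ∧ j ≤ t), Fol h k c t n)ᶜ

theorem mem_ND {E : Set ℂ} {θ : ℝ} {j n : ℕ} {X : ℕ → ℂ} : X ∈ ND E θ j n ↔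
    (∀ m, j ≤ m → m < n → ‖X (m + 1) - X m‖ ≤ θ) ∧
      ∀ h c k t, θ ≤ h → Valid E h c k → j ≤ t → X ∉ Fol h k c t n := by
  simp only [ND, mem_inter_iff, mem_compl_iff, mem_iUnion, not_exists, and_imp]
  rfl

theorem ad_ND (E : Set ℂ) (θ : ℝ) (j n : ℕ) : Ad (ND E θ j n) n := by
  refine Ad.inter ⟨?_, fun X Y e hX m h1 h2 => e m h2.le ▸ e (m + 1) h2 ▸ hX m h1 h2⟩
    (Ad.compl ⟨IsOpen.measurableSet ?_, fun X Y e hX => ?_⟩)
  · simp only [ofPred_forall]
    exact MeasurableSet.iInter fun m => MeasurableSet.iInter fun _ => MeasurableSet.iInter fun _ =>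
      measurableSet_le (by fun_prop) measurable_const
  · exact isOpen_iUnion fun _ => isOpen_iUnion fun _ => isOpen_iUnion fun _ =>
      isOpen_iUnion fun _ => isOpen_iUnion fun _ => isOpen_Fol _ _ _ _ _
  · simp only [mem_iUnion] at hX ⊢
    obtain ⟨h, c, k, t, h1, h2⟩ := hX
    exact ⟨h, c, k, t, h1, Fol_congr e le_rfl h2⟩

theorem ND.mono {E : Set ℂ} {θ : ℝ} {j n j' n' : ℕ} {X : ℕ → ℂ} (h : X ∈ ND E θ j n)
    (h1 : j ≤ j') (h2 : n' ≤ n) : X ∈ ND E θ j' n' := by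
  rw [mem_ND] at h ⊢
  exact ⟨fun m k1 k2 => h.1 m (h1.trans k1) (k2.trans_le h2), fun a c k t k1 k2 k3 k4 =>
    h.2 a c k t k1 k2 (h1.trans k3) (Fol_congr (fun _ _ => rfl) h2 k4)⟩

theorem FH.step {E D : Set ℂ} {θ : ℝ} {j t n : ℕ} {X : ℕ → ℂ} (h : X ∈ FH D j t) (hj : X j ∉ D)
    (hN : X ∈ ND E θ j n) (ht : t ≤ n) : ∃ w ∉ D, ‖X t - w‖ ≤ θ := by
  rcases t with _ | t
  · obtain rfl : j = 0 := Nat.le_zero.mp h.1
    exact absurd h.2.1 hj
  · have : j ≤ t := by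
      rcases h.1.eq_or_lt with rfl | k
      · exact absurd h.2.1 hj
      · omega
    exact ⟨X t, h.2.2 t this (Nat.lt_succ_self t), (mem_ND.mp hN).1 t this ht⟩

/-- the first visit to `D` is in `T` and no separation is detected before -/
def FE (E : Set ℂ) (θ : ℝ) (D T : Set ℂ) (j : ℕ) : Set (ℕ → ℂ) :=
  {X | ∃ n, X ∈ FH D j n ∧ X n ∈ T ∧ X ∈ ND E θ j n}

variable {Ω : Type} [MeasurableSpace Ω] {P : Measure Ω} [IsProbabilityMeasure P]

theorem PB.comp₀ {σ a : ℝ} {W : Walk P σ} {D S S₁ : Set ℂ} {A A₁ : ℕ → Set (ℕ → ℂ)}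
    (hD : MeasurableSet D) (hS₁ : MeasurableSet S₁)
    (h : ∀ j X, X j ∈ S → X ∈ A j → ∃ n, X ∈ FH D j n ∧ X n ∈ S₁ ∧ X ∈ A₁ n)
    (h1 : PB W A₁ S₁ a) (ha : 0 ≤ a) : PB W A S a := by
  have := PB.comp (S := S) (A := A) (G := fun _ _ => ∅) (b := 0) (c := 0) hD hS₁ hS₁
    (fun _ _ => ⟨MeasurableSet.empty, fun _ _ _ h => h⟩) (fun j X k1 k2 => by
      obtain ⟨n, k3, k4⟩ := h j X k1 k2
      exact ⟨n, k3, Or.inl ⟨id, k4⟩⟩) h1 (by rwa [add_zero])
    (PB.empty fun _ _ _ ⟨_, _, h⟩ => h) ha le_rfl le_rfl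
  simpa using this

theorem smv_log {x c : ℂ} {ρ : ℝ} (h : ρ < ‖x - c‖) : SMV (fun w => log ‖w - c‖) x ρ := by
  have hne : ∀ w ∈ closedBall x ρ, w - c ≠ 0 := fun w hw e => by
    rw [sub_eq_zero.mp e, mem_closedBall, dist_comm, dist_eq_norm] at hw
    linarith
  refine ⟨ContinuousOn.log (by fun_prop) fun w hw => norm_ne_zero_iff.mpr (hne w hw),
    fun t ht htρ => le_of_eq ?_⟩
  exact AnalyticOnNhd.circleAverage_log_norm_of_ne_zero (g := fun w => w - c)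
    (fun w _ => by fun_prop) fun w hw =>
      hne w (closedBall_subset_closedBall (by rwa [abs_of_pos ht]) hw)

theorem SMV.int {f : ℂ → ℝ} {x : ℂ} {ρ t : ℝ} (h : SMV f x ρ) (ht : 0 < t) (htρ : t ≤ ρ) :
    CircleIntegrable f x t :=
  (h.1.mono (sphere_subset_closedBall.trans (closedBall_subset_closedBall htρ))).circleIntegrable
    ht.le

theorem SMV.add {f g : ℂ → ℝ} {x : ℂ} {ρ : ℝ} (hf : SMV f x ρ) (hg : SMV g x ρ) :
    SMV (fun w => f w + g w) x ρ :=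
  ⟨hf.1.add hg.1, fun t ht htρ => by
    rw [circleAverage_fun_add (hf.int ht htρ) (hg.int ht htρ)]
    exact add_le_add (hf.2 t ht htρ) (hg.2 t ht htρ)⟩

theorem SMV.mul {f : ℂ → ℝ} {x : ℂ} {ρ a : ℝ} (hf : SMV f x ρ) (ha : 0 ≤ a) :
    SMV (fun w => a * f w) x ρ :=
  ⟨continuousOn_const.mul hf.1, fun t ht htρ =>
    (circleAverage_fun_smul (a := a) (f := f)).le.trans
      (mul_le_mul_of_nonneg_left (hf.2 t ht htρ) ha)⟩

theorem smv_const (a : ℝ) (x : ℂ) (ρ : ℝ) : SMV (fun _ => a) x ρ :=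
  ⟨continuousOn_const, fun t _ _ => (circleAverage_const a x t).le⟩

theorem SMV.sum {ι : Type*} {s : Finset ι} {f : ι → ℂ → ℝ} {x : ℂ} {ρ : ℝ}
    (h : ∀ i ∈ s, SMV (f i) x ρ) : SMV (fun w => ∑ i ∈ s, f i w) x ρ := by
  classical
  induction s using Finset.induction_on with
  | empty => simpa using smv_const 0 x ρ
  | insert i s hi ih =>
    simp only [Finset.sum_insert hi]
    exact (h i (Finset.mem_insert_self _ _)).add
      (ih fun k hk => h k (Finset.mem_insert_of_mem hk))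

theorem SMV.mono {f : ℂ → ℝ} {x : ℂ} {ρ ρ' : ℝ} (h : SMV f x ρ) (h' : ρ' ≤ ρ) : SMV f x ρ' :=
  ⟨h.1.mono (closedBall_subset_closedBall h'), fun t ht k => h.2 t ht (k.trans h')⟩

theorem barrier {a b R η : ℝ} (ha : 0 < a) (hb : b ≤ R) (hR : a < R) (hη : 0 < η) :
    ∀ᶠ σ in 𝓝[>] (0 : ℝ), ∀ (W : Walk P σ) (c : ℂ) (D : Set ℂ), MeasurableSet D →
      ball c a ∪ (ball c R)ᶜ ⊆ D →
      PB W (Hit D (ball c R)ᶜ) (ball c b) (log (2 * b / a) / log (2 * R / a) + η) := by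
  have hl : 0 < log (2 * R / a) := log_pos (by rw [lt_div_iff₀ ha]; linarith)
  have hl' : 0 < log (2 * (R + a) / a) := log_pos (by rw [lt_div_iff₀ ha]; linarith)
  filter_upwards [hit_bound (P := P) (U := log (2 * (R + a) / a) / log (2 * R / a)) (ρ := a / 2)
    (by positivity) (by positivity) (ha.trans hR) hη] with σ hσ W c D hD hs
  have e : ∀ w : ℂ, w - c ≠ 0 → (log (2 * R / a))⁻¹ * (log ‖w - c‖ + log (2 / a)) =
      log (2 * ‖w - c‖ / a) / log (2 * R / a) := fun w hw => by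
    rw [← log_mul (norm_ne_zero_iff.mpr hw) (by positivity), div_eq_inv_mul (log _)]
    congr 2; ring
  have hx : ∀ x ∉ D, a ≤ ‖x - c‖ ∧ ‖x - c‖ < R := fun x hx =>
    ⟨not_lt.mp fun h => hx (hs (Or.inl (mem_ball_iff_norm.mpr h))),
      mem_ball_iff_norm.mp (not_not.mp fun h => hx (hs (Or.inr h)))⟩
  refine hσ W (fun w => (log (2 * R / a))⁻¹ * (log ‖w - c‖ + log (2 / a))) D _ _ _ c hD
    measurableSet_ball.compl (subset_union_right.trans hs)
    (fun x k => mem_ball_iff_norm.mpr (hx x k).2) (fun x k => ⟨((smv_log (by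
      linarith [(hx x k).1])).add (smv_const _ _ _)).mul (by positivity), fun w hw => ?_⟩)
    fun x k => ⟨not_not.mpr (ball_subset_ball hb k), fun k' => ?_⟩
  · have h1 := mem_closedBall_iff_norm.mp hw
    have h2 := abs_le.mp (abs_norm_sub_norm_le (w - c) (x - c))
    rw [sub_sub_sub_cancel_right] at h2
    have h3 : a / 2 ≤ ‖w - c‖ := by linarith [(hx x k).1, h2.1]
    rw [e w (norm_pos_iff.mp (by linarith))]
    refine ⟨div_nonneg (log_nonneg (by rw [le_div_iff₀ ha]; linarith)) hl.le, ?_, fun h => ?_⟩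
    · gcongr
      · exact div_pos (by linarith) ha
      · linarith [(hx x k).2, h2.2]
    · rw [le_div_iff₀ hl, one_mul]
      have : R ≤ ‖w - c‖ := not_lt.mp fun h' => h (mem_ball_iff_norm.mpr h')
      gcongr
      exact div_pos (by linarith) ha
  · have := (hx x k').1
    rw [e x (norm_pos_iff.mp (by linarith))]
    gcongr
    · exact div_pos (by linarith) ha
    · exact (mem_ball_iff_norm.mp k).le

/-- success probability of one link of a chain -/
noncomputable def p1 : ℝ := (1 - log 6 / log 8) / 2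

theorem p1_pos : 0 < p1 := by
  have : log 6 / log 8 < 1 :=
    (div_lt_one (log_pos (by norm_num))).mpr (log_lt_log (by norm_num) (by norm_num))
  unfold p1; linarith

theorem p1_le : p1 ≤ 1 := by
  have : 0 ≤ log 6 / log 8 := div_nonneg (log_nonneg (by norm_num)) (log_nonneg (by norm_num))
  unfold p1; linarith

theorem chain {h : ℝ} (hh : 0 < h) : ∀ᶠ σ in 𝓝[>] (0 : ℝ), ∀ (W : Walk P σ) (E : Set ℂ) (θ : ℝ)
    (D T S : Set ℂ) (a : ℝ), θ ≤ h → MeasurableSet S → 0 ≤ a → PB W (FE E θ D T) S a →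
    ∀ (k : ℕ) (c : ℕ → ℂ), (∀ i, i + 1 < k → ‖c (i + 1) - c i‖ ≤ h) →
    (∀ i < k, Disjoint (ball (c i) (2 * h)) T ∧ closedBall (c i) (3 * h) ⊆ S) → Valid E h c k →
    PB W (FE E θ D T) (ball (c 0) (3 * h / 2)) (a * (1 - p1 ^ k)) := by
  filter_upwards [barrier (P := P) (a := h / 2) (b := 3 * h / 2) (R := 2 * h) (by positivity)
    (by linarith) (by linarith) p1_pos] with σ hσ W E θ D T S a hθ hS ha h0
  have e : log (2 * (3 * h / 2) / (h / 2)) / log (2 * (2 * h) / (h / 2)) + p1 = 1 - p1 := by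
    rw [show 2 * (3 * h / 2) / (h / 2) = 6 by field_simp; norm_num,
      show 2 * (2 * h) / (h / 2) = 8 by field_simp; norm_num, p1]
    ring
  rw [e] at hσ
  suffices H : ∀ (k : ℕ) (c : ℕ → ℂ), (∀ i, i + 1 < k → ‖c (i + 1) - c i‖ ≤ h) →
      (∀ i < k, Disjoint (ball (c i) (2 * h)) T ∧ closedBall (c i) (3 * h) ⊆ S) →
      PB W (fun j => {X | ∃ n, X ∈ FH D j n ∧ X n ∈ T ∧ X ∈ ND E θ j n ∧ X ∉ Fol h k c j n})
        (ball (c 0) (3 * h / 2)) (a * (1 - p1 ^ k)) from fun k c h1 h2 h3 =>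
    (H k c h1 h2).mono (fun j X _ ⟨n, k1, k2, k3⟩ =>
      ⟨n, k1, k2, k3, (mem_ND.mp k3).2 h c k j hθ h3 le_rfl⟩) Subset.rfl le_rfl
  intro k
  induction k with
  | zero => exact fun c _ _ => PB.empty fun j X _ ⟨_, _, _, _, k⟩ => k trivial
  | succ k ih =>
    intro c h1 h2
    have hD' : MeasurableSet (ball (c 0) (h / 2) ∪ (ball (c 0) (2 * h))ᶜ) :=
      measurableSet_ball.union measurableSet_ball.compl
    have i1 := ih (fun i => c (i + 1)) (fun i hi => h1 _ (by omega)) fun i hi => h2 _ (by omega)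
    have hp : 0 ≤ 1 - p1 ^ k := sub_nonneg.mpr (pow_le_one₀ p1_pos.le p1_le)
    have := PB.comp (S := ball (c 0) (3 * h / 2)) (S₁ := ball (c 0) (h / 2))
      (A := fun j => {X | ∃ n, X ∈ FH D j n ∧ X n ∈ T ∧ X ∈ ND E θ j n ∧
        X ∉ Fol h (k + 1) c j n})
      (A₁ := fun j => {X | ∃ n, X ∈ FH D j n ∧ X n ∈ T ∧ X ∈ ND E θ j n ∧
        X ∉ Fol h k (fun i => c (i + 1)) j n})
      (G := fun _ n => {X | X n ∈ (ball (c 0) (2 * h))ᶜ}) (a := a * (1 - p1 ^ k))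
      (b := a * p1 ^ k) hD' measurableSet_ball hS (fun _ n => ad_eval measurableSet_ball.compl n)
      ?_ ?_ (h0.mono (fun _ _ _ h => h) Subset.rfl (le_of_eq (by ring))) (hσ W _ _ hD' Subset.rfl)
      (mul_nonneg ha hp) (mul_nonneg ha (pow_nonneg p1_pos.le k)) (sub_nonneg.mpr p1_le)
    · exact this.mono (fun _ _ _ h => h) Subset.rfl (le_of_eq (by ring))
    · rintro j X hj ⟨n, k1, k2, k3, k4⟩
      obtain ⟨t, ht, k5⟩ := exists_FH (D := ball (c 0) (h / 2) ∪ (ball (c 0) (2 * h))ᶜ) k1.1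
        (Or.inr fun h' => disjoint_left.mp (h2 0 (by omega)).1 h' k2)
      refine ⟨t, k5, ?_⟩
      by_cases hX : X t ∈ ball (c 0) (2 * h)
      · have k6 := k5.2.1.resolve_right (not_not.mpr hX)
        refine Or.inl ⟨not_not.mpr hX, k6, n, FH.later k1 k5.1 ht, k2, ND.mono k3 k5.1 le_rfl,
          fun k7 => k4 ⟨t, k5.1, ht, fun m m1 m2 => ?_, k6, k7⟩⟩
        rcases m2.eq_or_lt with rfl | m3
        · exact hX
        · exact not_not.mp fun h' => k5.2.2 m m1 m3 (Or.inr h')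
      · refine Or.inr ⟨hX, (h2 0 (by omega)).2 ?_, n, FH.later k1 k5.1 ht, k2,
          ND.mono k3 k5.1 le_rfl⟩
        by_cases hj' : X j ∈ ball (c 0) (h / 2) ∪ (ball (c 0) (2 * h))ᶜ
        · obtain rfl := FH.unique k5 ⟨le_rfl, hj', fun m m1 m2 => by omega⟩
          exact absurd (ball_subset_ball (by linarith) hj) hX
        obtain ⟨w, w1, w2⟩ := FH.step k5 hj' k3 ht
        have w3 : w ∈ ball (c 0) (2 * h) := not_not.mp fun h' => w1 (Or.inr h')
        have := dist_triangle (X t) w (c 0)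
        rw [dist_eq_norm (X t) w] at this
        rw [mem_closedBall]
        linarith [mem_ball.mp w3]
    · rcases k with _ | k
      · exact PB.empty fun j X _ ⟨_, _, _, _, k⟩ => k trivial
      refine i1.mono (fun _ _ _ h => h) (fun w hw => ?_) le_rfl
      have := dist_triangle w (c 0) (c 1)
      rw [dist_comm (c 0), dist_eq_norm (c 1)] at this
      rw [mem_ball]
      linarith [mem_ball.mp hw, h1 0 (by omega)]

theorem annulus {ρ : ℝ} (hρ : 0 < ρ) : ∀ᶠ σ in 𝓝[>] (0 : ℝ), ∀ (W : Walk P σ) (E : Set ℂ)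
    (θ : ℝ) (D T : Set ℂ) (a : ℝ), θ ≤ ρ / 40 → 0 ≤ a → ∀ x₀ ∈ E, ∀ x₁ ∈ E, 4 * ρ ≤ ‖x₁ - x₀‖ →
    Disjoint (ball x₀ (2 * ρ)) T → PB W (FE E θ D T) (ball x₀ (2 * ρ)) a →
    PB W (FE E θ D T) (ball x₀ ρ) (a * (1 - p1 ^ 333)) := by
  filter_upwards [chain (P := P) (h := ρ / 40) (by positivity)]
    with σ hσ W E θ D T a hθ ha x₀ h₀ x₁ h₁ hd hT h0
  obtain ⟨t, ht, htf, hc⟩ := finite_cover_balls_of_compact (isCompact_sphere x₀ ρ)
    (e := ρ / 80) (by positivity)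
  refine PB.comp₀ (D := (ball x₀ ρ)ᶜ) (S₁ := closedBall x₀ (ρ + ρ / 40) \ ball x₀ ρ)
    (A₁ := FE E θ D T) measurableSet_ball.compl (measurableSet_closedBall.diff measurableSet_ball) ?_
    (PB.cover htf (T := fun b => ball b (3 * (ρ / 40) / 2)) (fun _ _ => measurableSet_ball)
      (fun x hx => ?_) fun b hb => ?_)
    (mul_nonneg ha (sub_nonneg.mpr (pow_le_one₀ p1_pos.le p1_le)))
  · rintro j X hj ⟨n, k1, k2, k3⟩
    obtain ⟨t, ht, k5⟩ := exists_FH (D := (ball x₀ ρ)ᶜ) k1.1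
      fun h' => disjoint_left.mp hT (ball_subset_ball (by linarith) h') k2
    obtain ⟨w, w1, w2⟩ := FH.step k5 (not_not.mpr hj) k3 ht
    refine ⟨t, k5, ⟨?_, k5.2.1⟩, n, FH.later k1 k5.1 ht, k2, ND.mono k3 k5.1 le_rfl⟩
    have := dist_triangle (X t) w x₀
    rw [dist_eq_norm (X t) w] at this
    rw [mem_closedBall]
    linarith [mem_ball.mp (not_not.mp w1)]
  · have a1 := mem_closedBall_iff_norm.mp hx.1
    have a2 : ρ ≤ ‖x - x₀‖ := not_lt.mp fun h => hx.2 (mem_ball_iff_norm.mpr h)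
    have a3 : 0 < ‖x - x₀‖ := by linarith
    obtain ⟨b, hb, hb'⟩ := mem_iUnion₂.mp (hc (show x₀ + (ρ / ‖x - x₀‖) • (x - x₀) ∈ sphere x₀ ρ by
      rw [mem_sphere_iff_norm, add_sub_cancel_left, norm_smul, Real.norm_of_nonneg (by positivity)]
      field_simp))
    refine mem_iUnion₂.mpr ⟨b, hb, ?_⟩
    have a4 : dist x (x₀ + (ρ / ‖x - x₀‖) • (x - x₀)) = ‖x - x₀‖ - ρ := by
      rw [dist_eq_norm, ← sub_sub, show x - x₀ - (ρ / ‖x - x₀‖) • (x - x₀) =
        (1 - ρ / ‖x - x₀‖) • (x - x₀) by rw [sub_smul, one_smul], norm_smul,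
        Real.norm_of_nonneg (sub_nonneg.mpr ((div_le_one a3).mpr a2))]
      field_simp
    have := dist_triangle x (x₀ + (ρ / ‖x - x₀‖) • (x - x₀)) b
    rw [mem_ball]
    linarith [mem_ball.mp hb']
  · have hb1 : ‖b - x₀‖ = ρ := mem_sphere_iff_norm.mp (ht hb)
    let c : ℕ → ℂ := fun k => x₀ + (b - x₀) * Complex.exp (2 * π * Complex.I * k / (300 : ℕ))
    have c0 : c 0 = b := by simp [c]
    have c1 : ∀ i, ‖c i - x₀‖ = ρ := fun i => by
      rw [add_sub_cancel_left, norm_mul, hb1, show (2 * π * Complex.I * i / (300 : ℕ) : ℂ) =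
        (2 * π * i / 300 : ℝ) * Complex.I by push_cast; ring, Complex.norm_exp_ofReal_mul_I, mul_one]
    have c2 : ∀ i, 3 * ρ ≤ ‖c i - x₁‖ := fun i => by
      have := norm_sub_le_norm_sub_add_norm_sub x₁ (c i) x₀
      rw [norm_sub_rev x₁ (c i)] at this
      linarith [c1 i]
    have c3 : c 300 = c 0 := by
      simp only [c]
      rw [mul_div_assoc, div_self (by norm_num), mul_one, Complex.exp_two_pi_mul_I]
      simp
    obtain ⟨c', d0, d1, d2, d3⟩ := valid_of_loop (h := ρ / 40) (by positivity) c3 (fun i _ => by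
      have : c (i + 1) - c i = (c i - x₀) * (Complex.exp (Complex.I * (2 * π / 300 : ℝ)) - 1) := by
        simp only [c, add_sub_cancel_left, mul_sub, mul_one, mul_assoc, ← Complex.exp_add]
        push_cast
        ring_nf
      rw [this, norm_mul, c1]
      have := Real.norm_exp_I_mul_ofReal_sub_one_le (x := 2 * π / 300)
      rw [Real.norm_of_nonneg (by positivity)] at this
      nlinarith [pi_le_four, pi_lt_d2]) h₀ h₁ (fun i _ => ⟨by linarith [c1 i], by linarith [c2 i]⟩)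
      (by
        rw [wsum_far (x := x₁) c3 fun i _ => by
          have := norm_sub_le_norm_sub_add_norm_sub (c i) x₀ (c 0)
          rw [norm_sub_rev x₀] at this
          linarith [c1 i, c1 0, c2 0]]
        exact wsum_circle x₀ (norm_pos_iff.mp (by linarith)) (by norm_num))
    have d4 : ∀ i < 333, closedBall (c' i) (3 * (ρ / 40)) ⊆ ball x₀ (2 * ρ) := fun i hi => by
      obtain ⟨j, -, hj⟩ := d2 i hi
      refine closedBall_subset_ball' ?_
      have := norm_sub_le_norm_sub_add_norm_sub (c' i) (c j) x₀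
      rw [dist_eq_norm]
      linarith [c1 j]
    have := hσ W E θ D T _ a hθ measurableSet_ball ha h0 333 c' d1 (fun i hi =>
      ⟨hT.mono_left ((ball_subset_closedBall.trans (closedBall_subset_closedBall
        (by linarith))).trans (d4 i hi)), d4 i hi⟩) d3
    rw [d0, c0] at this
    exact this.mono (fun _ _ _ h => h) inter_subset_right le_rfl

theorem far (J : ℕ) : ∀ {r : ℝ}, 0 < r → ∀ᶠ σ in 𝓝[>] (0 : ℝ), ∀ (W : Walk P σ) (E : Set ℂ)
    (θ : ℝ) (D T : Set ℂ), θ ≤ r / 40 → ∀ x₀ ∈ E, ∀ x₁ ∈ E, 2 * 2 ^ J * r ≤ ‖x₁ - x₀‖ →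
    Disjoint (ball x₀ (2 ^ J * r)) T → PB W (FE E θ D T) (ball x₀ r) ((1 - p1 ^ 333) ^ J) := by
  induction J with
  | zero => exact fun _ => Eventually.of_forall fun _ _ _ _ _ _ _ _ _ _ _ _ _ => PB.one (by simp)
  | succ J ih =>
    intro r hr
    filter_upwards [ih (r := 2 * r) (by positivity), annulus (P := P) hr]
      with σ h1 h2 W E θ D T hθ x₀ h₀ x₁ h₁ hd hT
    have a1 : (1 : ℝ) ≤ 2 ^ J := one_le_pow₀ one_le_two
    rw [pow_succ] at hd hT ⊢
    exact h2 W E θ D T _ hθ (pow_nonneg (sub_nonneg.mpr (pow_le_one₀ p1_pos.le p1_le)) J) x₀ h₀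
      x₁ h₁ (by nlinarith) (hT.mono_left (ball_subset_ball (by nlinarith)))
      (h1 W E θ D T (by linarith) x₀ h₀ x₁ h₁ (by linarith) (by rwa [← mul_assoc]))

end Pool.Agent.P.MP_677d31_pr
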