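import Mathlib

set_option autoImplicit false

namespace Pool.Agent.P.MP_677d31_pr

open Set Metric

/-- every nonvanishing continuous function on `U` has a continuous logarithm -/
def HasLogs (U : Set ℂ) : Prop :=
  ∀ F : ℂ → ℂ, ContinuousOn F U → (∀ w ∈ U, F w ≠ 0) →
    ∃ L : ℂ → ℂ, ContinuousOn L U ∧ ∀ w ∈ U, Complex.exp (L w) = F w

/-- discrete winding sum of the points `c 0, …, c n` around `x` -/
noncomputable def wsum (x : ℂ) (c : ℕ → ℂ) (n : ℕ) : ℂ :=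
  ∑ i ∈ Finset.range n, Complex.log ((c (i + 1) - x) / (c i - x))

/-- between times `a` and `b` the path `γ` makes a loop separating two points of `E` -/
def Sep (E : Set ℂ) (γ : ℝ → ℂ) (a b : ℝ) : Prop :=
  ∃ s t, a ≤ s ∧ s < t ∧ t ≤ b ∧ γ s = γ t ∧ ∃ x ∈ E, ∃ y ∈ E,
    connectedComponentIn (γ '' Icc s t)ᶜ x ≠ connectedComponentIn (γ '' Icc s t)ᶜ y

/-- every continuous path following the chain `c 0, …, c (n - 1)` of mesh `h` separates `E` -/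
def Valid (E : Set ℂ) (h : ℝ) (c : ℕ → ℂ) (n : ℕ) : Prop :=
  ∀ γ : ℝ → ℂ, Continuous γ → ∀ t : ℕ → ℝ,
    (∀ i < n, t i ≤ t (i + 1) ∧ (∀ u ∈ Icc (t i) (t (i + 1)), γ u ∈ ball (c i) (3 * h)) ∧
      γ (t (i + 1)) ∈ ball (c i) (h / 2)) → Sep E γ (t 0) (t n)

/-- what we use of a Riemann map `ψ` of `Ω` -/
structure Conf (Ω : Set ℂ) (ψ : ℂ → ℂ) : Prop where
  isOpen : IsOpen Ω
  ne : Ωᶜ.Nonempty
  diff : DifferentiableOn ℂ ψ Ω
  maps : ∀ w ∈ Ω, ‖ψ w‖ < 1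
  deriv_ne : ∀ w ∈ Ω, deriv ψ w ≠ 0
  koebe : ∀ w ∈ Ω, 1 - ‖ψ w‖ ≤ 64 * infDist w Ωᶜ * ‖deriv ψ w‖

/-- super mean value property on small circles around `x` -/
def SMV (f : ℂ → ℝ) (x : ℂ) (ρ : ℝ) : Prop :=
  ContinuousOn f (closedBall x ρ) ∧ ∀ t, 0 < t → t ≤ ρ → Real.circleAverage f x t ≤ f x

end Pool.Agent.P.MP_677d31_pr
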