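import Pool.Agent.P.MP_677d31_pr.Walk

set_option autoImplicit false
set_option linter.unusedSectionVars false

namespace Pool.Agent.P.MP_677d31_pr

open Set Metric MeasureTheory ProbabilityTheory Filter Topology ENNReal Real

instance : IsGaussian g1 := by unfold g1; infer_instance

theorem g1_rot (θ : ℝ) : g1.map (fun ξ => Complex.exp (θ * Complex.I) * ξ) = g1 := by
  have h := IsGaussian.map_rotation_eq_self (μ := gaussianReal 0 1) (by simp) (-θ)
  have m1 := Complex.equivRealProdCLM.symm.continuous.measurable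
  unfold g1
  conv_rhs => rw [← h]
  rw [Measure.map_map (by fun_prop) m1, Measure.map_map m1 (by fun_prop)]
  congr 1
  ext p : 1
  apply Complex.ext <;>
    simp [ContinuousLinearMap.rotation_apply, Complex.exp_ofReal_mul_I_re,
      Complex.exp_ofReal_mul_I_im, Complex.equivRealProdCLM_symm_apply, Complex.cos_ofReal_re,
      Complex.sin_ofReal_re] <;> ring

theorem integrable_pow (k : ℕ) : Integrable (fun ξ : ℂ => ‖ξ‖ ^ k) g1 := by
  simpa using (IsGaussian.memLp_id g1 k (by simp)).integrable_norm_pow'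

theorem g1_singleton : g1 {0} = 0 := by
  have := nullSingletonClass_gaussianReal (μ := 0) (v := 1) one_ne_zero
  unfold g1
  rw [Measure.map_apply Complex.equivRealProdCLM.symm.continuous.measurable
    (measurableSet_singleton _)]
  refine measure_mono_null (t := {0} ×ˢ univ) (fun p hp => ⟨?_, trivial⟩) (by simp)
  simpa using congrArg Complex.re hp

theorem sq_pos : 0 < ∫ ξ, ‖ξ‖ ^ 2 ∂g1 := by
  rw [integral_pos_iff_support_of_nonneg (fun _ => by positivity) (integrable_pow 2)]
  have : Function.support (fun ξ : ℂ => ‖ξ‖ ^ 2) = {0}ᶜ := by ext; simp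
  rw [this, prob_compl_eq_one_sub (measurableSet_singleton _), g1_singleton]
  simp

theorem circleIntegrable_of_bdd {v : ℂ → ℝ} (hv : Measurable v) {U : ℝ} (h : ∀ w, ‖v w‖ ≤ U)
    (x : ℂ) (t : ℝ) : CircleIntegrable v x t :=
  (intervalIntegrable_iff.mpr (Measure.integrableOn_of_bounded
    (by rw [Real.volume_uIoc]; exact ofReal_ne_top)
    (hv.comp (continuous_circleMap x t).measurable).aestronglyMeasurable
    (Eventually.of_forall fun θ => h _)))

theorem integral_eq_avg {v : ℂ → ℝ} (hv : Measurable v) {U : ℝ} (h : ∀ w, ‖v w‖ ≤ U) (x : ℂ)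
    (σ : ℝ) : Integrable (fun ξ : ℂ => circleAverage v x (σ * ‖ξ‖)) g1 ∧
      ∫ ξ, v (x + σ • ξ) ∂g1 = ∫ ξ, circleAverage v x (σ * ‖ξ‖) ∂g1 := by
  let f : ℝ → ℂ → ℝ := fun θ ξ => v (x + σ • (Complex.exp (θ * Complex.I) * ξ))
  have hf : Integrable (Function.uncurry f) ((volume.restrict (uIoc 0 (2 * π))).prod g1) := by
    have : IsFiniteMeasure (volume.restrict (uIoc 0 (2 * π))) :=
      ⟨by rw [Measure.restrict_apply_univ, Real.volume_uIoc]; exact ofReal_lt_top⟩
    exact Integrable.of_bound (hv.comp (by fun_prop)).aestronglyMeasurable U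
      (Eventually.of_forall fun p => h _)
  have e1 : ∀ ξ : ℂ, circleAverage v x (σ * ‖ξ‖) = (2 * π)⁻¹ * ∫ θ in 0..2 * π, f θ ξ := by
    intro ξ
    rw [circleAverage_eq_integral_add (Complex.arg ξ), smul_eq_mul]
    congr 2
    ext θ
    simp only [f, circleMap]
    congr 2
    conv_rhs => rw [← Complex.norm_mul_exp_arg_mul_I ξ]
    rw [Complex.real_smul]
    push_cast
    rw [add_mul, Complex.exp_add]
    ring
  have e2 : ∀ θ : ℝ, ∫ ξ, f θ ξ ∂g1 = ∫ ξ, v (x + σ • ξ) ∂g1 := by
    intro θ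
    conv_rhs => rw [← g1_rot θ]
    rw [integral_map (by fun_prop) (f := fun ξ => v (x + σ • ξ))
      (hv.comp (by fun_prop)).aestronglyMeasurable]
  simp_rw [e1]
  refine ⟨Integrable.const_mul ?_ _, ?_⟩
  · have := hf.integral_prod_right
    rw [uIoc_of_le two_pi_pos.le] at this
    simp only [intervalIntegral.integral_of_le two_pi_pos.le]
    exact this
  · rw [integral_const_mul, ← intervalIntegral_integral_swap hf]
    simp_rw [e2]
    simp only [intervalIntegral.integral_const, sub_zero, smul_eq_mul]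
    field_simp

theorem step_le {U ρ κ : ℝ} (hU : 0 ≤ U) (hρ : 0 < ρ) (hκ : 0 < κ) :
    ∀ᶠ σ in 𝓝[>] (0 : ℝ), ∀ (v : ℂ → ℝ) (x : ℂ), Measurable v → (∀ w, 0 ≤ v w ∧ v w ≤ U) →
      (∀ t, 0 < t → t ≤ ρ → circleAverage v x t ≤ v x - κ * t ^ 2) →
      ∫⁻ ξ, ENNReal.ofReal (v (x + σ • ξ)) ∂g1 ≤ ENNReal.ofReal (v x) := by
  set A := κ / ρ ^ 2 + U / ρ ^ 4 with hA
  have hA0 : 0 ≤ A := by positivity
  have h1 : ∀ᶠ σ in 𝓝 (0 : ℝ), A * σ ^ 2 * ∫ ξ, ‖ξ‖ ^ 4 ∂g1 < κ * ∫ ξ, ‖ξ‖ ^ 2 ∂g1 := by
    refine ContinuousAt.eventually_lt (by fun_prop) continuousAt_const ?_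
    simpa using mul_pos hκ sq_pos
  filter_upwards [mem_nhdsWithin_of_mem_nhds h1, self_mem_nhdsWithin] with σ h2 hσ v x hv hb hs
  have hσ' : 0 < σ := hσ
  have hn : ∀ w, ‖v w‖ ≤ U := fun w => by rw [Real.norm_of_nonneg (hb w).1]; exact (hb w).2
  obtain ⟨i1, i2⟩ := integral_eq_avg hv hn x σ
  rw [← ofReal_integral_eq_lintegral_ofReal (f := fun ξ => v (x + σ • ξ)) (Integrable.of_bound
    (hv.comp (by fun_prop)).aestronglyMeasurable U (Eventually.of_forall fun p => hn _))
    (Eventually.of_forall fun p => (hb _).1), i2]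
  refine ENNReal.ofReal_le_ofReal ?_
  have key : ∀ t, 0 ≤ t → circleAverage v x t ≤ v x - κ * t ^ 2 + A * t ^ 4 := by
    intro t ht
    rcases ht.eq_or_lt with rfl | ht'
    · simp
    rcases le_or_gt t ρ with h | h
    · exact (hs t ht' h).trans (le_add_of_nonneg_right (by positivity))
    · refine (circleAverage_mono_on_of_le_circle (circleIntegrable_of_bdd hv hn x t)
        fun w _ => (hb w).2).trans ?_
      have a1 : U ≤ U / ρ ^ 4 * t ^ 4 := by
        rw [div_mul_eq_mul_div, le_div_iff₀ (by positivity)]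
        gcongr
      have a2 : κ * t ^ 2 ≤ κ / ρ ^ 2 * t ^ 4 := by
        rw [div_mul_eq_mul_div, le_div_iff₀ (by positivity),
          show κ * t ^ 4 = κ * t ^ 2 * t ^ 2 by ring]
        gcongr
      rw [hA]
      nlinarith [(hb x).1]
  have i3 := (integrable_pow 2).const_mul (κ * σ ^ 2)
  have i4 := (integrable_pow 4).const_mul (A * σ ^ 4)
  refine (integral_mono i1 (((integrable_const (v x)).sub i3).add i4) fun ξ => ?_).trans ?_
  · have := key (σ * ‖ξ‖) (by positivity)
    simp only [Pi.add_apply, Pi.sub_apply]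
    nlinarith
  · rw [integral_add' ((integrable_const (v x)).sub i3) i4, integral_sub' (integrable_const _) i3,
      integral_const_mul, integral_const_mul]
    simp only [integral_const, probReal_univ, smul_eq_mul, one_mul]
    nlinarith [mul_le_mul_of_nonneg_left h2.le (sq_nonneg σ)]

theorem avg_re {F : ℂ → ℂ} {x : ℂ} {t : ℝ} (hF : DiffContOnCl ℂ F (ball x |t|)) :
    circleAverage (fun w => (F w).re) x t = (F x).re := by
  have := Complex.reCLM.circleAverage_comp_comm
    (hF.continuousOn_ball.mono sphere_subset_closedBall).circleIntegrable'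
  rw [hF.circleAverage] at this
  exact this

theorem avg_normsq {F : ℂ → ℂ} {x : ℂ} {t m : ℝ} (hF : DiffContOnCl ℂ F (ball x |t|))
    (hm : ∀ w ∈ sphere x |t|, m ≤ ‖F w - F x‖ ^ 2) :
    ‖F x‖ ^ 2 + m ≤ circleAverage (fun w => ‖F w‖ ^ 2) x t := by
  have hc := hF.continuousOn_ball.mono sphere_subset_closedBall
  have h1 : DiffContOnCl ℂ (fun w => 2 * (starRingEnd ℂ) (F x) * F w + (m - ‖F x‖ ^ 2 : ℝ))
      (ball x |t|) := (hF.const_smul (2 * (starRingEnd ℂ) (F x))).add_const _
  have h2 := avg_re h1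
  refine le_trans (le_of_eq ?_) (h2.symm.le.trans (circleAverage_mono
    (Complex.continuous_re.comp_continuousOn
      (h1.continuousOn_ball.mono sphere_subset_closedBall)).circleIntegrable'
    (hc.norm.pow 2).circleIntegrable' fun w hw => ?_))
  · simp only [Complex.sq_norm, Complex.normSq_apply]
    simp
    ring
  · have := hm w hw
    simp only [Complex.sq_norm, Complex.normSq_apply] at this ⊢
    simp at this ⊢
    nlinarith

variable {Ω : Type} [MeasurableSpace Ω] {P : Measure Ω} [IsProbabilityMeasure P]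

theorem hit_bound {U ρ R η : ℝ} (hU : 0 ≤ U) (hρ : 0 < ρ) (hR : 0 < R) (hη : 0 < η) :
    ∀ᶠ σ in 𝓝[>] (0 : ℝ), ∀ (W : Walk P σ) (f : ℂ → ℝ) (D S' S : Set ℂ) (c : ℝ) (c₀ : ℂ),
      MeasurableSet D → MeasurableSet S' → S' ⊆ D → Dᶜ ⊆ ball c₀ R →
      (∀ x ∉ D, SMV f x ρ ∧ ∀ w ∈ closedBall x ρ, 0 ≤ f w ∧ f w ≤ U ∧ (w ∈ S' → 1 ≤ f w)) →
      (∀ x ∈ S, x ∉ S' ∧ (x ∉ D → f x ≤ c)) → PB W (Hit D S') S (c + η) := by
  classical
  set κ := η / (R + ρ) ^ 2 with hκ
  have hκ0 : 0 < κ := by positivity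
  filter_upwards [step_le (U := U + η + 1) (by positivity) hρ hκ0]
    with σ hσ W f D S' S c c₀ hD hS' hSD hb hf hS
  let q : ℂ → ℝ := fun w => η - κ * ‖w - c₀‖ ^ 2
  have hq : ∀ x ∉ D, ∀ w ∈ closedBall x ρ, 0 ≤ q w := by
    intro x hx w hw
    have a1 : ‖w - c₀‖ ≤ R + ρ := by
      have := dist_triangle w x c₀
      rw [← dist_eq_norm]
      linarith [mem_ball.mp (hb hx), mem_closedBall.mp hw]
    have a2 : κ * ‖w - c₀‖ ^ 2 ≤ κ * (R + ρ) ^ 2 := by gcongr
    rw [hκ, div_mul_cancel₀ _ (by positivity)] at a2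
    exact sub_nonneg.mpr a2
  have hq' : ∀ w, q w ≤ η := fun w => sub_le_self _ (by positivity)
  let v : ℂ → ℝ := fun w => Dᶜ.piecewise (fun w => f w + q w) (fun _ => 0) w + S'.indicator 1 w
  have hv : Measurable v := by
    refine (ContinuousOn.measurable_piecewise (ContinuousOn.add (fun x hx => ?_) (by fun_prop))
      continuousOn_const hD.compl).add (measurable_one.indicator hS')
    exact ((hf x hx).1.1.continuousAt (closedBall_mem_nhds x hρ)).continuousWithinAt
  have v1 : ∀ w ∉ D, v w = f w + q w := fun w hw => by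
    simp [v, hw, indicator_of_notMem fun h => hw (hSD h)]
  have v2 : ∀ w ∈ D, v w = S'.indicator 1 w := fun w hw => by simp [v, hw]
  have v3 : ∀ w, 0 ≤ v w ∧ v w ≤ U + η + 1 := by
    intro w
    by_cases hw : w ∈ D
    · rw [v2 w hw]
      by_cases h : w ∈ S' <;> simp [h] <;> positivity
    · rw [v1 w hw]
      have := (hf w hw).2 w (mem_closedBall_self hρ.le)
      constructor <;> linarith [this.1, this.2.1, hq w hw w (mem_closedBall_self hρ.le), hq' w]
  refine PB.super hD (v := fun w => ENNReal.ofReal (v w)) hv.ennreal_ofReal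
    (fun x hx => hσ v x hv v3 fun t ht htρ => ?_) (fun x hx => ?_) fun x hx => ?_
  · have hs : sphere x |t| ⊆ closedBall x ρ := sphere_subset_closedBall.trans
      (closedBall_subset_closedBall (by rwa [abs_of_pos ht]))
    have c1 := ((hf x hx).1.1.mono hs).circleIntegrable'
    have c2 : CircleIntegrable (fun w : ℂ => κ * ‖w - c₀‖ ^ 2) x t :=
      (Continuous.continuousOn (by fun_prop)).circleIntegrable'
    have c3 : CircleIntegrable (fun _ : ℂ => η) x t := continuousOn_const.circleIntegrable'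
    have a1 := avg_normsq (F := fun w => w - c₀) (x := x) (t := t) (m := t ^ 2)
      (Differentiable.diffContOnCl (by fun_prop)) fun w hw => by
        rw [sub_sub_sub_cancel_right, mem_sphere_iff_norm.mp hw, sq_abs]
    refine (circleAverage_mono (circleIntegrable_of_bdd hv (fun w => by
      rw [Real.norm_of_nonneg (v3 w).1]; exact (v3 w).2) x t) (c1.add (c3.sub c2))
      fun w hw => ?_).trans ?_
    · show v w ≤ f w + q w
      by_cases h : w ∈ D
      · have := (hf x hx).2 w (hs hw)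
        rw [v2 w h]
        by_cases h' : w ∈ S'
        · rw [indicator_of_mem h']
          exact le_add_of_le_of_nonneg (this.2.2 h') (hq x hx w (hs hw))
        · rw [indicator_of_notMem h']
          exact add_nonneg this.1 (hq x hx w (hs hw))
      · exact (v1 w h).le
    · rw [circleAverage_add c1 (c3.sub c2), circleAverage_sub c3 c2, circleAverage_const, v1 x hx]
      have a2 : circleAverage (fun w : ℂ => κ * ‖w - c₀‖ ^ 2) x t =
        κ * circleAverage (fun w : ℂ => ‖w - c₀‖ ^ 2) x t :=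
          circleAverage_fun_smul (a := κ) (f := fun w : ℂ => ‖w - c₀‖ ^ 2)
      have := (hf x hx).1.2 t ht htρ
      simp only [q]
      nlinarith [mul_le_mul_of_nonneg_left a1 hκ0.le]
  · rw [v2 x (hSD hx), indicator_of_mem hx]; simp
  · by_cases h : x ∈ D
    · rw [v2 x h, indicator_of_notMem (hS x hx).1]; simp
    · rw [v1 x h]
      exact ENNReal.ofReal_le_ofReal (add_le_add ((hS x hx).2 h) (hq' x))

end Pool.Agent.P.MP_677d31_pr
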