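import Pool.Agent.P.MP_677d31_pr.Grid3

set_option autoImplicit false

namespace Pool.Agent.P.MP_677d31_pr

open Set Metric

namespace Gr

open Complex

variable {E : Set ℂ} {L : ℕ}

theorem near_of_mem {G : Set (ℤ × ℤ)} {w : ℂ} (hw : w ∈ Om G) :
    ∃ a b, (a, b) ∈ G ∧ |w.re - a| < 1 ∧ |w.im - b| < 1 := by
  obtain ⟨v | v, hi, hw⟩ := hw
  · have h : |w.re - v.1| + |w.im - v.2| < 1 := hw
    exact ⟨v.1, v.2, hi, by linarith [abs_nonneg (w.im - v.2)],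
      by linarith [abs_nonneg (w.re - v.1)]⟩
  · exact ⟨v.1, v.2, hi.1, abs_lt.2 ⟨by linarith [hw.1.1], by linarith [hw.1.2]⟩,
      abs_lt.2 ⟨by linarith [hw.2.1], by linarith [hw.2.2]⟩⟩

theorem int_path {P Q : ℤ → Prop} {lo hi : ℝ} (hQ : ∀ a : ℤ, lo < a → a < hi → Q a)
    (hs : ∀ a a' : ℤ, P a → Q a' → |a - a'| = 1 → P a') {a : ℤ} (ha : P a) (h1 : lo < a)
    (h2 : a < hi) (a' : ℤ) (h3 : lo < a') (h4 : a' < hi) : P a' := by
  rcases le_total a a' with h | h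
  · induction a', h using Int.leInduction with
    | base => exact ha
    | succ n hn ih =>
      have k1 : (a : ℝ) ≤ n := by exact_mod_cast hn
      have k2 := h4
      push_cast at k2
      exact hs n _ (ih (by linarith) (by linarith)) (hQ _ h3 h4) (by simp)
  · induction a', h using Int.leInductionDown with
    | base => exact ha
    | pred n hn ih =>
      have k1 : (n : ℝ) ≤ a := by exact_mod_cast hn
      have k2 := h3
      push_cast at k2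
      exact hs n _ (ih (by linarith) (by linarith)) (hQ _ h3 h4) (by simp)

theorem ball_subset_Om (h0 : Free E L 0) {x : ℂ} (hx : x ∈ Om (GG E L)) {ρ : ℝ}
    (h1 : ‖x‖ + ρ + 3 ≤ L) (h2 : ∀ e ∈ E, 2 * ρ + 40 ≤ ‖x - e‖) : ball x ρ ⊆ Om (GG E L) := by
  intro w hw
  have hρ : 0 < ρ := pos_of_mem_ball hw
  have hr := abs_le.1 (abs_re_le_norm x)
  have hi := abs_le.1 (abs_im_le_norm x)
  have hfree : ∀ a b : ℤ, x.re - (ρ + 2) < a → a < x.re + (ρ + 2) → x.im - (ρ + 2) < b →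
      b < x.im + (ρ + 2) → Free E L (a, b) := by
    intro a b k1 k2 k3 k4
    refine ⟨?_, ?_, fun e he => ?_⟩
    · exact_mod_cast (abs_le.2 ⟨by linarith [hr.1], by linarith [hr.2]⟩ : |(a : ℝ)| ≤ L)
    · exact_mod_cast (abs_le.2 ⟨by linarith [hi.1], by linarith [hi.2]⟩ : |(b : ℝ)| ≤ L)
    · by_contra hcon
      simp only [Far, not_or, not_le, abs_lt] at hcon
      obtain ⟨⟨k5, k6⟩, k7, k8⟩ := hcon
      have k9 : (2 * ρ + 40) ^ 2 ≤ ‖x - e‖ ^ 2 := pow_le_pow_left₀ (by linarith) (h2 e he) 2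
      rw [Complex.sq_norm, normSq_apply, sub_re, sub_im] at k9
      have k10 : (x.re - e.re) ^ 2 < (ρ + 22) ^ 2 := sq_lt_sq' (by linarith) (by linarith)
      have k11 : (x.im - e.im) ^ 2 < (ρ + 22) ^ 2 := sq_lt_sq' (by linarith) (by linarith)
      nlinarith
  obtain ⟨a, b, hab, ha, hb⟩ := near_of_mem hx
  rw [abs_lt] at ha hb
  have hall : ∀ a' b' : ℤ, x.re - (ρ + 2) < a' → a' < x.re + (ρ + 2) → x.im - (ρ + 2) < b' →
      b' < x.im + (ρ + 2) → (a', b') ∈ GG E L := by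
    intro a' b' k1 k2 k3 k4
    have k5 : (a', b) ∈ GG E L :=
      int_path (P := fun a => (a, b) ∈ GG E L) (Q := fun a => Free E L (a, b))
        (fun a k k' => hfree a b k k' (by linarith [hb.2]) (by linarith [hb.1]))
        (fun a a' k k' k'' => mem_of_adj h0 k k' (by simpa using k'')) hab
        (by linarith [ha.2]) (by linarith [ha.1]) a' k1 k2
    exact int_path (P := fun b => (a', b) ∈ GG E L) (Q := fun b => Free E L (a', b))
      (fun b k k' => hfree a' b k1 k2 k k')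
      (fun b b' k k' k'' => mem_of_adj h0 k k' (by simpa using k'')) k5
      (by linarith [hb.2]) (by linarith [hb.1]) b' k3 k4
  rw [mem_ball, dist_eq_norm] at hw
  have hwr := abs_lt.1 ((abs_re_le_norm (w - x)).trans_lt hw)
  have hwi := abs_lt.1 ((abs_im_le_norm (w - x)).trans_lt hw)
  rw [sub_re] at hwr
  rw [sub_im] at hwi
  have f1 := Int.floor_le w.re
  have f2 := Int.lt_floor_add_one w.re
  have f3 := Int.floor_le w.im
  have f4 := Int.lt_floor_add_one w.im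
  have hF : Full (GG E L) ⌊w.re⌋ ⌊w.im⌋ := by
    refine ⟨hall _ _ ?_ ?_ ?_ ?_, hall _ _ ?_ ?_ ?_ ?_, hall _ _ ?_ ?_ ?_ ?_,
      hall _ _ ?_ ?_ ?_ ?_⟩ <;> push_cast <;> linarith [hwr.1, hwr.2, hwi.1, hwi.2]
  rcases f1.eq_or_lt with e1 | e1
  · refine ⟨.inl (⌊w.re⌋, ⌊w.im⌋), hF.1, ?_⟩
    change |w.re - ⌊w.re⌋| + |w.im - ⌊w.im⌋| < 1
    rw [e1, sub_self, abs_zero, abs_of_nonneg (by linarith)]; linarith
  rcases f3.eq_or_lt with e3 | e3
  · refine ⟨.inl (⌊w.re⌋, ⌊w.im⌋), hF.1, ?_⟩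
    change |w.re - ⌊w.re⌋| + |w.im - ⌊w.im⌋| < 1
    rw [e3, sub_self, abs_zero, abs_of_nonneg (by linarith)]; linarith
  exact ⟨.inr (⌊w.re⌋, ⌊w.im⌋), hF, ⟨e1, f2⟩, e3, f4⟩

theorem dichotomy0 (E : Set ℂ) (L : ℕ) (hy : ∀ e ∈ E, 40 ≤ ‖e‖) :
    (∃ e ∈ E, ∃ (c : ℕ → ℂ) (n : ℕ), n ≤ 2 * (2 * L + 1) ^ 2 + 1 ∧ c 0 = 0 ∧ c n = 0 ∧
      (∀ i < n, ‖c (i + 1) - c i‖ ≤ 1) ∧
      (∀ i ≤ n, ‖c i‖ ≤ 2 * L ∧ ∀ e' ∈ E, 20 ≤ ‖c i - e'‖) ∧ wsum e c n ≠ 0) ∨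
    ∃ Ω : Set ℂ, IsOpen Ω ∧ IsPreconnected Ω ∧ 0 ∈ Ω ∧ Disjoint Ω E ∧
      Ω ⊆ ball 0 (2 * (L + 1)) ∧ HasLogs Ω ∧
      ∀ x ∈ Ω, ∀ ρ : ℝ, ‖x‖ + ρ + 3 ≤ L → (∀ e ∈ E, 2 * ρ + 40 ≤ ‖x - e‖) → ball x ρ ⊆ Ω := by
  have h0 : Free E L 0 := by
    refine ⟨by simp, by simp, fun e he => ?_⟩
    have h1 := (hy e he).trans (norm_le_abs_re_add_abs_im e)
    simp only [Far, Prod.fst_zero, Prod.snd_zero, Int.cast_zero, zero_sub, abs_neg]
    by_contra hcon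
    push Not at hcon
    linarith [hcon.1, hcon.2]
  refine (discrete_dichotomy h0).imp id fun hE => ⟨Om (GG E L), isOpen_Om _, preconn_Om,
    zero_mem_Om, ?_, ?_, hasLogs_Om fun ch cv hc => ex_all h0 hE hc,
    fun x hx ρ h1 h2 => ball_subset_Om h0 hx h1 h2⟩
  · refine disjoint_left.2 fun w hw he => ?_
    obtain ⟨a, b, hab, ha, hb⟩ := near_of_mem hw
    rw [abs_sub_comm] at ha hb
    rcases (free_of_mem h0 hab).2.2 w he with h | h <;> linarith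
  · intro w hw
    obtain ⟨a, b, hab, ha, hb⟩ := near_of_mem hw
    have h1 : |(a : ℝ)| ≤ L := by exact_mod_cast (free_of_mem h0 hab).1
    have h2 : |(b : ℝ)| ≤ L := by exact_mod_cast (free_of_mem h0 hab).2.1
    have h3 := abs_sub_abs_le_abs_sub w.re a
    have h4 := abs_sub_abs_le_abs_sub w.im b
    rw [mem_ball_zero_iff]
    linarith [norm_le_abs_re_add_abs_im w]

end Gr

theorem dichotomy (E : Set ℂ) (y : ℂ) {h : ℝ} (hh : 0 < h) (L : ℕ)
    (hy : ∀ e ∈ E, 40 * h ≤ ‖y - e‖) :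
    (∃ e ∈ E, ∃ (c : ℕ → ℂ) (n : ℕ), n ≤ 2 * (2 * L + 1) ^ 2 + 1 ∧ c 0 = y ∧ c n = y ∧
      (∀ i < n, ‖c (i + 1) - c i‖ ≤ h) ∧
      (∀ i ≤ n, ‖c i - y‖ ≤ 2 * L * h ∧ ∀ e' ∈ E, 20 * h ≤ ‖c i - e'‖) ∧ wsum e c n ≠ 0) ∨
    ∃ Ω : Set ℂ, IsOpen Ω ∧ IsPreconnected Ω ∧ y ∈ Ω ∧ Disjoint Ω E ∧
      Ω ⊆ ball y (2 * (L + 1) * h) ∧ HasLogs Ω ∧
      ∀ x ∈ Ω, ∀ ρ : ℝ, ‖x - y‖ + ρ + 3 * h ≤ L * h → (∀ e ∈ E, 2 * ρ + 40 * h ≤ ‖x - e‖) →
        ball x ρ ⊆ Ω := by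
  have hc : (h : ℂ) ≠ 0 := by exact_mod_cast hh.ne'
  set φ : ℂ → ℂ := fun w => y + h * w with hφ
  set ψ : ℂ → ℂ := fun w => (w - y) / h with hψ
  have h1 : ∀ w, φ (ψ w) = w := fun w => by simp only [hφ, hψ]; field_simp; ring
  have h2 : ∀ w, ψ (φ w) = w := fun w => by simp only [hφ, hψ]; field_simp; ring
  have hn : ∀ w w', ‖φ w - φ w'‖ = ‖w - w'‖ * h := fun w w' => by
    have : φ w - φ w' = (w - w') * h := by simp only [hφ]; ring
    rw [this, norm_mul, Complex.norm_real, Real.norm_of_nonneg hh.le]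
  have h0 : φ 0 = y := by simp [hφ]
  have cφ : Continuous φ := by fun_prop
  have cψ : Continuous ψ := by fun_prop
  rcases Gr.dichotomy0 (φ ⁻¹' E) L (fun e he => by
    have := hy _ he
    rw [← h0, hn, zero_sub, norm_neg] at this
    exact le_of_mul_le_mul_right this hh) with
    ⟨e, he, c, n, k1, k2, k3, k4, k5, k6⟩ | ⟨Ω, k1, k2, k3, k4, k5, k6, k7⟩
  · refine Or.inl ⟨φ e, he, fun i => φ (c i), n, k1, (congrArg φ k2).trans h0, (congrArg φ k3).trans h0,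
      fun i hi => ?_, fun i hi => ⟨?_, fun e' he' => ?_⟩, ?_⟩
    · rw [hn]; nlinarith [k4 i hi]
    · rw [← h0, hn, sub_zero]; exact mul_le_mul_of_nonneg_right (k5 i hi).1 hh.le
    · rw [← h1 e', hn]
      exact mul_le_mul_of_nonneg_right ((k5 i hi).2 _ (by rwa [mem_preimage, h1])) hh.le
    · have : ∀ w, φ w - φ e = h * (w - e) := fun w => by simp only [hφ]; ring
      simpa only [wsum, this, mul_div_mul_left _ _ hc] using k6
  · have himg : ψ ⁻¹' Ω = φ '' Ω := by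
      ext w
      exact ⟨fun hw => ⟨ψ w, hw, h1 w⟩, by rintro ⟨w, hw, rfl⟩; rwa [mem_preimage, h2]⟩
    refine Or.inr ⟨ψ ⁻¹' Ω, k1.preimage cψ, himg ▸ k2.image φ cφ.continuousOn,
      by rwa [← h0, mem_preimage, h2], disjoint_left.2 fun w hw he => ?_, fun w hw => ?_,
      fun F hF hF0 => ?_, fun x hx ρ hρ hE w hw => ?_⟩
    · exact disjoint_left.1 k4 hw (by rwa [mem_preimage, h1])
    · have := mem_ball_zero_iff.1 (k5 hw)
      rw [mem_ball, dist_eq_norm, ← h1 w, ← h0, hn, sub_zero]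
      exact mul_lt_mul_of_pos_right this hh
    · obtain ⟨g, hg1, hg2⟩ := k6 (fun w => F (φ w))
        (hF.comp cφ.continuousOn fun w hw => by rwa [mem_preimage, h2])
        (fun w hw => hF0 _ (by rwa [mem_preimage, h2]))
      exact ⟨fun w => g (ψ w), hg1.comp cψ.continuousOn fun w hw => hw,
        fun w hw => by rw [hg2 _ hw, h1]⟩
    · have e1 : ρ = ρ / h * h := by field_simp
      refine k7 (ψ x) hx (ρ / h) ?_ (fun e he => ?_) ?_
      · rw [← h1 x, ← h0, hn, sub_zero] at hρ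
        exact le_of_mul_le_mul_right (by linarith) hh
      · have := hE _ he
        rw [← h1 x, hn] at this
        exact le_of_mul_le_mul_right (by linarith) hh
      · rw [mem_ball, dist_eq_norm, ← h1 w, ← h1 x, hn] at hw
        rw [mem_ball, dist_eq_norm]
        exact lt_of_mul_lt_mul_right (by linarith) hh.le

end Pool.Agent.P.MP_677d31_pr
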