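import Pool.Agent.P.MP_677d31_pr.Defs

set_option autoImplicit false

namespace Pool.Agent.P.MP_677d31_pr.Gr

open Set Metric Complex
open scoped Classical

/-! ### logarithms of quotients -/

theorem log_div_of {a b : ℂ} (ha : a ≠ 0) (hb : b ≠ 0) (hb' : arg b ≠ Real.pi)
    (h : arg a - arg b ∈ Ioc (-Real.pi) Real.pi) : log (a / b) = log a - log b := by
  have h1 : arg b⁻¹ = -arg b := by rw [arg_inv, if_neg hb']
  rw [div_eq_mul_inv, log_mul ha (inv_ne_zero hb) (by rw [h1]; simpa [sub_eq_add_neg] using h),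
    log_inv _ hb', sub_eq_add_neg]

theorem log_div_re {a b : ℂ} (ha : 0 < a.re) (hb : 0 < b.re) : log (a / b) = log a - log b := by
  have h1 := abs_lt.1 (abs_arg_lt_pi_div_two_iff.2 (Or.inl ha))
  have h2 := abs_lt.1 (abs_arg_lt_pi_div_two_iff.2 (Or.inl hb))
  have := Real.pi_pos
  refine log_div_of (fun h => by simp [h] at ha) (fun h => by simp [h] at hb) (by linarith [h2.2])
    ⟨by linarith [h1.1, h2.2], by linarith [h1.2, h2.1]⟩

theorem log_div_im {a b : ℂ} (ha : 0 < a.im) (hb : 0 < b.im) : log (a / b) = log a - log b := by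
  have h1 := arg_nonneg_iff.2 ha.le
  have h2 := arg_nonneg_iff.2 hb.le
  have h3 := arg_lt_pi_iff.2 (Or.inr ha.ne')
  have h4 := arg_lt_pi_iff.2 (Or.inr hb.ne')
  exact log_div_of (fun h => by simp [h] at ha) (fun h => by simp [h] at hb) h4.ne
    ⟨by linarith, by linarith⟩

theorem log_div_im' {a b : ℂ} (ha : a.im < 0) (hb : b.im < 0) :
    log (a / b) = log a - log b := by
  have h1 := arg_neg_iff.2 ha
  have h2 := arg_neg_iff.2 hb
  have h3 := neg_pi_lt_arg a
  have h4 := neg_pi_lt_arg b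
  have := Real.pi_pos
  exact log_div_of (fun h => by simp [h] at ha) (fun h => by simp [h] at hb) (by linarith)
    ⟨by linarith, by linarith⟩

theorem log_div_half {z a b : ℂ} (ha : 0 < (z * a).re) (hb : 0 < (z * b).re) :
    log (a / b) = log (z * a) - log (z * b) := by
  have hz : z ≠ 0 := fun h => by simp [h] at ha
  rw [← log_div_re ha hb, mul_div_mul_left _ _ hz]

theorem log_div_cross {a b : ℂ} (ha : 0 < a.re) (hb : 0 < b.re) (ha' : 0 < a.im)
    (hb' : b.im < 0) : log (a / b) = log (-a) - log (-b) + 2 * Real.pi * I := by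
  rw [log_div_re ha hb]
  have h1 : log (-a) = log a - Real.pi * I := by
    simp only [Complex.log, norm_neg, arg_neg_eq_arg_sub_pi_of_im_pos ha']; push_cast; ring
  have h2 : log (-b) = log b + Real.pi * I := by
    simp only [Complex.log, norm_neg, arg_neg_eq_arg_add_pi_of_im_neg hb']; push_cast; ring
  rw [h1, h2]; ring

/-! ### exact cochains -/

/-- the cochain `(ch, cv)` on horizontal and vertical edges is exact on `G` -/
def Ex (G : Set (ℤ × ℤ)) (ch cv : ℤ → ℤ → ℂ) : Prop :=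
  ∃ Θ : ℤ → ℤ → ℂ, (∀ a b, (a, b) ∈ G → (a + 1, b) ∈ G → Θ (a + 1) b - Θ a b = ch a b) ∧
    ∀ a b, (a, b) ∈ G → (a, b + 1) ∈ G → Θ a (b + 1) - Θ a b = cv a b

/-- the cut to the right of the face with lower left corner `(x, y)` -/
noncomputable def cut (x y : ℤ) (a b : ℤ) : ℂ := if b = y ∧ x < a then 1 else 0

def Full (G : Set (ℤ × ℤ)) (a b : ℤ) : Prop :=
  (a, b) ∈ G ∧ (a + 1, b) ∈ G ∧ (a, b + 1) ∈ G ∧ (a + 1, b + 1) ∈ G

def Touch (G : Set (ℤ × ℤ)) (a b : ℤ) : Prop :=
  (a, b) ∈ G ∨ (a + 1, b) ∈ G ∨ (a, b + 1) ∈ G ∨ (a + 1, b + 1) ∈ G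

theorem ex_of_curl {G : Set (ℤ × ℤ)} {L : ℕ} (hG : ∀ a b, (a, b) ∈ G → |a| ≤ L ∧ |b| ≤ L)
    {ch cv : ℤ → ℤ → ℂ}
    (hc : ∀ a b, Full G a b → ch a b + cv (a + 1) b = cv a b + ch a (b + 1))
    (hB : ∀ a b, Touch G a b → ¬ Full G a b → Ex G 0 (cut a b)) : Ex G ch cv := by
  set ch' : ℤ → ℤ → ℂ := fun a b => if (a, b) ∈ G ∧ (a + 1, b) ∈ G then ch a b else 0 with hch
  set cv' : ℤ → ℤ → ℂ := fun a b => if (a, b) ∈ G ∧ (a, b + 1) ∈ G then cv a b else 0 with hcv
  set k : ℤ → ℤ → ℂ := fun a b => ch' a b + cv' (a + 1) b - cv' a b - ch' a (b + 1) with hk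
  have hβ : ∀ x y, ∃ β : ℤ → ℤ → ℂ,
      (∀ a b, (a, b) ∈ G → (a + 1, b) ∈ G → β (a + 1) b - β a b = 0) ∧
      ∀ a b, (a, b) ∈ G → (a, b + 1) ∈ G → β a (b + 1) - β a b = k x y * cut x y a b := by
    intro x y
    by_cases hF : Full G x y
    · refine ⟨0, by simp, fun a b _ _ => ?_⟩
      have : k x y = 0 := by
        have := hc x y hF
        obtain ⟨h1, h2, h3, h4⟩ := hF
        simp only [hk, hch, hcv, h1, h2, h3, h4, and_self, if_true]
        linear_combination this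
      simp [this]
    by_cases hT : Touch G x y
    · obtain ⟨β, h1, h2⟩ := hB x y hT hF
      refine ⟨fun a b => k x y * β a b, fun a b ha hb => ?_, fun a b ha hb => ?_⟩
      · rw [← mul_sub, h1 a b ha hb]; simp
      · rw [← mul_sub, h2 a b ha hb]
    · refine ⟨0, by simp, fun a b _ _ => ?_⟩
      have : k x y = 0 := by
        simp only [Touch, not_or] at hT
        obtain ⟨h1, h2, h3, h4⟩ := hT
        simp [hk, hch, hcv, h1, h2, h3]
      simp [this]
  choose β hβ1 hβ2 using hβ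
  set T : ℕ → ℤ → ℂ := fun n b => ∑ i ∈ Finset.range n, ch' ((i : ℤ) - L - 1) b with hT
  have hTv : ∀ (n : ℕ) b, T n (b + 1) - T n b =
      cv' ((n : ℤ) - L - 1) b - ∑ i ∈ Finset.range n, k ((i : ℤ) - L - 1) b := by
    intro n b
    induction n with
    | zero =>
      have : ((0 : ℤ) - L - 1, b) ∉ G := fun h => by
        have := (abs_le.1 (hG _ _ h).1).1; omega
      simp only [hT, Finset.range_zero, Finset.sum_empty, sub_zero, hcv, Nat.cast_zero]
      rw [if_neg (fun h => this h.1)]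
    | succ n ih =>
      simp only [hT, Finset.sum_range_succ] at ih ⊢
      have e : ((n + 1 : ℕ) : ℤ) - L - 1 = (n : ℤ) - L - 1 + 1 := by push_cast; ring
      rw [e]
      simp only [hk] at ih ⊢
      linear_combination ih
  refine ⟨fun a b => T (a + L + 1).toNat b +
    ∑ i ∈ Finset.range (2 * L + 2), ∑ y ∈ Finset.Icc (-(L : ℤ)) L, β ((i : ℤ) - L - 1) y a b,
    fun a b ha hb => ?_, fun a b ha hb => ?_⟩
  · have h1 := abs_le.1 (hG _ _ ha).1
    have e : (a + 1 + L + 1).toNat = (a + L + 1).toNat + 1 := by omega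
    have e2 : (((a + L + 1).toNat : ℕ) : ℤ) - L - 1 = a := by omega
    have h2 : ∑ i ∈ Finset.range (2 * L + 2), ∑ y ∈ Finset.Icc (-(L : ℤ)) L,
        β ((i : ℤ) - L - 1) y (a + 1) b = ∑ i ∈ Finset.range (2 * L + 2),
        ∑ y ∈ Finset.Icc (-(L : ℤ)) L, β ((i : ℤ) - L - 1) y a b :=
      Finset.sum_congr rfl fun i _ => Finset.sum_congr rfl fun y _ =>
        sub_eq_zero.1 (hβ1 _ _ a b ha hb)
    beta_reduce
    rw [e, h2]
    simp only [hT, Finset.sum_range_succ, e2, hch, ha, hb, and_self, if_true]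
    ring
  · have h1 := abs_le.1 (hG _ _ ha).1
    have h1' := abs_le.1 (hG _ _ ha).2
    have e2 : (((a + L + 1).toNat : ℕ) : ℤ) - L - 1 = a := by omega
    have h2 : ∑ i ∈ Finset.range (2 * L + 2), ∑ y ∈ Finset.Icc (-(L : ℤ)) L,
        β ((i : ℤ) - L - 1) y a (b + 1) - ∑ i ∈ Finset.range (2 * L + 2),
        ∑ y ∈ Finset.Icc (-(L : ℤ)) L, β ((i : ℤ) - L - 1) y a b =
        ∑ i ∈ Finset.range (a + L + 1).toNat, k ((i : ℤ) - L - 1) b := by
      rw [← Finset.sum_sub_distrib]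
      have h3 : ∀ i : ℕ, ∑ y ∈ Finset.Icc (-(L : ℤ)) L, β ((i : ℤ) - L - 1) y a (b + 1) -
          ∑ y ∈ Finset.Icc (-(L : ℤ)) L, β ((i : ℤ) - L - 1) y a b =
          if i < (a + L + 1).toNat then k ((i : ℤ) - L - 1) b else 0 := by
        intro i
        rw [← Finset.sum_sub_distrib, Finset.sum_eq_single b]
        · rw [hβ2 _ _ a b ha hb, cut]
          by_cases hi : i < (a + L + 1).toNat
          · rw [if_pos hi, if_pos ⟨rfl, by omega⟩, mul_one]
          · rw [if_neg hi, if_neg (fun h => hi (by omega)), mul_zero]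
        · intro y _ hy
          rw [hβ2 _ _ a b ha hb, cut, if_neg (fun h => hy h.1.symm), mul_zero]
        · intro h; exact absurd (Finset.mem_Icc.2 h1') h
      simp only [h3]
      rw [← Finset.sum_filter]
      refine Finset.sum_congr ?_ fun _ _ => rfl
      ext i
      simp only [Finset.mem_filter, Finset.mem_range]
      omega
    have h4 := hTv (a + L + 1).toNat b
    rw [e2] at h4
    have h5 : cv' a b = cv a b := by simp only [hcv, ha, hb, and_self, if_true]
    beta_reduce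
    linear_combination h4 + h2 + h5

/-- faces outside the box -/
theorem ex_cut_out {G : Set (ℤ × ℤ)} {L : ℕ} (hG : ∀ a b, (a, b) ∈ G → |a| ≤ L ∧ |b| ≤ L)
    {x y : ℤ} (h : (L : ℤ) ≤ x ∨ x < -L ∨ (L : ℤ) ≤ y ∨ y < -L) : Ex G 0 (cut x y) := by
  by_cases hx : x < -L
  · refine ⟨fun _ b => if y < b then 1 else 0, fun a b _ _ => by simp, fun a b ha _ => ?_⟩
    have h1 := abs_le.1 (hG _ _ ha).1
    beta_reduce
    rw [cut]
    by_cases hb : b = y
    · rw [if_pos (by omega), if_neg (by omega), if_pos ⟨hb, by omega⟩, sub_zero]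
    · rw [if_neg (fun h : b = y ∧ x < a => hb h.1)]
      by_cases hb' : y < b
      · rw [if_pos (by omega), if_pos hb', sub_self]
      · rw [if_neg (by omega), if_neg hb', sub_self]
  · refine ⟨0, fun a b _ _ => by simp, fun a b ha hb => ?_⟩
    have h1 := abs_le.1 (hG _ _ ha).1
    have h2 := abs_le.1 (hG _ _ ha).2
    have h3 := abs_le.1 (hG _ _ hb).2
    rw [cut, if_neg (by omega)]; simp

end Pool.Agent.P.MP_677d31_pr.Gr
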