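import Pool.Agent.P.MP_677d31_pr.Grid1

set_option autoImplicit false

namespace Pool.Agent.P.MP_677d31_pr.Gr

open Set Metric Complex
open scoped Classical

/-! ### sums along walks -/

section walks
variable {V : Type} {H : SimpleGraph V}

noncomputable def ws (A : V → V → ℂ) {u v : V} (p : H.Walk u v) : ℂ :=
  ∑ i ∈ Finset.range p.length, A (p.getVert i) (p.getVert (i + 1))

theorem ws_nil (A : V → V → ℂ) (u : V) : ws A (SimpleGraph.Walk.nil : H.Walk u u) = 0 := by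
  simp [ws]

theorem ws_cons (A : V → V → ℂ) {u v w : V} (h : H.Adj u v) (p : H.Walk v w) :
    ws A (SimpleGraph.Walk.cons h p) = A u v + ws A p := by
  rw [ws, SimpleGraph.Walk.length_cons, Finset.sum_range_succ', add_comm]
  simp [ws]

theorem ws_append (A : V → V → ℂ) {u v w : V} (p : H.Walk u v) (q : H.Walk v w) :
    ws A (p.append q) = ws A p + ws A q := by
  induction p with
  | nil => simp [ws_nil]
  | cons h p ih => rw [SimpleGraph.Walk.cons_append, ws_cons, ws_cons, ih, add_assoc]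

theorem ws_reverse {A : V → V → ℂ} (hA : ∀ u v, H.Adj u v → A v u = -A u v) {u v : V}
    (p : H.Walk u v) : ws A p.reverse = -ws A p := by
  induction p with
  | nil => simp [ws_nil]
  | cons h p ih =>
    rw [SimpleGraph.Walk.reverse_cons, ws_append, ws_cons, ws_cons, ih, ws_nil, hA _ _ h]; ring

theorem mem_of_walk {S : Set V} (hS : ∀ u v, H.Adj u v → v ∈ S) {u v : V} (p : H.Walk u v)
    (hu : u ∈ S) : ∀ w ∈ p.support, w ∈ S := by
  induction p with
  | nil => simpa using hu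
  | cons h p ih =>
    intro w hw
    rw [SimpleGraph.Walk.support_cons, List.mem_cons] at hw
    rcases hw with rfl | hw
    · exact hu
    · exact ih (hS _ _ h) w hw

theorem walk_dichotomy {A : V → V → ℂ} (hA : ∀ u v, H.Adj u v → A v u = -A u v) {o : V}
    {S : Finset V} (ho : o ∈ S) (hS : ∀ u v, H.Adj u v → v ∈ S) :
    (∃ W : H.Walk o o, W.length ≤ 2 * S.card + 1 ∧ ws A W ≠ 0) ∨
      ∃ Θ : V → ℂ, ∀ u v, H.Reachable o u → H.Adj u v → Θ v - Θ u = A u v := by
  have hP : ∀ v, H.Reachable o v → ∃ p : H.Walk o v, p.length ≤ S.card := by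
    intro v hv
    obtain ⟨p, hp⟩ := hv.exists_isPath
    refine ⟨p, ?_⟩
    have h1 : p.support.toFinset ⊆ S := fun w hw =>
      mem_of_walk (S := (S : Set V)) hS p ho w (List.mem_toFinset.1 hw)
    have h2 := Finset.card_le_card h1
    rw [List.toFinset_card_of_nodup hp.support_nodup, SimpleGraph.Walk.length_support] at h2
    omega
  choose P hP using hP
  by_contra hcon
  push Not at hcon
  obtain ⟨h1, h2⟩ := hcon
  obtain ⟨u, v, hu, huv, h3⟩ := h2 fun v => if h : H.Reachable o v then ws A (P v h) else 0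
  have hv : H.Reachable o v := hu.trans huv.reachable
  have h4 := h1 ((P u hu).append (SimpleGraph.Walk.cons huv (P v hv).reverse)) (by
    have := hP u hu
    have := hP v hv
    simp only [SimpleGraph.Walk.length_append, SimpleGraph.Walk.length_cons,
      SimpleGraph.Walk.length_reverse]
    omega)
  rw [ws_append, ws_cons, ws_reverse hA] at h4
  apply h3
  rw [dif_pos hu, dif_pos hv]
  linear_combination -h4

end walks

/-! ### the grid -/

def pt (a b : ℤ) : ℂ := ⟨a, b⟩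

@[simp] theorem pt_re (a b : ℤ) : (pt a b).re = a := rfl
@[simp] theorem pt_im (a b : ℤ) : (pt a b).im = b := rfl

def Far (e : ℂ) (a b : ℤ) : Prop := 20 ≤ |(a : ℝ) - e.re| ∨ 20 ≤ |(b : ℝ) - e.im|

noncomputable def Ah (e : ℂ) (a b : ℤ) : ℂ := log ((pt (a + 1) b - e) / (pt a b - e))
noncomputable def Av (e : ℂ) (a b : ℤ) : ℂ := log ((pt a (b + 1) - e) / (pt a b - e))

theorem side {s : ℝ} {u x a : ℤ} (hu : u = x ∨ u = x + 1) (h1 : |(u : ℝ) - s| < 20)
    (h2 : 20 ≤ |(a : ℝ) - s|) :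
    ((x : ℝ) + 1 ≤ a ∧ s + 20 ≤ a) ∨ ((a : ℝ) ≤ x ∧ (a : ℝ) + 20 ≤ s) := by
  obtain ⟨h3, h4⟩ := abs_lt.1 h1
  rcases le_abs.1 h2 with h | h
  · have h5 : u < a := by exact_mod_cast (show (u : ℝ) < a by linarith)
    have h6 : x + 1 ≤ a := by omega
    exact Or.inl ⟨by exact_mod_cast h6, by linarith⟩
  · have h5 : a < u := by exact_mod_cast (show (a : ℝ) < u by linarith)
    have h6 : a ≤ x := by omega
    exact Or.inr ⟨by exact_mod_cast h6, by linarith⟩

theorem cmp {p q c e z : ℂ} (h1 : 0 < (z * (p - c)).re) (h2 : 0 < (z * (q - c)).re)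
    (h3 : 0 < (z * (p - e)).re) (h4 : 0 < (z * (q - e)).re) :
    log ((q - e) / (p - e)) + log ((q - c) / (q - e)) - log ((p - c) / (p - e)) =
      log ((q - c) / (p - c)) := by
  rw [log_div_half h4 h3, log_div_half h2 h4, log_div_half h1 h3, log_div_half h2 h1]; ring

theorem ex_cut_near {G : Set (ℤ × ℤ)} {e : ℂ} (hG : ∀ a b, (a, b) ∈ G → Far e a b)
    (hE : Ex G (Ah e) (Av e)) {x y u v : ℤ} (hu : u = x ∨ u = x + 1) (hv : v = y ∨ v = y + 1)
    (hn : ¬ Far e u v) : Ex G 0 (cut x y) := by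
  obtain ⟨Θ, h1, h2⟩ := hE
  simp only [Far, not_or, not_le] at hn
  obtain ⟨hn1, hn2⟩ := hn
  set c : ℂ := ⟨x + 1 / 2, y + 1 / 2⟩ with hc
  have hcr : c.re = x + 1 / 2 := rfl
  have hci : c.im = y + 1 / 2 := rfl
  have hpi : (2 * Real.pi * I : ℂ) ≠ 0 := two_pi_I_ne_zero
  refine ⟨fun a b => (Θ a b + log ((pt a b - c) / (pt a b - e)) - log (-(pt a b - c))) /
    (2 * Real.pi * I), fun a b ha hb => ?_, fun a b ha hb => ?_⟩
  · have key : ∃ z : ℂ, 0 < (z * (pt a b - c)).re ∧ 0 < (z * (pt (a + 1) b - c)).re ∧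
        0 < (z * (pt a b - e)).re ∧ 0 < (z * (pt (a + 1) b - e)).re := by
      by_cases hb' : 20 ≤ |(b : ℝ) - e.im|
      · rcases side hv hn2 hb' with h | h
        · refine ⟨-I, ?_, ?_, ?_, ?_⟩ <;> simp [hci] <;> linarith [h.1, h.2]
        · refine ⟨I, ?_, ?_, ?_, ?_⟩ <;> simp [hci] <;> linarith [h.1, h.2]
      · have h3 := (hG _ _ ha).resolve_right hb'
        have h4 := (hG _ _ hb).resolve_right hb'
        rcases side hu hn1 h3 with h | h <;> rcases side hu hn1 h4 with h' | h' <;>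
          push_cast at h'
        · refine ⟨1, ?_, ?_, ?_, ?_⟩ <;> simp [hcr] <;> linarith [h.1, h.2]
        · linarith [h.2, h'.2]
        · linarith [h.2, h'.2]
        · refine ⟨-1, ?_, ?_, ?_, ?_⟩ <;> simp [hcr] <;> linarith [h.1, h.2, h'.1, h'.2]
    obtain ⟨z, k1, k2, k3, k4⟩ := key
    have k5 := cmp k1 k2 k3 k4
    have k6 : log ((pt (a + 1) b - c) / (pt a b - c)) =
        log (-(pt (a + 1) b - c)) - log (-(pt a b - c)) := by
      rw [← neg_div_neg_eq]
      rcases le_or_gt b y with h | h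
      · have : (b : ℝ) ≤ y := by exact_mod_cast h
        apply log_div_im <;> simp [hci] <;> linarith
      · have : (y : ℝ) + 1 ≤ b := by exact_mod_cast h
        apply log_div_im' <;> simp [hci] <;> linarith
    have k7 := h1 a b ha hb
    rw [Ah] at k7
    simp only [Pi.zero_apply]
    rw [← sub_div, div_eq_zero_iff]
    left
    linear_combination k5 + k6 + k7
  · have key : ∃ z : ℂ, 0 < (z * (pt a b - c)).re ∧ 0 < (z * (pt a (b + 1) - c)).re ∧
        0 < (z * (pt a b - e)).re ∧ 0 < (z * (pt a (b + 1) - e)).re := by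
      by_cases ha' : 20 ≤ |(a : ℝ) - e.re|
      · rcases side hu hn1 ha' with h | h
        · refine ⟨1, ?_, ?_, ?_, ?_⟩ <;> simp [hcr] <;> linarith [h.1, h.2]
        · refine ⟨-1, ?_, ?_, ?_, ?_⟩ <;> simp [hcr] <;> linarith [h.1, h.2]
      · have h3 := (hG _ _ ha).resolve_left ha'
        have h4 := (hG _ _ hb).resolve_left ha'
        rcases side hv hn2 h3 with h | h <;> rcases side hv hn2 h4 with h' | h' <;>
          push_cast at h'
        · refine ⟨-I, ?_, ?_, ?_, ?_⟩ <;> simp [hci] <;> linarith [h.1, h.2]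
        · linarith [h.2, h'.2]
        · linarith [h.2, h'.2]
        · refine ⟨I, ?_, ?_, ?_, ?_⟩ <;> simp [hci] <;> linarith [h.1, h.2, h'.1, h'.2]
    obtain ⟨z, k1, k2, k3, k4⟩ := key
    have k5 := cmp k1 k2 k3 k4
    have k6 : log ((pt a (b + 1) - c) / (pt a b - c)) =
        log (-(pt a (b + 1) - c)) - log (-(pt a b - c)) + 2 * Real.pi * I * cut x y a b := by
      rw [cut]
      rcases lt_trichotomy b y with h | h | h
      · have : (b : ℝ) + 1 ≤ y := by exact_mod_cast h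
        rw [if_neg (by omega), mul_zero, add_zero, ← neg_div_neg_eq]
        apply log_div_im <;> simp [hci] <;> linarith
      · have h' : (b : ℝ) = y := by exact_mod_cast h
        rcases le_or_gt a x with h3 | h3
        · have : (a : ℝ) ≤ x := by exact_mod_cast h3
          rw [if_neg (by omega), mul_zero, add_zero, ← neg_div_neg_eq]
          apply log_div_re <;> simp [hcr] <;> linarith
        · have : (x : ℝ) + 1 ≤ a := by exact_mod_cast h3
          rw [if_pos ⟨h, h3⟩, mul_one]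
          apply log_div_cross <;> simp [hcr, hci] <;> linarith
      · have : (y : ℝ) + 1 ≤ b := by exact_mod_cast h
        rw [if_neg (by omega), mul_zero, add_zero, ← neg_div_neg_eq]
        apply log_div_im' <;> simp [hci] <;> linarith
    have k7 := h2 a b ha hb
    rw [Av] at k7
    beta_reduce
    rw [← sub_div, div_eq_iff hpi]
    linear_combination k5 + k6 + k7

def Free (E : Set ℂ) (L : ℕ) (v : ℤ × ℤ) : Prop :=
  |v.1| ≤ L ∧ |v.2| ≤ L ∧ ∀ e ∈ E, Far e v.1 v.2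

def gr (E : Set ℂ) (L : ℕ) : SimpleGraph (ℤ × ℤ) where
  Adj u v := Free E L u ∧ Free E L v ∧ |u.1 - v.1| + |u.2 - v.2| = 1
  symm := ⟨fun u v h => ⟨h.2.1, h.1, by rw [abs_sub_comm v.1, abs_sub_comm v.2]; exact h.2.2⟩⟩
  loopless := ⟨fun u h => by simpa using h.2.2⟩

def GG (E : Set ℂ) (L : ℕ) : Set (ℤ × ℤ) := {v | (gr E L).Reachable 0 v}

variable {E : Set ℂ} {L : ℕ}

theorem free_of_mem (h0 : Free E L 0) {v : ℤ × ℤ} (hv : v ∈ GG E L) : Free E L v := by
  obtain ⟨p⟩ := hv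
  exact mem_of_walk (H := gr E L) (S := {v | Free E L v}) (fun u v h => h.2.1) p h0 v p.end_mem_support

theorem mem_of_adj (h0 : Free E L 0) {u v : ℤ × ℤ} (hu : u ∈ GG E L) (hv : Free E L v)
    (h : |u.1 - v.1| + |u.2 - v.2| = 1) : v ∈ GG E L :=
  SimpleGraph.Reachable.trans hu (SimpleGraph.Adj.reachable ⟨free_of_mem h0 hu, hv, h⟩)

theorem full_of_free (h0 : Free E L 0) {a b : ℤ} (hT : Touch (GG E L) a b)
    (h1 : Free E L (a, b)) (h2 : Free E L (a + 1, b)) (h3 : Free E L (a, b + 1))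
    (h4 : Free E L (a + 1, b + 1)) : Full (GG E L) a b := by
  have key : (a, b) ∈ GG E L := by
    rcases hT with h | h | h | h
    · exact h
    · exact mem_of_adj h0 h h1 (by simp)
    · exact mem_of_adj h0 h h1 (by simp)
    · exact mem_of_adj h0 (mem_of_adj h0 h h2 (by simp)) h1 (by simp)
  have k2 := mem_of_adj h0 key h2 (by simp)
  exact ⟨key, k2, mem_of_adj h0 key h3 (by simp), mem_of_adj h0 k2 h4 (by simp)⟩

theorem ex_all (h0 : Free E L 0) (hE : ∀ e ∈ E, Ex (GG E L) (Ah e) (Av e)) {ch cv : ℤ → ℤ → ℂ}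
    (hc : ∀ a b, Full (GG E L) a b → ch a b + cv (a + 1) b = cv a b + ch a (b + 1)) :
    Ex (GG E L) ch cv := by
  have hG : ∀ a b, (a, b) ∈ GG E L → |a| ≤ L ∧ |b| ≤ L := fun a b h =>
    ⟨(free_of_mem h0 h).1, (free_of_mem h0 h).2.1⟩
  refine ex_of_curl hG hc fun x y hT hF => ?_
  have : ∃ u v, (u = x ∨ u = x + 1) ∧ (v = y ∨ v = y + 1) ∧ ¬ Free E L (u, v) := by
    by_contra hcon
    push Not at hcon
    exact hF (full_of_free h0 hT (hcon _ _ (Or.inl rfl) (Or.inl rfl))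
      (hcon _ _ (Or.inr rfl) (Or.inl rfl)) (hcon _ _ (Or.inl rfl) (Or.inr rfl))
      (hcon _ _ (Or.inr rfl) (Or.inr rfl)))
  obtain ⟨u, v, hu, hv, hn⟩ := this
  by_cases hb : |u| ≤ L ∧ |v| ≤ L
  · have : ∃ e ∈ E, ¬ Far e u v := by
      by_contra hcon
      push Not at hcon
      exact hn ⟨hb.1, hb.2, hcon⟩
    obtain ⟨e, he, hn'⟩ := this
    exact ex_cut_near (fun a b h => (free_of_mem h0 h).2.2 e he) (hE e he) hu hv hn'
  · refine ex_cut_out hG ?_
    simp only [abs_le] at hb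
    omega

theorem anti {e : ℂ} (he : e ∈ E) (u v : ℤ × ℤ) (h : (gr E L).Adj u v) :
    log ((pt u.1 u.2 - e) / (pt v.1 v.2 - e)) = -log ((pt v.1 v.2 - e) / (pt u.1 u.2 - e)) := by
  obtain ⟨hu, -, h⟩ := h
  have h1 : |(u.1 : ℝ) - v.1| ≤ 1 := by
    have := abs_nonneg (u.2 - v.2)
    exact_mod_cast (show |u.1 - v.1| ≤ 1 by omega)
  have h2 : |(u.2 : ℝ) - v.2| ≤ 1 := by
    have := abs_nonneg (u.1 - v.1)
    exact_mod_cast (show |u.2 - v.2| ≤ 1 by omega)
  rw [abs_le] at h1 h2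
  have key : ∃ z : ℂ, 0 < (z * (pt u.1 u.2 - e)).re ∧ 0 < (z * (pt v.1 v.2 - e)).re := by
    rcases hu.2.2 e he with h | h <;> rcases le_abs.1 h with h | h
    · refine ⟨1, ?_, ?_⟩ <;> simp <;> linarith [h1.1, h1.2]
    · refine ⟨-1, ?_, ?_⟩ <;> simp <;> linarith [h1.1, h1.2]
    · refine ⟨-I, ?_, ?_⟩ <;> simp <;> linarith [h2.1, h2.2]
    · refine ⟨I, ?_, ?_⟩ <;> simp <;> linarith [h2.1, h2.2]
  obtain ⟨z, k1, k2⟩ := key
  rw [log_div_half k1 k2, log_div_half k2 k1]; ring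

theorem norm_pt_le (a b : ℤ) : ‖pt a b‖ ≤ |(a : ℝ)| + |(b : ℝ)| := norm_le_abs_re_add_abs_im _

theorem discrete_dichotomy (h0 : Free E L 0) :
    (∃ e ∈ E, ∃ (c : ℕ → ℂ) (n : ℕ), n ≤ 2 * (2 * L + 1) ^ 2 + 1 ∧ c 0 = 0 ∧ c n = 0 ∧
      (∀ i < n, ‖c (i + 1) - c i‖ ≤ 1) ∧
      (∀ i ≤ n, ‖c i‖ ≤ 2 * L ∧ ∀ e' ∈ E, 20 ≤ ‖c i - e'‖) ∧ wsum e c n ≠ 0) ∨
    ∀ e ∈ E, Ex (GG E L) (Ah e) (Av e) := by
  rw [or_iff_not_imp_right]
  intro hcon
  push Not at hcon
  obtain ⟨e, he, hcon⟩ := hcon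
  have hS : ∀ v, Free E L v → v ∈ Finset.Icc (-(L : ℤ)) L ×ˢ Finset.Icc (-(L : ℤ)) L :=
    fun v hv => Finset.mem_product.2
      ⟨Finset.mem_Icc.2 (abs_le.1 hv.1), Finset.mem_Icc.2 (abs_le.1 hv.2.1)⟩
  rcases walk_dichotomy (H := gr E L) (A := fun u v => log ((pt v.1 v.2 - e) / (pt u.1 u.2 - e)))
    (anti he) (hS 0 h0) (fun u v h => hS v h.2.1) with ⟨W, hW, hW'⟩ | ⟨Θ, hΘ⟩
  · refine ⟨e, he, fun i => pt (W.getVert i).1 (W.getVert i).2, W.length, ?_, ?_, ?_,
      fun i hi => ?_, fun i _ => ?_, hW'⟩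
    · rw [Finset.card_product, Int.card_Icc] at hW
      have : ((L : ℤ) + 1 - -(L : ℤ)).toNat = 2 * L + 1 := by omega
      rw [this] at hW
      rw [sq]; exact hW
    · simp [pt]; rfl
    · simp [pt]; rfl
    · have h := (W.adj_getVert_succ hi).2.2
      refine (norm_le_abs_re_add_abs_im _).trans ?_
      simp only [sub_re, sub_im, pt_re, pt_im]
      rw [abs_sub_comm, abs_sub_comm ((W.getVert (i + 1)).2 : ℝ)]
      exact_mod_cast h.le
    · have hf : Free E L (W.getVert i) := mem_of_walk (H := gr E L) (S := {v | Free E L v})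
        (fun u v h => h.2.1) W h0 _ (W.getVert_mem_support i)
      refine ⟨(norm_pt_le _ _).trans ?_, fun e' he' => ?_⟩
      · have h1 : |((W.getVert i).1 : ℝ)| ≤ L := by exact_mod_cast hf.1
        have h2 : |((W.getVert i).2 : ℝ)| ≤ L := by exact_mod_cast hf.2.1
        linarith
      · rcases hf.2.2 e' he' with h | h
        · exact h.trans (by simpa using abs_re_le_norm (pt (W.getVert i).1 (W.getVert i).2 - e'))
        · exact h.trans (by simpa using abs_im_le_norm (pt (W.getVert i).1 (W.getVert i).2 - e'))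
  · refine absurd ⟨fun a b => Θ (a, b), fun a b ha hb => ?_, fun a b ha hb => ?_⟩ hcon
    · exact hΘ (a, b) (a + 1, b) ha ⟨free_of_mem h0 ha, free_of_mem h0 hb, by simp⟩
    · exact hΘ (a, b) (a, b + 1) ha ⟨free_of_mem h0 ha, free_of_mem h0 hb, by simp⟩

end Pool.Agent.P.MP_677d31_pr.Gr
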