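import Pool.Agent.P.MP_677d31_pr.Grid2

set_option autoImplicit false

namespace Pool.Agent.P.MP_677d31_pr.Gr

open Set Metric Complex
open scoped Classical

def Dm (a b : ℤ) : Set ℂ := {w | |w.re - a| + |w.im - b| < 1}
def Fc (a b : ℤ) : Set ℂ := {w | w.re ∈ Ioo (a : ℝ) (a + 1) ∧ w.im ∈ Ioo (b : ℝ) (b + 1)}

theorem convex_Dm (a b : ℤ) : Convex ℝ (Dm a b) := by
  intro x hx y hy s t hs ht hst
  have h := convex_Iio (1 : ℝ) hx hy hs ht hst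
  simp only [smul_eq_mul, mem_Iio] at h
  refine lt_of_le_of_lt ?_ h
  have e1 : (s • x + t • y).re - a = s * (x.re - a) + t * (y.re - a) := by
    simp; linear_combination (a : ℝ) * hst
  have e2 : (s • x + t • y).im - b = s * (x.im - b) + t * (y.im - b) := by
    simp; linear_combination (b : ℝ) * hst
  have h1 := abs_add_le (s * (x.re - a)) (t * (y.re - a))
  have h2 := abs_add_le (s * (x.im - b)) (t * (y.im - b))
  rw [abs_mul, abs_mul, abs_of_nonneg hs, abs_of_nonneg ht] at h1 h2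
  rw [e1, e2]
  linarith

theorem convex_Fc (a b : ℤ) : Convex ℝ (Fc a b) := fun x hx y hy s t hs ht hst =>
  ⟨by simpa using convex_Ioo _ _ hx.1 hy.1 hs ht hst,
    by simpa using convex_Ioo _ _ hx.2 hy.2 hs ht hst⟩

theorem isOpen_Dm (a b : ℤ) : IsOpen (Dm a b) := isOpen_lt (by fun_prop) continuous_const

theorem isOpen_Fc (a b : ℤ) : IsOpen (Fc a b) :=
  (isOpen_Ioo.preimage continuous_re).inter (isOpen_Ioo.preimage continuous_im)

theorem pt_mem (a b : ℤ) : pt a b ∈ Dm a b := by simp [Dm]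

def UU : (ℤ × ℤ) ⊕ (ℤ × ℤ) → Set ℂ
  | .inl v => Dm v.1 v.2
  | .inr v => Fc v.1 v.2

def JJ (G : Set (ℤ × ℤ)) : (ℤ × ℤ) ⊕ (ℤ × ℤ) → Prop
  | .inl v => v ∈ G
  | .inr v => Full G v.1 v.2

def Om (G : Set (ℤ × ℤ)) : Set ℂ := {w | ∃ i, JJ G i ∧ w ∈ UU i}

theorem convex_UU : ∀ i, Convex ℝ (UU i)
  | .inl _ => convex_Dm _ _
  | .inr _ => convex_Fc _ _

theorem isOpen_UU : ∀ i, IsOpen (UU i)
  | .inl _ => isOpen_Dm _ _
  | .inr _ => isOpen_Fc _ _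

theorem nonempty_UU : ∀ i, (UU i).Nonempty
  | .inl v => ⟨_, pt_mem _ _⟩
  | .inr v => ⟨⟨v.1 + 1 / 2, v.2 + 1 / 2⟩, by
      refine ⟨⟨?_, ?_⟩, ?_, ?_⟩ <;> simp only <;> linarith⟩

theorem isOpen_Om (G : Set (ℤ × ℤ)) : IsOpen (Om G) :=
  isOpen_iff_forall_mem_open.2 fun _ ⟨i, hi, hw⟩ =>
    ⟨UU i, fun _ h => ⟨i, hi, h⟩, isOpen_UU i, hw⟩

theorem mem_tri {a b a' b' x y : ℤ} {r s : ℝ} (h1 : |x + r - a| + |y + s - b| < 1)
    (h2 : |x + r - a'| + |y + s - b'| < 1) (hr : 0 < r ∧ r < 1) (hs : 0 < s ∧ s < 1) :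
    ∃ w, w ∈ UU (.inl (a, b)) ∧ w ∈ UU (.inl (a', b')) ∧ w ∈ UU (.inr (x, y)) := by
  refine ⟨⟨x + r, y + s⟩, h1, h2, ⟨?_, ?_⟩, ?_, ?_⟩ <;> simp only <;>
    linarith [hr.1, hr.2, hs.1, hs.2]

theorem triS (a b : ℤ) :
    ∃ w, w ∈ UU (.inl (a, b)) ∧ w ∈ UU (.inl (a + 1, b)) ∧ w ∈ UU (.inr (a, b)) :=
  mem_tri (r := 1 / 2) (s := 1 / 4) (by norm_num [abs_of_pos])
    (by push_cast; ring_nf; norm_num [abs_of_pos]) (by norm_num) (by norm_num)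

theorem triN (a b : ℤ) :
    ∃ w, w ∈ UU (.inl (a, b + 1)) ∧ w ∈ UU (.inl (a + 1, b + 1)) ∧ w ∈ UU (.inr (a, b)) :=
  mem_tri (r := 1 / 2) (s := 3 / 4) (by push_cast; ring_nf; norm_num [abs_of_pos])
    (by push_cast; ring_nf; norm_num [abs_of_pos]) (by norm_num) (by norm_num)

theorem triW (a b : ℤ) :
    ∃ w, w ∈ UU (.inl (a, b)) ∧ w ∈ UU (.inl (a, b + 1)) ∧ w ∈ UU (.inr (a, b)) :=
  mem_tri (r := 1 / 4) (s := 1 / 2) (by norm_num [abs_of_pos])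
    (by push_cast; ring_nf; norm_num [abs_of_pos]) (by norm_num) (by norm_num)

theorem triE (a b : ℤ) :
    ∃ w, w ∈ UU (.inl (a + 1, b)) ∧ w ∈ UU (.inl (a + 1, b + 1)) ∧ w ∈ UU (.inr (a, b)) :=
  mem_tri (r := 3 / 4) (s := 1 / 2) (by push_cast; ring_nf; norm_num [abs_of_pos])
    (by push_cast; ring_nf; norm_num [abs_of_pos]) (by norm_num) (by norm_num)

variable {E : Set ℂ} {L : ℕ}

theorem adj_cases {a b a' b' : ℤ} (h : |a - a'| + |b - b'| = 1) :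
    (a' = a + 1 ∧ b' = b) ∨ (a = a' + 1 ∧ b = b') ∨ (a' = a ∧ b' = b + 1) ∨
      (a = a' ∧ b = b' + 1) := by
  rcases abs_cases (a - a') with h1 | h1 <;> rcases abs_cases (b - b') with h2 | h2 <;> omega

theorem GG_ind {P : ℤ → ℤ → Prop} (h0 : P 0 0)
    (h1 : ∀ a b, (a, b) ∈ GG E L → (a + 1, b) ∈ GG E L → (P a b ↔ P (a + 1) b))
    (h2 : ∀ a b, (a, b) ∈ GG E L → (a, b + 1) ∈ GG E L → (P a b ↔ P a (b + 1)))
    {v : ℤ × ℤ} (hv : v ∈ GG E L) : P v.1 v.2 := by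
  have h := (SimpleGraph.reachable_iff_reflTransGen _ _).1 hv
  induction h with
  | refl => exact h0
  | @tail u w hu huw ih =>
    have hu' : u ∈ GG E L := (SimpleGraph.reachable_iff_reflTransGen _ _).2 hu
    have ih' := ih hu'
    obtain ⟨a, b⟩ := u
    obtain ⟨a', b'⟩ := w
    rcases adj_cases huw.2.2 with ⟨h3, h4⟩ | ⟨h3, h4⟩ | ⟨h3, h4⟩ | ⟨h3, h4⟩ <;>
      simp only at h3 h4 <;> subst h3 h4
    · exact (h1 _ _ hu' hv).1 ih'
    · exact (h1 _ _ hv hu').2 ih'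
    · exact (h2 _ _ hu' hv).1 ih'
    · exact (h2 _ _ hv hu').2 ih'

theorem zero_mem_GG : (0 : ℤ × ℤ) ∈ GG E L := SimpleGraph.Reachable.refl _

theorem zero_mem_Om : (0 : ℂ) ∈ Om (GG E L) := ⟨.inl 0, zero_mem_GG, by simp [UU, Dm]⟩

theorem preconn_Om : IsPreconnected (Om (GG E L)) := by
  have step : ∀ i j, JJ (GG E L) j → (UU i ∩ UU j).Nonempty →
      (∃ t, t ⊆ Om (GG E L) ∧ 0 ∈ t ∧ UU i ⊆ t ∧ IsPreconnected t) →
      ∃ t, t ⊆ Om (GG E L) ∧ 0 ∈ t ∧ UU j ⊆ t ∧ IsPreconnected t := by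
    rintro i j hj ⟨w, hw1, hw2⟩ ⟨t, h1, h2, h3, h4⟩
    exact ⟨t ∪ UU j, union_subset h1 fun _ h => ⟨j, hj, h⟩, Or.inl h2, subset_union_right,
      h4.union w (h3 hw1) hw2 (convex_UU j).isPreconnected⟩
  have key : ∀ v ∈ GG E L,
      ∃ t, t ⊆ Om (GG E L) ∧ 0 ∈ t ∧ UU (.inl (v.1, v.2)) ⊆ t ∧ IsPreconnected t := by
    intro v hv
    refine GG_ind (P := fun a b =>
      ∃ t, t ⊆ Om (GG E L) ∧ 0 ∈ t ∧ UU (.inl (a, b)) ⊆ t ∧ IsPreconnected t) ?_ ?_ ?_ hv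
    · exact ⟨UU (.inl 0), fun _ h => ⟨.inl 0, zero_mem_GG, h⟩, by simp [UU, Dm], subset_rfl,
        (convex_UU _).isPreconnected⟩
    · intro a b ha hb
      obtain ⟨w, h1, h2, -⟩ := triS a b
      exact ⟨step _ _ hb ⟨w, h1, h2⟩, step _ _ ha ⟨w, h2, h1⟩⟩
    · intro a b ha hb
      obtain ⟨w, h1, h2, -⟩ := triW a b
      exact ⟨step _ _ hb ⟨w, h1, h2⟩, step _ _ ha ⟨w, h2, h1⟩⟩
  refine isPreconnected_of_forall 0 ?_
  rintro w ⟨i | i, hi, hw⟩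
  · obtain ⟨t, h1, h2, h3, h4⟩ := key i hi
    exact ⟨t, h1, h2, h3 hw, h4⟩
  · obtain ⟨w', k1, -, k3⟩ := triS i.1 i.2
    obtain ⟨t, h1, h2, h3, h4⟩ := step _ (.inr i) hi ⟨w', k1, k3⟩ (key (i.1, i.2) hi.1)
    exact ⟨t, h1, h2, h3 hw, h4⟩

theorem glue {ι : Type} {J : ι → Prop} {U : ι → Set ℂ} (hU : ∀ i, IsOpen (U i)) {l : ι → ℂ → ℂ}
    (hl : ∀ i, J i → ContinuousOn (l i) (U i))
    (h : ∀ i j, J i → J j → ∀ w ∈ U i, w ∈ U j → l i w = l j w) :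
    ∃ g : ℂ → ℂ, ContinuousOn g {w | ∃ i, J i ∧ w ∈ U i} ∧ ∀ i, J i → ∀ w ∈ U i, g w = l i w := by
  set g : ℂ → ℂ := fun w => if h : ∃ i, J i ∧ w ∈ U i then l h.choose w else 0 with hg
  have key : ∀ i, J i → ∀ w ∈ U i, g w = l i w := by
    intro i hi w hw
    have h1 : ∃ i, J i ∧ w ∈ U i := ⟨i, hi, hw⟩
    simp only [hg, dif_pos h1]
    exact h _ _ h1.choose_spec.1 hi w h1.choose_spec.2 hw
  refine ⟨g, ?_, key⟩
  rintro w ⟨i, hi, hw⟩
  exact (((hl i hi).congr fun w hw => key i hi w hw).continuousAt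
    ((hU i).mem_nhds hw)).continuousWithinAt

theorem corner {a x : ℤ} {r : ℝ} (h1 : |r - a| < 1) (h2 : r ∈ Ioo (x : ℝ) (x + 1)) :
    a = x ∨ a = x + 1 := by
  obtain ⟨h3, h4⟩ := abs_lt.1 h1
  have h5 : a < x + 2 := by exact_mod_cast (show (a : ℝ) < x + 2 by linarith [h2.2])
  have h6 : x - 1 < a := by exact_mod_cast (show (x : ℝ) - 1 < a by linarith [h2.1])
  omega

theorem hasLogs_Om (hE : ∀ ch cv : ℤ → ℤ → ℂ,
    (∀ a b, Full (GG E L) a b → ch a b + cv (a + 1) b = cv a b + ch a (b + 1)) →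
      Ex (GG E L) ch cv) : HasLogs (Om (GG E L)) := by
  intro F hF hF0
  set G := GG E L with hG
  have h1 : ∀ i, ∃ l : ℂ → ℂ, JJ G i → ContinuousOn l (UU i) ∧ ∀ w ∈ UU i, exp (l w) = F w := by
    intro i
    by_cases hi : JJ G i
    · have hs : UU i ⊆ Om G := fun _ h => ⟨i, hi, h⟩
      have : ContractibleSpace (UU i) := (convex_UU i).contractibleSpace (nonempty_UU i)
      obtain ⟨l, k1, k2⟩ := exists_continuousOn_eqOn_exp_comp (U := UU i)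
        (SimplyConnectedSpace.ofContractible _) (isOpen_UU i) (hF.mono hs)
        (fun ⟨w, hw, h⟩ => hF0 w (hs hw) h)
      exact ⟨l, fun _ => ⟨k1, k2⟩⟩
    · exact ⟨0, fun h => absurd h hi⟩
  choose l hl using h1
  have h2 : ∀ i j, ∃ k : ℂ, JJ G i → JJ G j →
      exp k = 1 ∧ ∀ w ∈ UU i, w ∈ UU j → l i w - l j w = k := by
    intro i j
    by_cases hne : (UU i ∩ UU j).Nonempty
    · obtain ⟨w₀, hw₀⟩ := hne
      refine ⟨l i w₀ - l j w₀, fun hi hj => ?_⟩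
      have he : ∀ w ∈ UU i ∩ UU j, exp (l i w - l j w) = 1 := fun w hw => by
        rw [exp_sub, (hl i hi).2 w hw.1, (hl j hj).2 w hw.2, div_self (hF0 w ⟨i, hi, hw.1⟩)]
      refine ⟨he w₀ hw₀, fun w hw hw' => ?_⟩
      exact isCoveringMap_exp.constOn_of_comp (g := fun w => l i w - l j w)
        ((convex_UU i).inter (convex_UU j)).isPreconnected
        (((hl i hi).1.mono inter_subset_left).sub ((hl j hj).1.mono inter_subset_right))
        (fun a ha a' ha' => Subtype.ext ((he a ha).trans (he a' ha').symm)) ⟨hw, hw'⟩ hw₀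
    · exact ⟨0, fun _ _ => ⟨exp_zero, fun w hw hw' => absurd ⟨w, hw, hw'⟩ hne⟩⟩
  choose κ hκ using h2
  have tri : ∀ {i j k}, (∃ w, w ∈ UU i ∧ w ∈ UU j ∧ w ∈ UU k) → JJ G i → JJ G j → JJ G k →
      κ i j = κ i k - κ j k := by
    rintro i j k ⟨w, h1, h2, h3⟩ hi hj hk
    rw [← (hκ i j hi hj).2 w h1 h2, ← (hκ i k hi hk).2 w h1 h3, ← (hκ j k hj hk).2 w h2 h3]; ring
  obtain ⟨Θ, hΘ1, hΘ2⟩ := hE (fun a b => κ (.inl (a, b)) (.inl (a + 1, b)))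
    (fun a b => κ (.inl (a, b)) (.inl (a, b + 1))) (fun a b h => by
      rw [tri (triS a b) h.1 h.2.1 h, tri (triE a b) h.2.1 h.2.2.2 h,
        tri (triW a b) h.1 h.2.2.1 h, tri (triN a b) h.2.2.1 h.2.2.2 h]
      ring)
  beta_reduce at hΘ1 hΘ2
  have hexp : ∀ v ∈ G, exp (Θ v.1 v.2 - Θ 0 0) = 1 := by
    intro v hv
    refine GG_ind (P := fun a b => exp (Θ a b - Θ 0 0) = 1) (by simp) ?_ ?_ hv
    · intro a b ha hb
      have : Θ (a + 1) b - Θ 0 0 = Θ a b - Θ 0 0 + κ (.inl (a, b)) (.inl (a + 1, b)) := by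
        rw [← hΘ1 a b ha hb]; ring
      rw [this, exp_add, (hκ (.inl (a, b)) (.inl (a + 1, b)) ha hb).1, mul_one]
    · intro a b ha hb
      have : Θ a (b + 1) - Θ 0 0 = Θ a b - Θ 0 0 + κ (.inl (a, b)) (.inl (a, b + 1)) := by
        rw [← hΘ2 a b ha hb]; ring
      rw [this, exp_add, (hκ (.inl (a, b)) (.inl (a, b + 1)) ha hb).1, mul_one]
  set Θ' : (ℤ × ℤ) ⊕ (ℤ × ℤ) → ℂ := Sum.elim (fun v => Θ v.1 v.2 - Θ 0 0)
    (fun v => Θ v.1 v.2 - Θ 0 0 + κ (.inl v) (.inr v)) with hΘ'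
  have hvf : ∀ v f : ℤ × ℤ, v ∈ G → Full G f.1 f.2 → ∀ w ∈ UU (.inl v), w ∈ UU (.inr f) →
      l (.inl v) w + Θ' (.inl v) = l (.inr f) w + Θ' (.inr f) := by
    rintro ⟨a, b⟩ ⟨x, y⟩ hv hf w hw hw'
    have k0 := (hκ (.inl (a, b)) (.inr (x, y)) hv hf).2 w hw hw'
    have hw1 : |w.re - a| + |w.im - b| < 1 := hw
    have hw2 : |w.re - a| < 1 := by linarith [abs_nonneg (w.im - b)]
    have hw3 : |w.im - b| < 1 := by linarith [abs_nonneg (w.re - a)]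
    have k1 := tri (triS x y) hf.1 hf.2.1 hf
    have k2 := tri (triE x y) hf.2.1 hf.2.2.2 hf
    have k3 := tri (triW x y) hf.1 hf.2.2.1 hf
    have k4 := hΘ1 x y hf.1 hf.2.1
    have k5 := hΘ2 (x + 1) y hf.2.1 hf.2.2.2
    have k6 := hΘ2 x y hf.1 hf.2.2.1
    simp only [hΘ', Sum.elim_inl, Sum.elim_inr] at k4 k5 k6 ⊢
    rcases corner (a := a) hw2 hw'.1 with rfl | rfl <;>
      rcases corner (a := b) hw3 hw'.2 with rfl | rfl
    · linear_combination k0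
    · linear_combination k0 + k3 + k6
    · linear_combination k0 + k1 + k4
    · linear_combination k0 + k1 + k2 + k4 + k5
  obtain ⟨g, hg1, hg2⟩ := glue (J := JJ G) isOpen_UU (l := fun i w => l i w + Θ' i)
    (fun i hi => (hl i hi).1.add continuousOn_const) (by
      rintro (⟨a, b⟩ | ⟨a, b⟩) (⟨a', b'⟩ | ⟨a', b'⟩) hi hj w hw hw'
      · have hw1 : |w.re - a| + |w.im - b| < 1 := hw
        have hw2 : |w.re - a'| + |w.im - b'| < 1 := hw'
        have h3 : |a - a'| + |b - b'| < 2 := by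
          have e1 := abs_sub_le (a : ℝ) w.re a'
          have e2 := abs_sub_le (b : ℝ) w.im b'
          rw [abs_sub_comm (a : ℝ) w.re] at e1
          rw [abs_sub_comm (b : ℝ) w.im] at e2
          exact_mod_cast (show |(a : ℝ) - a'| + |(b : ℝ) - b'| < 2 by linarith)
        have k1 := (hκ _ _ hi hj).2 w hw hw'
        have k2 := (hκ _ _ hj hi).2 w hw' hw
        by_cases h4 : |a - a'| + |b - b'| = 1
        · simp only [hΘ', Sum.elim_inl]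
          rcases adj_cases h4 with ⟨h5, h6⟩ | ⟨h5, h6⟩ | ⟨h5, h6⟩ | ⟨h5, h6⟩ <;> subst h5 h6
          · linear_combination k1 - hΘ1 _ _ hi hj
          · linear_combination hΘ1 _ _ hj hi - k2
          · linear_combination k1 - hΘ2 _ _ hi hj
          · linear_combination hΘ2 _ _ hj hi - k2
        · obtain ⟨rfl, rfl⟩ : a = a' ∧ b = b' := by
            rcases abs_cases (a - a') with h1 | h1 <;> rcases abs_cases (b - b') with h2 | h2 <;>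
              omega
          rfl
      · exact hvf _ _ hi hj w hw hw'
      · exact (hvf _ _ hj hi w hw' hw).symm
      · have e1 : a < a' + 1 := by exact_mod_cast hw.1.1.trans hw'.1.2
        have e2 : a' < a + 1 := by exact_mod_cast hw'.1.1.trans hw.1.2
        have e3 : b < b' + 1 := by exact_mod_cast hw.2.1.trans hw'.2.2
        have e4 : b' < b + 1 := by exact_mod_cast hw'.2.1.trans hw.2.2
        obtain ⟨rfl, rfl⟩ : a = a' ∧ b = b' := by omega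
        rfl)
  refine ⟨g, hg1, ?_⟩
  rintro w ⟨i, hi, hw⟩
  rw [hg2 i hi w hw, exp_add, (hl i hi).2 w hw]
  rcases i with v | f
  · simp only [hΘ', Sum.elim_inl]
    rw [hexp v hi, mul_one]
  · simp only [hΘ', Sum.elim_inr]
    rw [exp_add, hexp f hi.1, (hκ (.inl f) (.inr f) hi.1 hi).1, mul_one, mul_one]

end Pool.Agent.P.MP_677d31_pr.Gr
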