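import Pool.Agent.P.MP_677d31_pr.Chain

set_option autoImplicit false

namespace Pool.Agent.P.MP_677d31_pr

open Set Metric MeasureTheory ProbabilityTheory Filter Topology NNReal

/-- the identification of `ℝ × ℝ` with `ℂ` -/
noncomputable abbrev linkE : (ℝ × ℝ) ≃L[ℝ] ℂ := Complex.equivRealProdCLM.symm

theorem link_gauss (v : ℝ≥0) :
    ((gaussianReal 0 v).prod (gaussianReal 0 v)).map linkE =
      g1.map (fun ξ => Real.sqrt v • ξ) := by
  have h1 : gaussianReal 0 v = (gaussianReal 0 1).map (Real.sqrt v * ·) := by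
    rw [gaussianReal_map_const_mul]
    congr 1
    · simp
    · ext; simp
  have hm : Measurable (fun x : ℝ => Real.sqrt v * x) := by fun_prop
  rw [h1, Measure.map_prod_map _ _ hm hm, g1,
    Measure.map_map linkE.continuous.measurable (hm.prodMap hm),
    Measure.map_map (by fun_prop) linkE.continuous.measurable]
  congr 1
  ext1 p
  simp only [Function.comp_apply, ← map_smul]
  rfl

theorem link_markov {Ω : Type} {F : MeasurableSpace Ω} [m : MeasurableSpace Ω] (P : Measure Ω)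
    [IsProbabilityMeasure P] (hF : F ≤ m) {X : Ω → ℂ} {Y : Ω → ℝ × ℝ} (hX : Measurable[F] X)
    (hY : Measurable[m] Y) (hi : Indep (MeasurableSpace.comap Y inferInstance) F P) {v : ℝ≥0}
    (hl : P.map Y = (gaussianReal 0 v).prod (gaussianReal 0 v)) {C : Set Ω}
    (hC : MeasurableSet[F] C) {f : ℂ → ENNReal} (hf : Measurable f) :
    ∫⁻ ω in C, f (X ω + linkE (Y ω)) ∂P =
      ∫⁻ ω in C, ∫⁻ ξ, f (X ω + Real.sqrt v • ξ) ∂g1 ∂P := by
  have hX' : Measurable[m] X := hX.mono hF le_rfl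
  have hg : Measurable fun p : ℂ × (ℝ × ℝ) => f (p.1 + linkE p.2) :=
    hf.comp (measurable_fst.add (linkE.continuous.measurable.comp measurable_snd))
  have key : ((P.restrict C).map X).prod (P.map Y) = (P.restrict C).map fun ω => (X ω, Y ω) := by
    refine Measure.prod_eq fun s t hs ht => ?_
    rw [Measure.map_apply (hX'.prodMk hY) (hs.prod ht), Measure.map_apply hX' hs,
      Measure.map_apply hY ht, Measure.restrict_apply ((hX'.prodMk hY) (hs.prod ht)),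
      Measure.restrict_apply (hX' hs), mul_comm,
      ← (Indep_iff _ _ _).1 hi _ _ ⟨t, ht, rfl⟩ ((hX hs).inter hC)]
    congr 1
    ext ω
    simp only [mem_inter_iff, mem_preimage, mem_prod]
    tauto
  rw [← lintegral_map hg (hX'.prodMk hY), ← key, lintegral_prod _ hg.aemeasurable,
    lintegral_map hg.lintegral_prod_right' hX']
  refine lintegral_congr fun ω => ?_
  have h2 : Measurable fun w : ℂ => f (X ω + w) := hf.comp (measurable_const_add _)
  rw [hl, ← lintegral_map h2 linkE.continuous.measurable, link_gauss,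
    lintegral_map h2 (by fun_prop)]

theorem link_times {h : ℝ} {k : ℕ} : ∀ {c : ℕ → ℂ} {j n : ℕ} {X : ℕ → ℂ}, j ≤ n →
    X ∈ Fol h k c j n → ∃ t : ℕ → ℕ, t 0 = j ∧ ∀ i ≤ k, t i ≤ n ∧ (i < k → t i ≤ t (i + 1) ∧
      (∀ m, t i ≤ m → m ≤ t (i + 1) → X m ∈ ball (c i) (2 * h)) ∧
      X (t (i + 1)) ∈ ball (c i) (h / 2)) := by
  induction k with
  | zero =>
    intro c j n X hj _
    exact ⟨fun _ => j, rfl, fun i _ => ⟨hj, fun h => absurd h (Nat.not_lt_zero i)⟩⟩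
  | succ k ih =>
    rintro c j n X hj ⟨s, h1, h2, h3, h4, h5⟩
    obtain ⟨t, t0, ht⟩ := ih h2 h5
    refine ⟨fun i => Nat.casesOn i j t, rfl, fun i hi => ?_⟩
    rcases i with _ | i
    · refine ⟨hj, fun _ => ?_⟩
      show j ≤ t 0 ∧ (∀ m, j ≤ m → m ≤ t 0 → X m ∈ ball (c 0) (2 * h)) ∧
        X (t 0) ∈ ball (c 0) (h / 2)
      rw [t0]
      exact ⟨h1, h3, h4⟩
    · exact ⟨(ht i (by omega)).1, fun h => (ht i (by omega)).2 (by omega)⟩

theorem link_tail (R : ℝ) {ε : ℝ} (hε : 0 < ε) :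
    ∃ T : ℕ, g1 {ξ | ‖Real.sqrt T • ξ‖ ≤ R} ≤ ENNReal.ofReal ε := by
  have h1 : Tendsto (fun T : ℕ => g1 {ξ | ‖Real.sqrt T • ξ‖ ≤ R}) atTop
      (𝓝 (g1 (⋂ T : ℕ, {ξ | ‖Real.sqrt T • ξ‖ ≤ R}))) := by
    refine tendsto_measure_iInter_atTop (fun T => ?_) (fun a b hab ξ hξ => ?_)
      ⟨0, measure_ne_top _ _⟩
    · exact (measurableSet_le (by fun_prop) measurable_const).nullMeasurableSet
    · refine le_trans ?_ (show ‖Real.sqrt b • ξ‖ ≤ R from hξ)
      rw [norm_smul, norm_smul, Real.norm_of_nonneg (Real.sqrt_nonneg _),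
        Real.norm_of_nonneg (Real.sqrt_nonneg _)]
      gcongr
  have h2 : g1 (⋂ T : ℕ, {ξ | ‖Real.sqrt T • ξ‖ ≤ R}) = 0 := by
    refine measure_mono_null (fun ξ hξ => ?_) g1_singleton
    by_contra h0
    have h3 : 0 < ‖ξ‖ := norm_pos_iff.mpr h0
    obtain ⟨n, hn⟩ := exists_nat_gt (R / ‖ξ‖)
    have h4 : ‖Real.sqrt ((n ^ 2 : ℕ) : ℝ) • ξ‖ ≤ R := mem_iInter.mp hξ (n ^ 2)
    rw [norm_smul, Nat.cast_pow, Real.sqrt_sq (Nat.cast_nonneg n),
      Real.norm_of_nonneg (Nat.cast_nonneg n)] at h4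
    rw [div_lt_iff₀ h3] at hn
    linarith
  rw [h2] at h1
  exact (h1.eventually (ge_mem_nhds (ENNReal.ofReal_pos.mpr hε))).exists

/-- deterministic part: a path with small oscillation and no separating loop -/
theorem link_path {E : Set (ℝ × ℝ)} {b : ℝ≥0 → ℝ × ℝ} (hb : Continuous b) {r R θ : ℝ}
    (hr : θ < r) {δ : ℝ≥0} (hδ : 0 < δ) {M : ℕ}
    (ho : ∀ u u' : ℝ≥0, u ≤ M * δ → u' ≤ M * δ → dist u u' ≤ δ →
      ‖linkE (b u) - linkE (b u')‖ ≤ θ)
    (hR : R ≤ ‖linkE (b (M * δ))‖)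
    (hN : ¬ ∃ s t : ℝ≥0, s < t ∧ b s = b t ∧ (∀ u : ℝ≥0, u ≤ t → b u ∉ E) ∧
      ∃ x ∈ E, ∃ y ∈ E, connectedComponentIn (b '' Icc s t)ᶜ x ≠
        connectedComponentIn (b '' Icc s t)ᶜ y) :
    (fun j : ℕ => linkE (b (j * δ))) ∈
      FE (linkE '' E) θ {x | infDist x (linkE '' E) ≤ r ∨ R ≤ ‖x‖} univ 0 := by
  have hδ' : (0 : ℝ) < δ := hδ
  obtain ⟨n, hn, hFH⟩ := exists_FH (D := {x | infDist x (linkE '' E) ≤ r ∨ R ≤ ‖x‖})
    (X := fun j : ℕ => linkE (b (j * δ))) (Nat.zero_le M) (Or.inr hR)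
  have le : ∀ m : ℕ, m ≤ n → (m : ℝ≥0) * δ ≤ M * δ := fun m hm => by
    have := hm.trans hn
    gcongr
  have near : ∀ (u : ℝ≥0) (m : ℕ), m ≤ n → u ≤ n * δ → (m : ℝ) * δ ≤ u → (u : ℝ) ≤ (m + 1) * δ →
      ‖linkE (b u) - linkE (b (m * δ))‖ ≤ θ := fun u m h1 h2 h3 h4 =>
    ho _ _ (h2.trans (le n le_rfl)) (le m h1) (by
      rw [NNReal.dist_eq, abs_le]
      push_cast
      constructor <;> linarith)
  refine ⟨n, hFH, trivial, mem_ND.mpr ⟨fun m _ hm => ?_, fun h c k j hθ hV _ hX => hN ?_⟩⟩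
  · refine ho _ _ (le _ hm) (le _ hm.le) ?_
    rw [NNReal.dist_eq, abs_le]
    push_cast
    constructor <;> linarith
  rcases k with _ | k
  · obtain ⟨s, t, h1, h2, h3, -⟩ := hV (fun _ => 0) continuous_const (fun _ => 0)
      fun i hi => absurd hi (Nat.not_lt_zero i)
    linarith
  obtain ⟨τ, -, hτ⟩ := link_times (hX.choose_spec.1.trans hX.choose_spec.2.1) hX
  have cast : ∀ m : ℕ, Real.toNNReal (m * δ) = m * δ := fun m => by
    rw [← NNReal.coe_natCast, ← NNReal.coe_mul, Real.toNNReal_coe]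
  obtain ⟨s, t, h1, h2, h3, h4, _, ⟨x, hx, rfl⟩, _, ⟨y, hy, rfl⟩, h5⟩ :=
    hV (fun u => linkE (b u.toNNReal))
      (linkE.continuous.comp (hb.comp continuous_real_toNNReal)) (fun i => τ i * δ) (by
      intro i hi
      obtain ⟨k1, k2, k3⟩ := (hτ i hi.le).2 hi
      have k4 := (hτ (i + 1) hi).1
      refine ⟨by gcongr, fun u hu => ?_, by simpa only [cast] using k3⟩
      have u0 : 0 ≤ u := le_trans (by positivity) hu.1
      have f1 : τ i ≤ ⌊u / δ⌋₊ := Nat.le_floor ((le_div_iff₀ hδ').mpr hu.1)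
      have f2 : ⌊u / δ⌋₊ ≤ τ (i + 1) := Nat.floor_le_of_le ((div_le_iff₀ hδ').mpr hu.2)
      have f3 := near u.toNNReal _ (f2.trans k4) (by
          rw [← cast]
          refine Real.toNNReal_le_toNNReal (hu.2.trans ?_)
          gcongr)
        (by rw [Real.coe_toNNReal _ u0]
            exact (le_div_iff₀ hδ').mp (Nat.floor_le (by positivity)))
        (by rw [Real.coe_toNNReal _ u0]
            exact ((div_lt_iff₀ hδ').mp (Nat.lt_floor_add_one _)).le)
      have f4 := mem_ball.mp (k2 _ f1 f2)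
      have f5 := dist_triangle (linkE (b u.toNNReal)) (linkE (b (⌊u / δ⌋₊ * δ))) (c i)
      rw [dist_eq_norm (linkE (b u.toNNReal)) (linkE (b (⌊u / δ⌋₊ * δ)))] at f5
      rw [mem_ball]
      linarith)
  have s0 : 0 ≤ s := le_trans (by positivity) h1
  have tn : t ≤ n * δ := h3.trans (by have := (hτ (k + 1) le_rfl).1; gcongr)
  have n0 : 0 < n := by
    rcases n with _ | n
    · simp at tn; linarith
    · omega
  have avoid : ∀ u : ℝ≥0, u ≤ t.toNNReal → b u ∉ E := by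
    intro u hu hE
    have u1 : u ≤ n * δ := hu.trans (by rw [← cast]; exact Real.toNNReal_le_toNNReal tn)
    have u2 : (u : ℝ) ≤ n * δ := by exact_mod_cast u1
    obtain ⟨m, m1, m2, m3⟩ : ∃ m : ℕ, m < n ∧ (m : ℝ) * δ ≤ u ∧ (u : ℝ) ≤ (m + 1) * δ := by
      rcases u2.eq_or_lt with k | k
      · obtain ⟨m, rfl⟩ := Nat.exists_eq_succ_of_ne_zero n0.ne'
        push_cast at k
        exact ⟨m, Nat.lt_succ_self m, by linarith, k.le⟩
      · exact ⟨⌊(u : ℝ) / δ⌋₊, (Nat.floor_lt (by positivity)).mpr ((div_lt_iff₀ hδ').mpr k),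
          (le_div_iff₀ hδ').mp (Nat.floor_le (by positivity)),
          ((div_lt_iff₀ hδ').mp (Nat.lt_floor_add_one _)).le⟩
    refine hFH.2.2 m (Nat.zero_le m) m1 (Or.inl ?_)
    have := infDist_le_dist_of_mem (x := linkE (b (m * δ))) (mem_image_of_mem linkE hE)
    rw [dist_comm, dist_eq_norm] at this
    linarith [near u m m1.le u1 m2 m3]
  have im : (fun u : ℝ => linkE (b u.toNNReal)) '' Icc s t =
      linkE '' (b '' Icc s.toNNReal t.toNNReal) := by
    rw [image_image]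
    refine Subset.antisymm ?_ ?_
    · rintro _ ⟨u, hu, rfl⟩
      exact ⟨u.toNNReal, ⟨Real.toNNReal_le_toNNReal hu.1, Real.toNNReal_le_toNNReal hu.2⟩, rfl⟩
    · rintro _ ⟨u, hu, rfl⟩
      exact ⟨u, ⟨Real.toNNReal_le_iff_le_coe.mp hu.1,
        (Real.le_toNNReal_iff_coe_le (by linarith)).mp hu.2⟩, by simp⟩
  have out : ∀ w ∈ E, w ∈ (b '' Icc s.toNNReal t.toNNReal)ᶜ := by
    rintro w hw ⟨u, hu, rfl⟩
    exact avoid u hu.2 hw
  refine ⟨s.toNNReal, t.toNNReal, (Real.toNNReal_lt_toNNReal_iff (by linarith)).mpr h2,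
    linkE.injective h4, avoid, x, hx, y, hy, fun e => h5 ?_⟩
  have i1 := linkE.toHomeomorph.image_connectedComponentIn (out x hx)
  have i2 := linkE.toHomeomorph.image_connectedComponentIn (out y hy)
  rw [linkE.toHomeomorph.image_compl] at i1 i2
  rw [im]
  exact i1.symm.trans (e ▸ i2)

theorem link (H : ∀ E : Set ℂ, IsCompact E → E.Nontrivial → dimH E < 1 → ∀ z ∉ E,
      ∀ (Ω : Type) [MeasurableSpace Ω] (P : Measure Ω) [IsProbabilityMeasure P] (ε : ℝ), 0 < ε →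
      ∃ r R θ : ℝ, 0 < θ ∧ θ < r ∧ ∀ᶠ σ in 𝓝[>] (0 : ℝ), ∀ W : Walk P σ,
        PB W (FE E θ {x | infDist x E ≤ r ∨ R ≤ ‖x‖} univ) {z} ε) :
    ∀ (E : Set (ℝ × ℝ)), IsCompact E → E.Nontrivial → dimH E < 1 →
    ∀ z : ℝ × ℝ, z ∉ E →
    ∀ (Ω : Type) [MeasurableSpace Ω] (P : Measure Ω) [IsProbabilityMeasure P]
      (B : ℝ≥0 → Ω → ℝ × ℝ),
      (∀ u, Measurable (B u)) →
      (∀ ω, Continuous (fun u => B u ω)) →
      (∀ ω, B 0 ω = z) →
      (∀ s t : ℝ≥0, s ≤ t →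
        Measure.map (fun ω => B t ω - B s ω) P
            = (gaussianReal 0 (t - s)).prod (gaussianReal 0 (t - s)) ∧
        Indep (MeasurableSpace.comap (fun ω => B t ω - B s ω) inferInstance)
          (⨆ (u : ℝ≥0) (_ : u ≤ s), MeasurableSpace.comap (B u) inferInstance) P) →
      ∀ᵐ ω ∂P, ∃ s t : ℝ≥0, s < t ∧ B s ω = B t ω ∧
        (∀ u : ℝ≥0, u ≤ t → B u ω ∉ E) ∧
        ∃ x ∈ E, ∃ y ∈ E,
          connectedComponentIn ((fun u => B u ω) '' Set.Icc s t)ᶜ x ≠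
          connectedComponentIn ((fun u => B u ω) '' Set.Icc s t)ᶜ y := by
  intro E hE hE1 hE2 z hz Ω m P _ B hm hc h0 hB
  rw [ae_iff]
  set N := {ω | ¬ ∃ s t : ℝ≥0, s < t ∧ B s ω = B t ω ∧ (∀ u : ℝ≥0, u ≤ t → B u ω ∉ E) ∧
    ∃ x ∈ E, ∃ y ∈ E, connectedComponentIn ((fun u => B u ω) '' Set.Icc s t)ᶜ x ≠
      connectedComponentIn ((fun u => B u ω) '' Set.Icc s t)ᶜ y}
  refine nonpos_iff_eq_zero.mp (ENNReal.le_of_forall_pos_le_add fun η hη _ => ?_)
  have hε : (0 : ℝ) < η / 2 := by positivity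
  obtain ⟨r, R, θ, hθ, hr, hσ⟩ := H (linkE '' E) (hE.image linkE.continuous)
    (hE1.image linkE.injective) (by rwa [linkE.dimH_image]) (linkE z)
    (fun h => hz (linkE.injective.mem_set_image.mp h)) Ω P _ hε
  obtain ⟨T, hT⟩ := link_tail (R + ‖linkE z‖) hε
  have tail : P {ω | ‖linkE (B T ω)‖ < R} ≤ ENNReal.ofReal (η / 2) := by
    have h1 := (hB 0 T zero_le).1
    have hY : Measurable fun ω => B T ω - B 0 ω := (hm _).sub (hm _)
    have hs : MeasurableSet {w : ℂ | ‖w‖ ≤ R + ‖linkE z‖} :=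
      measurableSet_le (by fun_prop) measurable_const
    have h2 := congrArg (fun μ => (μ.map linkE) {w : ℂ | ‖w‖ ≤ R + ‖linkE z‖}) h1
    simp only [link_gauss, tsub_zero, NNReal.coe_natCast] at h2
    rw [Measure.map_map linkE.continuous.measurable hY,
      Measure.map_apply (linkE.continuous.measurable.comp hY) hs,
      Measure.map_apply (by fun_prop) hs] at h2
    refine le_trans (measure_mono fun ω hω => ?_) (h2.le.trans hT)
    show ‖linkE (B T ω - B 0 ω)‖ ≤ R + ‖linkE z‖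
    rw [map_sub, h0]
    exact (norm_sub_le _ _).trans (add_le_add_left (le_of_lt hω) _)
  let O : ℕ → Set Ω := fun k => {ω | ∀ u u' : ℝ≥0, u ≤ T → u' ≤ T →
    dist u u' ≤ 1 / ((k : ℝ) + 1) → ‖linkE (B u ω) - linkE (B u' ω)‖ ≤ θ}
  have mono : Monotone O := fun a b hab ω hω u u' h1 h2 h3 =>
    hω u u' h1 h2 (h3.trans (Nat.one_div_le_one_div hab))
  have cover : N = ⋃ k, N ∩ O k := by
    refine Subset.antisymm (fun ω hω => ?_) (iUnion_subset fun k => inter_subset_left)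
    obtain ⟨d, hd, hd'⟩ := Metric.uniformContinuousOn_iff_le.mp
      ((isCompact_Icc (a := (0 : ℝ≥0)) (b := T)).uniformContinuousOn_of_continuous
        (linkE.continuous.comp (hc ω)).continuousOn) θ hθ
    obtain ⟨k, hk⟩ := exists_nat_one_div_lt hd
    refine mem_iUnion.mpr ⟨k, hω, fun u u' h1 h2 h3 => ?_⟩
    rw [← dist_eq_norm]
    exact hd' u ⟨zero_le, h1⟩ u' ⟨zero_le, h2⟩ (h3.trans hk.le)
  have lim : Tendsto (fun k : ℕ => Real.sqrt (1 / ((k : ℝ) + 1))) atTop (𝓝[>] 0) := by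
    refine tendsto_nhdsWithin_iff.mpr ⟨?_, Eventually.of_forall fun k =>
      Real.sqrt_pos.mpr Nat.one_div_pos_of_nat⟩
    simpa using tendsto_one_div_add_atTop_nhds_zero_nat.sqrt
  rw [zero_add, cover, Monotone.measure_iUnion fun a b hab =>
    inter_subset_inter_right _ (mono hab)]
  refine iSup_le fun k₀ => ?_
  obtain ⟨k, hk, hk₀⟩ := ((lim.eventually hσ).and (eventually_ge_atTop k₀)).exists
  let δ : ℝ≥0 := 1 / ((k : ℝ≥0) + 1)
  have hδ : (δ : ℝ) = 1 / ((k : ℝ) + 1) := by simp [δ]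
  have hle : ∀ j : ℕ, (⨆ (u : ℝ≥0) (_ : u ≤ j * δ),
      MeasurableSpace.comap (B u) inferInstance) ≤ m :=
    fun j => iSup₂_le fun u _ => (hm u).comap_le
  have had : ∀ j : ℕ, Measurable[⨆ (u : ℝ≥0) (_ : u ≤ j * δ),
      MeasurableSpace.comap (B u) inferInstance] fun ω => linkE (B (j * δ) ω) := fun j =>
    linkE.continuous.measurable.comp (Measurable.of_comap_le
      (le_iSup₂_of_le (f := fun (u : ℝ≥0) (_ : u ≤ j * δ) =>
        MeasurableSpace.comap (B u) inferInstance) (j * δ) le_rfl le_rfl))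
  let W : Walk P (Real.sqrt (1 / ((k : ℝ) + 1))) :=
    { F := fun j => ⨆ (u : ℝ≥0) (_ : u ≤ j * δ), MeasurableSpace.comap (B u) inferInstance
      mono := fun a b hab => biSup_mono fun u hu => le_trans hu (by gcongr)
      le := hle
      X := fun ω j => linkE (B (j * δ) ω)
      adapt := had
      markov := fun j C hC f hf => by
        obtain ⟨h1, h2⟩ := hB (j * δ) ((j + 1 : ℕ) * δ) (by gcongr; exact Nat.le_succ j)
        rw [show ((j + 1 : ℕ) : ℝ≥0) * δ - j * δ = δ by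
          rw [Nat.cast_succ, add_mul, one_mul, add_tsub_cancel_left]] at h1
        have := link_markov P (hle j) (had j) ((hm _).sub (hm _)) h2 h1 hC hf
        simpa only [Pi.sub_apply, map_sub, add_sub_cancel, hδ] using this }
  have hM : ((T * (k + 1) : ℕ) : ℝ≥0) * δ = T := by
    simp only [δ]
    push_cast
    field_simp
  have main := hk W 0 univ MeasurableSet.univ fun ω _ => by simp [W, h0]
  rw [measure_univ, mul_one, univ_inter] at main
  refine le_trans (measure_mono (t := {ω | ‖linkE (B T ω)‖ < R} ∪ W.X ⁻¹' FE (linkE '' E) θ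
    {x | infDist x (linkE '' E) ≤ r ∨ R ≤ ‖x‖} univ 0) fun ω hω => ?_)
    ((measure_union_le _ _).trans ((add_le_add tail main).trans (le_of_eq ?_)))
  · refine or_iff_not_imp_left.mpr fun h => link_path (hc ω) hr (M := T * (k + 1))
      (by simp [δ]) (fun u u' h1 h2 h3 => mono hk₀ hω.2 u u' (hM ▸ h1) (hM ▸ h2) (hδ ▸ h3))
      (by rw [hM]; exact not_lt.mp h) hω.1
  · rw [← ENNReal.ofReal_add hε.le hε.le, add_halves, ENNReal.ofReal_coe_nnreal]

end Pool.Agent.P.MP_677d31_pr
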