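import Pool.Agent.P.MP_677d31_pr.Stage

set_option autoImplicit false
set_option linter.unusedSectionVars false

namespace Pool.Agent.P.MP_677d31_pr

open Set Metric MeasureTheory Filter Topology Real NNReal

theorem small_cover {E : Set ℂ} (hE : IsCompact E) {s : ℝ≥0} (hs : 0 < (s : ℝ)) (hd : dimH E < s)
    {η : ℝ} (hη : 0 < η) : ∃ (t : Finset ℕ) (p : ℕ → ℂ) (ρ : ℕ → ℝ), (∀ i, 0 < ρ i) ∧
      E ⊆ ⋃ i ∈ t, ball (p i) (ρ i) ∧ ∑ i ∈ t, ρ i ^ (s : ℝ) ≤ η := by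
  have h0 := hausdorffMeasure_of_dimH_lt hd
  rw [Measure.hausdorffMeasure_apply] at h0
  have h1 := (le_iSup₂_of_le (f := fun (r : ENNReal) (_ : 0 < r) => ⨅ (t : ℕ → Set ℂ)
    (_ : E ⊆ ⋃ n, t n) (_ : ∀ n, ediam (t n) ≤ r), ∑' n, ⨆ _ : (t n).Nonempty,
      ediam (t n) ^ (s : ℝ)) 1 one_pos le_rfl).trans_lt
    (h0.le.trans_lt (ENNReal.ofReal_pos.mpr (half_pos hη)))
  simp only [iInf_lt_iff] at h1
  obtain ⟨u, h1, h2, h3⟩ := h1
  have h4 : ∀ n, ediam (u n) ≠ ⊤ := fun n => ((h2 n).trans_lt ENNReal.one_lt_top).ne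
  have h5 : ∀ n : ℕ, ∃ (p : ℂ) (ρ : ℝ), 0 < ρ ∧ u n ⊆ ball p ρ ∧
      ρ ^ (s : ℝ) < diam (u n) ^ (s : ℝ) + η / 2 / 2 / 2 ^ n := fun n => by
    obtain ⟨ρ, a1, a2⟩ := ((continuousAt_rpow_const (diam (u n)) s (Or.inr hs.le)).eventually_lt
      (continuousAt_const (y := diam (u n) ^ (s : ℝ) + η / 2 / 2 / 2 ^ n))
      (lt_add_of_pos_right _ (by positivity))).exists_gt
    rcases (u n).eq_empty_or_nonempty with h | ⟨p, hp⟩
    · exact ⟨0, ρ, diam_nonneg.trans_lt a1, by simp [h], a2⟩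
    · exact ⟨p, ρ, diam_nonneg.trans_lt a1, fun x hx =>
        (dist_le_diam_of_mem' (h4 n) hx hp).trans_lt a1, a2⟩
  choose p ρ a1 a2 a3 using h5
  obtain ⟨t, ht⟩ := hE.elim_finite_subcover (fun n => ball (p n) (ρ n)) (fun _ => isOpen_ball)
    (h1.trans (iUnion_mono a2))
  refine ⟨t, p, ρ, a1, ht, (Finset.sum_le_sum fun i _ => (a3 i).le).trans ?_⟩
  rw [Finset.sum_add_distrib]
  have b1 := sum_le_hasSum t (fun i _ => by positivity) (hasSum_geometric_two' (η / 2))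
  have b2 : ∑ i ∈ t, diam (u i) ^ (s : ℝ) ≤ η / 2 := by
    rw [← ENNReal.ofReal_le_ofReal_iff (by positivity), ENNReal.ofReal_sum_of_nonneg
      fun i _ => rpow_nonneg diam_nonneg _]
    refine ((Finset.sum_le_sum fun i _ => ?_).trans (ENNReal.sum_le_tsum t)).trans h3.le
    rcases (u i).eq_empty_or_nonempty with h | h
    · simp [h, Real.zero_rpow hs.ne']
    · rw [iSup_pos h, ← ENNReal.ofReal_rpow_of_nonneg diam_nonneg hs.le, diam,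
        ENNReal.ofReal_toReal (h4 i)]
  linarith

variable {Ω : Type} [MeasurableSpace Ω] {P : Measure Ω} [IsProbabilityMeasure P]

theorem induct {σ θ B q ε : ℝ} {W : Walk P σ} {E F : Set ℂ} {φ : ℂ → ℝ} (hφ : Measurable φ)
    (hB : 1 ≤ B) (hq : 0 ≤ q) (hq1 : q ≤ 1) (hε : 0 ≤ ε) (hεB : B * ε ≤ 1 / 4) {t : Set ℂ}
    (ht : t.Finite) (U D : ℂ → Set ℂ) (hU : ∀ x, φ x < 1 → x ∈ ⋃ y ∈ t, U y)
    (h : ∀ y ∈ t, MeasurableSet (U y) ∧ MeasurableSet (D y) ∧ Disjoint (U y) (D y) ∧ F ⊆ D y ∧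
      0 ≤ φ y ∧ (∀ x ∈ U y, 3 / 4 * φ y ≤ φ x) ∧ (∀ w ∉ D y, ∀ x, ‖x - w‖ ≤ θ → φ x ≤ B * φ y) ∧
      (PB W (FE E θ (D y) univ) (U y) (1 - q) ∨
        PB W (FE E θ (D y) {x | φ y / 2 < φ x}) (U y) ε)) (g : ℕ) {a : ℝ} (ha : 0 ≤ a) :
    PB W (FE E θ F univ) {x | φ x ≤ a} ((1 - q) ^ g + (2 * B) ^ g * a) := by
  let A : ℕ → ℕ → Set (ℕ → ℂ) := fun k j => {X | ∃ n < j + k, X ∈ FH F j n ∧ X ∈ ND E θ j n}
  suffices H : ∀ k g a, 0 ≤ a → PB W (A k) {x | φ x ≤ a} ((1 - q) ^ g + (2 * B) ^ g * a) from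
    (PB.iUnion (B := A) (fun j k k' hk X ⟨n, k1, k2⟩ => ⟨n, by omega, k2⟩)
      fun k => H k g a ha).mono
      (fun j X _ ⟨n, k1, _, k2⟩ => mem_iUnion.mpr ⟨n + 1, n, by omega, k1, k2⟩) Subset.rfl le_rfl
  have hq' : 0 ≤ 1 - q := sub_nonneg.mpr hq1
  have m : ∀ a, MeasurableSet {x | φ x ≤ a} := fun a => measurableSet_le hφ measurable_const
  intro k
  induction k with
  | zero => exact fun g a _ => PB.empty fun j X _ ⟨n, k1, k2, _⟩ => absurd k2.1 (by omega)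
  | succ k ih =>
    intro g a ha
    have hC : ∀ g : ℕ, 1 ≤ (2 * B) ^ g := fun g => one_le_pow₀ (by linarith)
    rcases le_or_gt 1 a with h1 | h1
    · exact PB.one (by nlinarith [hC g, pow_nonneg hq' g])
    rcases g with _ | g
    · exact PB.one (by simpa using ha)
    refine PB.cover ht (fun y hy => (h y hy).1) (fun x hx => hU x (lt_of_le_of_lt hx h1))
      fun y hy => ?_
    obtain ⟨-, y2, y3, y4, y5, y6, y7, y8⟩ := h y hy
    rcases lt_or_ge a (3 / 4 * φ y) with h2 | h2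
    · exact PB.empty fun j X hX => absurd ((y6 _ hX.2).trans hX.1) h2.not_ge
    have key : ∀ j X, X j ∈ {x | φ x ≤ a} ∩ U y → X ∈ A (k + 1) j → ∃ n, X ∈ FH (D y) j n ∧
        X ∈ ND E θ j n ∧ φ (X n) ≤ B * φ y ∧ X ∈ A k n := by
      rintro j X hX ⟨n, k1, k2, k3⟩
      obtain ⟨n', k4, k5⟩ := exists_FH k2.1 (y4 k2.2.1)
      have k6 := disjoint_left.mp y3 hX.2
      obtain ⟨w, w1, w2⟩ := FH.step k5 k6 k3 k4
      have k7 : j < n' := k5.1.lt_of_ne fun e => k6 (e ▸ k5.2.1)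
      exact ⟨n', k5, ND.mono k3 le_rfl k4, y7 w w1 _ w2, n, by omega, FH.later k2 k5.1 k4,
        ND.mono k3 k5.1 le_rfl⟩
    have hBy : 0 ≤ B * φ y := mul_nonneg (by linarith) y5
    have c1 := pow_nonneg hq' g
    have c2 := mul_nonneg (zero_le_one.trans (hC g)) hBy
    rcases y8 with y8 | y8
    · refine (PB.comp (S₁ := ∅) (A₁ := fun _ => ∅) (G := ND E θ) (a := 0)
        (b := (1 - q) ^ g + (2 * B) ^ g * (B * φ y)) (c := 1 - q) y2 MeasurableSet.empty (m _)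
        (ad_ND E θ) (fun j X k1 k2 => ?_) (PB.empty fun _ _ _ h => h)
        (by rw [zero_add]; exact ih g _ hBy)
        (y8.mono (fun j X _ ⟨n, k1, k2⟩ => ⟨n, k1, trivial, k2⟩) inter_subset_right le_rfl)
        le_rfl (by positivity) hq').mono (fun _ _ _ h => h) Subset.rfl ?_
      · obtain ⟨n, k3, k4, k5⟩ := key j X k1 k2
        exact ⟨n, k3, Or.inr ⟨k4, k5⟩⟩
      · have : (2 * B) ^ g * (B * φ y) ≤ (2 * B) ^ g * (B * (2 * a)) := by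
          gcongr; linarith
        rw [pow_succ, pow_succ]
        nlinarith [mul_nonneg c2 hq]
    · have c3 := hC (g + 1)
      refine (PB.comp (S₁ := {x | φ x ≤ φ y / 2}) (A₁ := A k) (A₂ := A k)
        (G := fun j n => {X | X n ∈ {x | φ y / 2 < φ x}} ∩ ND E θ j n)
        (b := (2 * B) ^ (g + 1) * (B * φ y)) (c := ε) y2 (m _) (m (B * φ y))
        (fun j n => (ad_eval (measurableSet_lt measurable_const hφ) n).inter (ad_ND E θ j n))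
        (fun j X k1 k2 => ?_) (ih (g + 1) _ (by positivity))
        ((ih (g + 1) _ hBy).mono (fun _ _ _ h => h) Subset.rfl (by nlinarith))
        (y8.mono (fun j X _ ⟨n, k1, k2⟩ => ⟨n, k1, k2⟩) inter_subset_right le_rfl)
        (by positivity) (by positivity) hε).mono (fun _ _ _ h => h) Subset.rfl ?_
      · obtain ⟨n, k3, k4, k5, k6⟩ := key j X k1 k2
        rcases lt_or_ge (φ y / 2) (φ (X n)) with k7 | k7
        · exact ⟨n, k3, Or.inr ⟨⟨k7, k4⟩, k5, k6⟩⟩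
        · exact ⟨n, k3, Or.inl ⟨fun k8 => k7.not_gt k8.1, k7, k6⟩⟩
      · have : (2 * B) ^ (g + 1) * (φ y / 2 + φ y * (B * ε)) ≤ (2 * B) ^ (g + 1) * a := by
          gcongr; nlinarith
        nlinarith

theorem main_bound (E : Set ℂ) (hE : IsCompact E) (hn : E.Nontrivial) (hd : dimH E < 1) (z : ℂ)
    (hz : z ∉ E) (Ω : Type) [MeasurableSpace Ω] (P : Measure Ω) [IsProbabilityMeasure P] (ε : ℝ)
    (hε : 0 < ε) : ∃ r R θ : ℝ, 0 < θ ∧ θ < r ∧ ∀ᶠ σ in 𝓝[>] (0 : ℝ), ∀ W : Walk P σ,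
      PB W (FE E θ {x | infDist x E ≤ r ∨ R ≤ ‖x‖} univ) {z} ε := by
  obtain ⟨s, hs, hs1⟩ := ENNReal.lt_iff_exists_nnreal_btwn.mp hd
  have hs0 : 0 < (s : ℝ) := by exact_mod_cast (zero_le.trans_lt hs : (0 : ENNReal) < s)
  have hs1 : (s : ℝ) < 1 := by exact_mod_cast hs1
  obtain ⟨k, hk⟩ := exists_nat_ge (5 * s / (1 - s) : ℝ)
  have hk : (k + 5) * (s : ℝ) ≤ k := by
    rw [div_le_iff₀ (by linarith)] at hk; linarith
  obtain ⟨e₁, h₁, e₂, h₂, he⟩ := hn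
  have he : 0 < ‖e₁ - e₂‖ := norm_pos_iff.mpr (sub_ne_zero.mpr he)
  obtain ⟨B, hB⟩ : ∃ B : ℝ, B = 2 ^ (3 * (k + 5) + 2) := ⟨_, rfl⟩
  have hB1 : 1 ≤ B := hB ▸ one_le_pow₀ one_le_two
  obtain ⟨Λ, ⟨q, A, hq, hq1, hA, hst⟩, hΛ⟩ := ((stage (P := P) k
    (show 0 < 1 / (4 * B) by positivity)).and (eventually_ge_atTop 3)).exists
  have hΛ : (3 : ℝ) ≤ Λ := by exact_mod_cast hΛ
  have hΛ0 : (0 : ℝ) < Λ := by linarith
  obtain ⟨g, hg⟩ := exists_pow_lt_of_lt_one (show 0 < ε / 4 by positivity)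
    (show 1 - q < 1 by linarith)
  obtain ⟨δ, hδ, hδ'⟩ : ∃ δ : ℝ, 0 < δ ∧ (Λ : ℝ) ^ δ = 2 :=
    ⟨logb Λ 2, logb_pos (by linarith) one_lt_two, rpow_logb hΛ0 (by linarith) two_pos⟩
  obtain ⟨a, ha, ha'⟩ : ∃ a : ℝ, 0 < a ∧ (2 * B) ^ g * a = ε / 4 :=
    ⟨ε / 4 / (2 * B) ^ g, by positivity, by field_simp⟩
  obtain ⟨v, hv, hv'⟩ : ∃ v : ℝ, 0 < v ∧ v ^ δ = a :=
    ⟨a ^ δ⁻¹, by positivity, rpow_inv_rpow ha.le hδ.ne'⟩
  obtain ⟨D₀, hD, hD'⟩ : ∃ D₀ : ℝ, 0 < D₀ ∧ Λ * D₀ = ‖e₁ - e₂‖ :=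
    ⟨‖e₁ - e₂‖ / Λ, by positivity, by field_simp⟩
  have hz' : 0 < infDist z E := (hE.isClosed.notMem_iff_infDist_pos ⟨e₁, h₁⟩).mp hz
  obtain ⟨r, hr, hr1, hr2⟩ : ∃ r : ℝ, 0 < r ∧ 2 * r < infDist z E ∧ 2 * r / D₀ ≤ v / 2 :=
    ⟨min (infDist z E / 4) (v * D₀ / 4), by positivity, by
      linarith [min_le_left (infDist z E / 4) (v * D₀ / 4)], by
      rw [div_le_iff₀ hD]; linarith [min_le_right (infDist z E / 4) (v * D₀ / 4)]⟩
  obtain ⟨t, p, ρ, hρ, hc, hsum⟩ := small_cover hE hs0 hs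
    (show 0 < v / 2 / (A / r ^ (s : ℝ)) by positivity)
  obtain ⟨r₁, hr₁, hr₁'⟩ : ∃ r₁ : ℝ, 0 < r₁ ∧ ∀ i ∈ t, r₁ ≤ ρ i := by
    obtain ⟨i, hi, -⟩ := mem_iUnion₂.mp (hc h₁)
    obtain ⟨i, -, hi⟩ := t.exists_min_image ρ ⟨i, hi⟩
    exact ⟨ρ i, hρ i, hi⟩
  obtain ⟨r₂, hr₂, hr₃, hr₄⟩ : ∃ r₂ : ℝ, 0 < r₂ ∧ r₂ ≤ r ∧ Λ ^ (k + 6) * r₂ ≤ r₁ :=
    ⟨min r (r₁ / Λ ^ (k + 6)), by positivity, min_le_left _ _,
      (le_div_iff₀' (by positivity)).mp (min_le_right _ _)⟩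
  obtain ⟨θ, hθ, hθ'⟩ : ∃ θ : ℝ, 0 < θ ∧ Λ * θ = r₂ := ⟨r₂ / Λ, by positivity, by field_simp⟩
  have hθ1 : θ < r₂ := by nlinarith
  have hθ2 : Λ ^ (k + 7) * θ ≤ r₁ := by rwa [pow_succ, mul_assoc, hθ']
  obtain ⟨R₀, hR₀⟩ := hE.isBounded.exists_norm_le
  have hb : ∀ x, infDist x E ≤ D₀ → ‖x‖ ≤ R₀ + D₀ := fun x hx => by
    obtain ⟨e, he, h⟩ := hE.exists_infDist_eq_dist ⟨e₁, h₁⟩ x
    linarith [norm_le_norm_add_norm_sub' x e, hR₀ e he, dist_eq_norm x e]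
  obtain ⟨R₁, hR₁, hR₂, hR₃⟩ : ∃ R₁ : ℝ, ‖z - e₁‖ + 1 ≤ R₁ ∧ 2 * r < R₁ ∧
      log (2 * (‖z - e₁‖ + 1) / (2 * r)) / log (2 * R₁ / (2 * r)) < ε / 4 :=
    ((eventually_ge_atTop _).and ((eventually_gt_atTop _).and
      ((tendsto_const_nhds.div_atTop (tendsto_log_atTop.comp ((tendsto_id.const_mul_atTop
        two_pos).atTop_div_const (by positivity)))).eventually_lt_const (by positivity)))).exists
  have hdc := continuous_infDist_pt E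
  set V := pot E s (k + 5) t p ρ A D₀ with hV
  have V0 : ∀ x, 0 ≤ V x := pot_nonneg hρ (by linarith) hD
  have hK : IsCompact ({x | r₁ ≤ infDist x E ∧ infDist x E ≤ D₀} ∩ V ⁻¹' Iic 1) :=
    isCompact_of_isClosed_isBounded (ContinuousOn.preimage_isClosed_of_isClosed
      (fun x hx => (continuousAt_pot hs0.le hρ (hr₁.trans_le hx.1)).continuousWithinAt)
      ((isClosed_le continuous_const hdc).inter (isClosed_le hdc continuous_const)) isClosed_Iic)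
      (isBounded_iff_forall_norm_le.mpr ⟨_, fun x hx => hb x hx.1.2⟩)
  have H : ∀ y ∈ {x | r₁ ≤ infDist x E ∧ infDist x E ≤ D₀} ∩ V ⁻¹' Iic 1, ∃ (D : Set ℂ) (u : ℝ),
      0 < u ∧ ∀ᶠ σ in 𝓝[>] (0 : ℝ), ∀ W : Walk P σ,
      MeasurableSet (ball y u) ∧ MeasurableSet D ∧ Disjoint (ball y u) D ∧
      {x | infDist x E ≤ r₂ ∨ R₀ + D₀ + Λ * D₀ + R₁ ≤ ‖x‖} ⊆ D ∧ 0 ≤ V y ^ δ ∧
      (∀ x ∈ ball y u, 3 / 4 * V y ^ δ ≤ V x ^ δ) ∧
      (∀ w ∉ D, ∀ x, ‖x - w‖ ≤ θ → V x ^ δ ≤ B * V y ^ δ) ∧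
      (PB W (FE E θ D univ) (ball y u) (1 - q) ∨
        PB W (FE E θ D {x | V y ^ δ / 2 < V x ^ δ}) (ball y u) (1 / (4 * B))) := by
    rintro y ⟨⟨y1, y2⟩, y3⟩
    have y0 := hr₁.trans_le y1
    obtain ⟨D, d1, d2, d3⟩ := hst E hE e₁ h₁ e₂ h₂ s hs0.le hk t p ρ hρ D₀ hD hD'.le y θ y0 y2 y3
      (hθ2.trans y1)
    have V1 : 0 < V y ^ δ := rpow_pos_of_pos (pot_pos hρ (by linarith) hD y0) δ
    have e1 : ∀ᶠ x in 𝓝 y, 3 / 4 * V y ^ δ < V x ^ δ := continuousAt_const.eventually_lt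
      ((continuousAt_pot hs0.le hρ y0).rpow_const (Or.inr hδ.le)) (by linarith)
    obtain ⟨u, u1, ⟨u2, u3⟩, u4⟩ := (((eventually_ball_subset e1).filter_mono
      nhdsWithin_le_nhds).and (d3.and self_mem_nhdsWithin)).exists
    refine ⟨D, u, u4, u3.mono fun σ hσ W => ⟨measurableSet_ball, d1, u2, fun x hx => ?_, V1.le,
      fun x hx => (u1 hx).le, fun w hw x hx => ?_, (hσ W).imp_right fun h => h.mono ?_
        Subset.rfl le_rfl⟩⟩
    · by_contra h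
      obtain ⟨h1, h2⟩ := d2 x h
      rcases hx with hx | hx
      · have : Λ ^ (k + 6) * infDist x E ≤ Λ ^ (k + 6) * r₂ := by gcongr
        linarith
      · have : Λ * infDist y E ≤ Λ * D₀ := by gcongr
        linarith [hb y y2, norm_le_norm_add_norm_sub' x y]
    · obtain ⟨h1, h2⟩ := d2 w hw
      have h3 : (1 : ℝ) ≤ Λ ^ (k + 7) := one_le_pow₀ (by linarith)
      have h4 := infDist_le_add E w x
      rw [norm_sub_rev] at h4
      have h5 := pot_grow (t := t) (p := p) (N := k + 5) hs0.le hs1.le hρ (by linarith : 0 ≤ A) hD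
        hΛ y0 (x := x) (by
          have h6 : Λ ^ (k + 7) * infDist w E ≤ Λ ^ (k + 7) * (infDist x E + θ) := by
            gcongr; linarith
          have h7 := mul_lt_mul_of_pos_left h1 hΛ0
          rw [← mul_assoc, ← pow_succ'] at h7
          nlinarith) (by nlinarith [norm_sub_le_norm_sub_add_norm_sub x w y])
      refine (rpow_le_rpow (V0 x) h5 hδ.le).trans_eq ?_
      rw [mul_rpow (by positivity) (V0 y), ← rpow_pow_comm hΛ0.le, hδ', hB]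
    · rintro j X - ⟨n, k1, k2, k3⟩
      refine ⟨n, k1, not_le.mp fun h => k2.not_ge ((rpow_le_rpow (V0 _) h hδ.le).trans_eq ?_), k3⟩
      rw [div_rpow (V0 y) hΛ0.le, hδ']
  choose! D u hu H using H
  obtain ⟨T, hT, hT'⟩ := hK.elim_nhds_subcover (fun y => ball y (u y))
    fun y hy => ball_mem_nhds y (hu y hy)
  refine ⟨r₂, R₀ + D₀ + Λ * D₀ + R₁, θ, hθ, hθ1, ?_⟩
  filter_upwards [(eventually_all_finset T).mpr fun y hy => H y (hT y hy),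
    barrier (P := P) (show 0 < 2 * r by positivity) hR₁ hR₂ (show 0 < ε / 4 by positivity)]
    with σ h1 h2 W
  have h3 := induct (W := W) (φ := fun x => V x ^ δ) (measurable_pot.pow_const δ) hB1 hq.le hq1
    (by positivity) (le_of_eq (by field_simp)) T.finite_toSet (fun y => ball y (u y)) D
    (fun x hx => hT' (by
      have h4 : V x < 1 := not_le.mp fun h => hx.not_ge (one_le_rpow h hδ.le)
      have h5 := fun h => h4.not_ge (one_le_pot hE ⟨e₁, h₁⟩ hs1.le hρ hA hD hc h)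
      exact ⟨⟨not_lt.mp fun h => h5 (Or.inl fun i hi => h.le.trans (hr₁' i hi)),
        not_lt.mp fun h => h5 (Or.inr h.le)⟩, h4.le⟩)) (fun y hy => h1 y hy W) g ha.le
  have m1 : MeasurableSet {x | infDist x E ≤ 2 * r ∨ R₁ ≤ ‖x - e₁‖} :=
    meas_or hdc continuous_const continuous_const (by fun_prop)
  have hl : 0 ≤ log (2 * (‖z - e₁‖ + 1) / (2 * r)) / log (2 * R₁ / (2 * r)) := by
    have := (infDist_le_dist_of_mem (x := z) h₁).trans_eq (dist_eq_norm _ _)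
    refine div_nonneg (log_nonneg ?_) (log_nonneg ?_) <;> rw [le_div_iff₀ (by positivity)] <;>
      linarith
  have hg0 := pow_nonneg (sub_nonneg.mpr hq1) g
  refine (PB.comp (S₂ := univ) (G := fun _ n => {X | X n ∈ (ball e₁ R₁)ᶜ}) (b := 1)
    (A₂ := FE E θ {x | infDist x E ≤ r₂ ∨ R₀ + D₀ + Λ * D₀ + R₁ ≤ ‖x‖} univ) m1
    (measurableSet_le (measurable_pot.pow_const δ) measurable_const) MeasurableSet.univ
    (fun _ n => ad_eval measurableSet_ball.compl n) ?_ h3 (PB.one (by linarith))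
    ((h2 W e₁ _ m1 fun x hx => hx.imp (fun h => (infDist_le_dist_of_mem h₁).trans h.le)
      fun h => not_lt.mp fun h' => h (mem_ball_iff_norm.mpr h')).mono (S := {z}) (fun _ _ _ h => h)
      (singleton_subset_iff.mpr (mem_ball_iff_norm.mpr (lt_add_one _))) le_rfl)
    (by linarith) zero_le_one (by linarith)).mono (fun _ _ _ h => h) Subset.rfl (by linarith)
  rintro j X hj ⟨n, k1, -, k3⟩
  obtain ⟨n', k4, k5⟩ := exists_FH (D := {x | infDist x E ≤ 2 * r ∨ R₁ ≤ ‖x - e₁‖}) k1.1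
    (k1.2.1.imp (fun h => by linarith) fun h => by
      linarith [norm_le_norm_add_norm_sub' (X n) e₁, hR₀ e₁ h₁, mul_pos hΛ0 hD])
  have k6 : X ∈ FE E θ {x | infDist x E ≤ r₂ ∨ R₀ + D₀ + Λ * D₀ + R₁ ≤ ‖x‖} univ n' :=
    ⟨n, FH.later k1 k5.1 k4, trivial, ND.mono k3 k5.1 le_rfl⟩
  refine ⟨n', k5, ?_⟩
  by_cases k7 : X n' ∈ ball e₁ R₁
  · refine Or.inl ⟨not_not.mpr k7, ?_, k6⟩
    obtain ⟨w, w1, w2⟩ := FH.step k5 (by
      rw [mem_singleton_iff.mp hj]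
      exact fun h => h.elim hr1.not_ge fun h => by linarith) k3 k4
    have w3 := infDist_le_add E w (X n')
    rw [norm_sub_rev] at w3
    have w4 : 2 * r < infDist w E := not_le.mp fun h => w1 (Or.inl h)
    have w5 := pot_le (N := k + 5) (t := t) (p := p) hs0.le hρ (by linarith : 0 ≤ A) hD hr
      (x := X n') (by linarith) (k5.2.1.resolve_right (mem_ball_iff_norm.mp k7).not_ge)
    rw [le_div_iff₀' (by positivity)] at hsum
    exact (rpow_le_rpow (V0 _) (by linarith) hδ.le).trans_eq hv'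
  · exact Or.inr ⟨k7, trivial, k6⟩

end Pool.Agent.P.MP_677d31_pr
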