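import Pool.Agent.P.MP_677d31_pr.Defs

set_option autoImplicit false

namespace Pool.Agent.P.MP_677d31_pr

open Set Metric Filter Topology

namespace RM

lemma exists_sqrt {Ω : Set ℂ} (ho : IsOpen Ω) (hl : HasLogs Ω) {F : ℂ → ℂ}
    (hF : DifferentiableOn ℂ F Ω) (h0 : ∀ w ∈ Ω, F w ≠ 0) :
    ∃ s : ℂ → ℂ, ∀ w ∈ Ω, s w ^ 2 = F w ∧ s w ≠ 0 ∧ HasDerivAt s (deriv F w / (2 * s w)) w := by
  obtain ⟨L, hL, hLe⟩ := hl F hF.continuousOn h0
  have h1 : ∀ w ∈ Ω, Complex.exp (L w / 2) ^ 2 = F w := fun w hw => by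
    rw [← Complex.exp_nat_mul, ← hLe w hw]; congr 1; push_cast; ring
  refine ⟨fun w => Complex.exp (L w / 2), fun w hw => ⟨h1 w hw, Complex.exp_ne_zero _, ?_⟩⟩
  have hc : ContinuousAt (fun w => Complex.exp (L w / 2)) w :=
    ((hL.continuousAt (ho.mem_nhds hw)).div_const 2).cexp
  refine HasDerivAt.of_comp_left (f := fun z => z ^ 2) hc ?_
    (hF.differentiableAt (ho.mem_nhds hw)).hasDerivAt
    (mul_ne_zero two_ne_zero (Complex.exp_ne_zero _)) ?_
  · simpa using hasDerivAt_pow 2 (Complex.exp (L w / 2))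
  · filter_upwards [ho.mem_nhds hw] with u hu using h1 u hu

lemma hurwitz {ι : Type*} {p : Filter ι} [p.NeBot] {U : Set ℂ} (ho : IsOpen U) {g : ι → ℂ → ℂ}
    {f : ℂ → ℂ} (ht : TendstoLocallyUniformlyOn g f p U)
    (hd : ∀ n, DifferentiableOn ℂ (g n) U) (h0 : ∀ n, ∀ w ∈ U, g n w ≠ 0) {z : ℂ} (hz : z ∈ U)
    (hfz : f z = 0) : ∀ᶠ w in 𝓝 z, f w = 0 := by
  have hf : DifferentiableOn ℂ f U := ht.differentiableOn (Eventually.of_forall hd) ho
  rcases (hf.analyticAt (ho.mem_nhds hz)).eventually_eq_zero_or_eventually_ne_zero with h | h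
  · exact h
  exfalso
  rw [eventually_nhdsWithin_iff] at h
  obtain ⟨r, hr, hb⟩ := nhds_basis_closedBall.mem_iff.1 (inter_mem h (ho.mem_nhds hz))
  have hbU : closedBall z r ⊆ U := fun w hw => (hb hw).2
  obtain ⟨w₀, hw₀, hm⟩ := (isCompact_sphere z r).exists_isMinOn (NormedSpace.sphere_nonempty.2 hr.le)
    (hf.continuousOn.mono (sphere_subset_closedBall.trans hbU)).norm
  have hm0 : 0 < ‖f w₀‖ := norm_pos_iff.2 ((hb (sphere_subset_closedBall hw₀)).1
    (ne_of_mem_sphere hw₀ hr.ne'))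
  have hu := (tendstoLocallyUniformlyOn_iff_tendstoUniformlyOn_of_compact
    (isCompact_closedBall z r)).1 (ht.mono hbU)
  obtain ⟨n, hn⟩ := (Metric.tendstoUniformlyOn_iff.1 hu (‖f w₀‖ / 2) (by positivity)).exists
  have hdc : DiffContOnCl ℂ (fun w => (g n w)⁻¹) (ball z r) := by
    apply DifferentiableOn.diffContOnCl
    rw [closure_ball z hr.ne']
    exact ((hd n).mono hbU).inv fun w hw => h0 n w (hbU hw)
  have key := Complex.norm_le_of_forall_mem_frontier_norm_le isBounded_ball hdc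
    (C := (‖f w₀‖ / 2)⁻¹) (fun w hw => by
      rw [frontier_ball z hr.ne'] at hw
      have e1 := hn w (sphere_subset_closedBall hw)
      have e2 : ‖f w₀‖ ≤ ‖f w‖ := hm hw
      have e3 := norm_sub_norm_le (f w) (g n w)
      rw [dist_eq_norm] at e1
      rw [norm_inv]
      exact inv_anti₀ (by positivity) (by linarith))
    (subset_closure (mem_ball_self hr))
  have e1 := hn z (mem_closedBall_self hr.le)
  rw [hfz, dist_comm, dist_zero_right] at e1
  rw [norm_inv, inv_le_inv₀ (norm_pos_iff.2 (h0 n z hz)) (by positivity)] at key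
  linarith

/-- disc automorphism -/
noncomputable def mob (a z : ℂ) : ℂ := (z - a) / (1 - (starRingEnd ℂ) a * z)

lemma mob_den {a z : ℂ} (ha : ‖a‖ < 1) (hz : ‖z‖ < 1) : 1 - (starRingEnd ℂ) a * z ≠ 0 := by
  intro h
  have e : ‖(starRingEnd ℂ) a * z‖ = 1 := by rw [← sub_eq_zero.1 h, norm_one]
  rw [norm_mul, Complex.norm_conj] at e
  nlinarith [norm_nonneg a, norm_nonneg z]

lemma mob_lt {a z : ℂ} (ha : ‖a‖ < 1) (hz : ‖z‖ < 1) : ‖mob a z‖ < 1 := by
  rw [mob, norm_div, div_lt_one (norm_pos_iff.2 (mob_den ha hz))]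
  apply lt_of_pow_lt_pow_left₀ 2 (norm_nonneg _)
  have h1 : ‖a‖ ^ 2 < 1 := by nlinarith [norm_nonneg a]
  have h2 : ‖z‖ ^ 2 < 1 := by nlinarith [norm_nonneg z]
  have h3 := mul_pos (sub_pos.2 h1) (sub_pos.2 h2)
  simp only [Complex.sq_norm, Complex.normSq_apply] at h3 ⊢
  simp
  nlinarith

lemma mob_deriv {a z : ℂ} (ha : ‖a‖ < 1) (hz : ‖z‖ < 1) :
    HasDerivAt (mob a) ((1 - (starRingEnd ℂ) a * a) / (1 - (starRingEnd ℂ) a * z) ^ 2) z := by
  have := ((hasDerivAt_id z).sub_const a).div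
    (((hasDerivAt_id z).const_mul ((starRingEnd ℂ) a)).const_sub 1) (mob_den ha hz)
  refine this.congr_deriv ?_
  simp only [id]
  congr 1
  ring

lemma mob_inj {a z w : ℂ} (ha : ‖a‖ < 1) (hz : ‖z‖ < 1) (hw : ‖w‖ < 1) (h : mob a z = mob a w) :
    z = w := by
  rw [mob, mob, div_eq_div_iff (mob_den ha hz) (mob_den ha hw)] at h
  have : (1 - (starRingEnd ℂ) a * a) * (z - w) = 0 := by linear_combination h
  exact sub_eq_zero.1 ((mul_eq_zero.1 this).resolve_left (mob_den ha ha))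

lemma norm_den {a : ℂ} (ha : ‖a‖ < 1) : ‖1 - (starRingEnd ℂ) a * a‖ = 1 - ‖a‖ ^ 2 := by
  rw [Complex.conj_mul', ← Complex.ofReal_pow, ← Complex.ofReal_one, ← Complex.ofReal_sub,
    Complex.norm_real, Real.norm_of_nonneg (by nlinarith [norm_nonneg a])]

/-- the competing family -/
structure Fam (Ω : Set ℂ) (y : ℂ) (f : ℂ → ℂ) : Prop where
  diff : DifferentiableOn ℂ f Ω
  inj : InjOn f Ω
  maps : ∀ w ∈ Ω, ‖f w‖ < 1
  zero : f y = 0
  der : ∀ w ∈ Ω, deriv f w ≠ 0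

lemma improve {Ω : Set ℂ} (ho : IsOpen Ω) (hl : HasLogs Ω) {y : ℂ} (hy : y ∈ Ω) {f : ℂ → ℂ}
    (hf : Fam Ω y f) {a : ℂ} (ha : ‖a‖ < 1) (hna : ∀ w ∈ Ω, f w ≠ a) :
    ∃ g, Fam Ω y g ∧ ‖deriv f y‖ < ‖deriv g y‖ := by
  have dF : ∀ w ∈ Ω, HasDerivAt (fun w => mob a (f w))
      ((1 - (starRingEnd ℂ) a * a) / (1 - (starRingEnd ℂ) a * f w) ^ 2 * deriv f w) w :=
    fun w hw => (mob_deriv ha (hf.maps w hw)).comp w
      (hf.diff.differentiableAt (ho.mem_nhds hw)).hasDerivAt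
  obtain ⟨s, hs⟩ := exists_sqrt ho hl (F := fun w => mob a (f w))
    (fun w hw => (dF w hw).differentiableAt.differentiableWithinAt)
    (fun w hw => div_ne_zero (sub_ne_zero.2 (hna w hw)) (mob_den ha (hf.maps w hw)))
  have s1 : ∀ w ∈ Ω, ‖s w‖ < 1 := fun w hw => by
    have := mob_lt ha (hf.maps w hw)
    rw [← (hs w hw).1, norm_pow] at this
    nlinarith [norm_nonneg (s w)]
  have dG : ∀ w ∈ Ω, HasDerivAt (fun w => mob (s y) (s w))
      ((1 - (starRingEnd ℂ) (s y) * s y) / (1 - (starRingEnd ℂ) (s y) * s w) ^ 2 *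
        ((1 - (starRingEnd ℂ) a * a) / (1 - (starRingEnd ℂ) a * f w) ^ 2 * deriv f w /
          (2 * s w))) w := fun w hw => by
    have := (mob_deriv (s1 y hy) (s1 w hw)).comp w (hs w hw).2.2
    rwa [(dF w hw).deriv] at this
  refine ⟨fun w => mob (s y) (s w), ⟨fun w hw => (dG w hw).differentiableAt.differentiableWithinAt,
    fun u hu w hw h => ?_, fun w hw => mob_lt (s1 y hy) (s1 w hw), by simp [mob],
    fun w hw => ?_⟩, ?_⟩
  · have h1 := mob_inj (s1 y hy) (s1 u hu) (s1 w hw) h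
    have h2 : mob a (f u) = mob a (f w) := by rw [← (hs u hu).1, ← (hs w hw).1, h1]
    exact hf.inj hu hw (mob_inj ha (hf.maps u hu) (hf.maps w hw) h2)
  · rw [(dG w hw).deriv]
    exact mul_ne_zero (div_ne_zero (mob_den (s1 y hy) (s1 y hy))
      (pow_ne_zero _ (mob_den (s1 y hy) (s1 w hw)))) (div_ne_zero (mul_ne_zero
      (div_ne_zero (mob_den ha ha) (pow_ne_zero _ (mob_den ha (hf.maps w hw)))) (hf.der w hw))
      (mul_ne_zero two_ne_zero (hs w hw).2.1))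
  · rw [(dG y hy).deriv, hf.zero]
    have hb : ‖s y‖ ^ 2 = ‖a‖ := by
      rw [← norm_pow, (hs y hy).1, hf.zero]; simp [mob]
    have b0 : 0 < ‖s y‖ := norm_pos_iff.2 (hs y hy).2.1
    have b1 := s1 y hy
    have d0 : 0 < ‖deriv f y‖ := norm_pos_iff.2 (hf.der y hy)
    simp only [norm_mul, norm_div, norm_pow, norm_den ha, norm_den b1, mul_zero, sub_zero,
      one_pow, div_one, Complex.norm_two, ← hb]
    have c0 : 0 < 1 - ‖s y‖ ^ 2 := by nlinarith
    have e : (1 - ‖s y‖ ^ 2) / (1 - ‖s y‖ ^ 2) ^ 2 *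
        ((1 - (‖s y‖ ^ 2) ^ 2) * ‖deriv f y‖ / (2 * ‖s y‖)) =
        (1 + ‖s y‖ ^ 2) * ‖deriv f y‖ / (2 * ‖s y‖) := by
      field_simp
      ring
    rw [e, lt_div_iff₀ (by positivity)]
    nlinarith [mul_pos d0 (pow_pos (sub_pos.2 b1) 2)]

lemma lip {Ω : Set ℂ} {f : ℂ → ℂ} (hm : ∀ w ∈ Ω, ‖f w‖ < 1)
    {x : ℂ} {r : ℝ} (hb : ball x r ⊆ Ω) (hr : 0 < r) :
    MapsTo f (ball x r) (closedBall (f x) 2) := fun w hw => by
  rw [mem_closedBall, dist_eq_norm]
  linarith [norm_sub_le (f w) (f x), hm w (hb hw), hm x (hb (mem_ball_self hr))]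

lemma exists_max {Ω : Set ℂ} (ho : IsOpen Ω) (hc : IsPreconnected Ω) {y : ℂ} (hy : y ∈ Ω)
    {f₀ : ℂ → ℂ} (h₀ : Fam Ω y f₀) :
    ∃ f, Fam Ω y f ∧ ∀ g, Fam Ω y g → ‖deriv g y‖ ≤ ‖deriv f y‖ := by
  set T : Set ℝ := {t | ∃ g, Fam Ω y g ∧ ‖deriv g y‖ = t} with hT
  obtain ⟨r₀, hr₀, hb₀⟩ := Metric.isOpen_iff.1 ho y hy
  have hbdd : BddAbove T := ⟨2 / r₀, by
    rintro _ ⟨g, hg, rfl⟩
    exact Complex.norm_deriv_le_div_of_mapsTo_ball (hg.diff.mono hb₀)
      (lip hg.maps hb₀ hr₀) hr₀⟩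
  obtain ⟨u, -, hu, huT⟩ := exists_seq_tendsto_sSup (show T.Nonempty from ⟨_, f₀, h₀, rfl⟩) hbdd
  choose g hg hgu using huT
  set p : Ultrafilter ℕ := Ultrafilter.of atTop with hp
  have hex : ∀ w ∈ Ω, ∃ c, ‖c‖ ≤ 1 ∧ Tendsto (fun n => g n w) p (𝓝 c) := fun w hw => by
    obtain ⟨c, hc1, hc2⟩ := (isCompact_closedBall (0 : ℂ) 1).ultrafilter_le_nhds
      (p.map fun n => g n w) (by
        rw [le_principal_iff, Ultrafilter.coe_map, mem_map]
        exact Eventually.of_forall fun n => mem_closedBall_zero_iff.2 ((hg n).maps w hw).le)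
    exact ⟨c, mem_closedBall_zero_iff.1 hc1, hc2⟩
  choose! f hf1 hf2 using hex
  have ht : TendstoLocallyUniformlyOn g f p Ω := by
    rw [Metric.tendstoLocallyUniformlyOn_iff]
    intro ε hε x hx
    obtain ⟨r, hr, hb⟩ := Metric.isOpen_iff.1 ho x hx
    refine ⟨ball x (min r (ε * r / 8)), mem_nhdsWithin_of_mem_nhds (ball_mem_nhds _
      (lt_min hr (by positivity))), ?_⟩
    filter_upwards [Metric.tendsto_nhds.1 (hf2 x hx) (ε / 4) (by positivity)] with n hn w hw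
    rw [mem_ball, lt_min_iff] at hw
    have e1 : ∀ m, dist (g m w) (g m x) ≤ ε / 4 := fun m => by
      refine (Complex.dist_le_div_mul_dist_of_mapsTo_ball ((hg m).diff.mono hb)
        (lip (hg m).maps hb hr) hw.1).trans ?_
      rw [div_mul_eq_mul_div, div_le_iff₀ hr]
      linarith [hw.2]
    have e2 : dist (f w) (f x) ≤ ε / 4 :=
      le_of_tendsto' ((hf2 w (hb hw.1)).dist (hf2 x hx)) e1
    have e3 := dist_triangle4 (f w) (f x) (g n x) (g n w)
    rw [dist_comm] at hn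
    have e4 := e1 n
    rw [dist_comm] at e4
    linarith
  have hd : DifferentiableOn ℂ f Ω :=
    ht.differentiableOn (Eventually.of_forall fun n => (hg n).diff) ho
  have ht' := ht.deriv (Eventually.of_forall fun n => (hg n).diff) ho
  have hM : ‖deriv f y‖ = sSup T := by
    have e1 := (ht'.tendsto_at hy).norm
    simp only [Function.comp, hgu] at e1
    exact tendsto_nhds_unique e1 (hu.mono_left (Ultrafilter.of_le _))
  have hle : ∀ g, Fam Ω y g → ‖deriv g y‖ ≤ ‖deriv f y‖ := fun g hg =>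
    hM ▸ le_csSup hbdd ⟨g, hg, rfl⟩
  have hy0 : deriv f y ≠ 0 := norm_pos_iff.1 ((norm_pos_iff.2 (h₀.der y hy)).trans_le (hle _ h₀))
  have hz : f y = 0 := by
    have := hf2 y hy
    simp only [(hg _).zero] at this
    exact tendsto_nhds_unique this tendsto_const_nhds
  have hA := hd.analyticOnNhd ho
  have nc : ∀ c : ℂ, ¬ EqOn f (fun _ => c) Ω := fun c h => by
    have : f =ᶠ[𝓝 y] fun _ => c := by filter_upwards [ho.mem_nhds hy] with w hw using h hw
    exact hy0 (by rw [this.deriv_eq]; simp)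
  refine ⟨f, ⟨hd, fun u hu w hw h => ?_, fun w hw => ?_, hz, fun w hw h => ?_⟩, hle⟩
  · by_contra hne
    have h1 := hurwitz (p := p) (ho.sdiff isClosed_singleton (t := {w}))
      (g := fun n v => g n v - g n w) (f := fun v => f v - f w)
      ((ht.mono sdiff_subset).sub (((hf2 w hw).tendstoUniformlyOn_const _).tendstoLocallyUniformlyOn))
      (fun n => ((hg n).diff.mono sdiff_subset).sub_const _)
      (fun n v hv e => hv.2 ((hg n).inj hv.1 hw (sub_eq_zero.1 e))) ⟨hu, hne⟩ (sub_eq_zero.2 h)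
    exact nc (f w) (hA.eqOn_of_preconnected_of_eventuallyEq analyticOnNhd_const hc hu
      (h1.mono fun v hv => sub_eq_zero.1 hv))
  · refine lt_of_le_of_ne (hf1 w hw) fun h => nc (f w) ?_
    exact Complex.eqOn_of_isPreconnected_of_isMaxOn_norm hc ho hd hw fun v hv => by
      simpa [h] using hf1 v hv
  · have h1 := hurwitz (p := p) ho ht' (fun n => (hg n).diff.deriv ho) (fun n => (hg n).der) hw h
    exact hy0 (hA.deriv.eqOn_zero_of_preconnected_of_eventuallyEq_zero hc hw h1 hy)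

lemma koebe {Ω : Set ℂ} (ho : IsOpen Ω) (hl : HasLogs Ω) (hne : Ωᶜ.Nonempty) {y : ℂ} {f : ℂ → ℂ}
    (hf : Fam Ω y f) (hs : ∀ a : ℂ, ‖a‖ < 1 → ∃ w ∈ Ω, f w = a) {w : ℂ} (hw : w ∈ Ω) :
    1 - ‖f w‖ ≤ 64 * infDist w Ωᶜ * ‖deriv f w‖ := by
  obtain ⟨e, he, hed⟩ := ho.isClosed_compl.exists_infDist_eq_dist hne w
  have hb : ball w (dist w e) ⊆ Ω := hed ▸ ball_infDist_compl_subset
  have hwe : ∀ u ∈ Ω, u - e ≠ 0 := fun u hu h => he (sub_eq_zero.1 h ▸ hu)
  have hd0 : 0 < ‖w - e‖ := norm_pos_iff.2 (hwe w hw)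
  rw [dist_eq_norm] at hb hed
  have dF : ∀ u, HasDerivAt (fun u => (u - e) / (w - e)) (1 / (w - e)) u := fun u =>
    ((hasDerivAt_id u).sub_const e).div_const _
  obtain ⟨s₀, hs₀⟩ := exists_sqrt ho hl (F := fun u => (u - e) / (w - e))
    (fun u _ => (dF u).differentiableAt.differentiableWithinAt)
    (fun u hu => div_ne_zero (hwe u hu) (hwe w hw))
  have hw1 : s₀ w ^ 2 = 1 := by rw [(hs₀ w hw).1, div_self (hwe w hw)]
  set s : ℂ → ℂ := fun u => s₀ w * s₀ u with hsdef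
  have s1 : ∀ u ∈ Ω, s u ^ 2 - 1 = (u - w) / (w - e) := fun u hu => by
    rw [hsdef, mul_pow, hw1, (hs₀ u hu).1]
    have := hwe w hw
    field_simp
    ring
  have s2 : s w = 1 := by rw [← hw1, sq]
  have s3 : ∀ u ∈ Ω, HasDerivAt s (s₀ w * (1 / (w - e) / (2 * s₀ u))) u := fun u hu => by
    have := (hs₀ u hu).2.2.const_mul (s₀ w)
    rwa [(dF u).deriv] at this
  have s4 : ∀ u ∈ ball w ‖w - e‖, (s u).re ≠ 0 := fun u hu h => by
    have e1 : ‖s u ^ 2 - 1‖ < 1 := by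
      rw [s1 u (hb hu), norm_div, div_lt_one hd0]
      exact mem_ball_iff_norm.1 hu
    have e2 := Complex.abs_re_le_norm (s u ^ 2 - 1)
    have e3 := neg_abs_le (s u ^ 2 - 1).re
    have e4 : (s u ^ 2 - 1).re = -(s u).im ^ 2 - 1 := by simp [sq, h]
    nlinarith [sq_nonneg (s u).im]
  have s5 : ∀ u ∈ Ω, 1 / 4 ≤ ‖s u + 1‖ := fun u hu => by
    by_contra h
    push Not at h
    have e1 : ‖s u - 1‖ ≤ ‖s u + 1‖ + 2 := by
      have := norm_sub_le (s u + 1) 2
      rwa [show s u + 1 - 2 = s u - 1 by ring, Complex.norm_two] at this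
    have e2 : ‖s u ^ 2 - 1‖ < 1 := by
      rw [show s u ^ 2 - 1 = (s u + 1) * (s u - 1) by ring, norm_mul]
      nlinarith [norm_nonneg (s u + 1), norm_nonneg (s u - 1)]
    rw [s1 u hu, norm_div, div_lt_one hd0] at e2
    have e3 : (s u).re ≤ 0 := by
      have := (le_abs_self _).trans (Complex.abs_re_le_norm (s u + 1))
      simp only [Complex.add_re, Complex.one_re] at this
      linarith
    obtain ⟨v, hv, hv0⟩ := (convex_ball w ‖w - e‖).isPreconnected.intermediate_value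
      (mem_ball_iff_norm.2 e2) (mem_ball_self hd0) (f := fun u => (s u).re)
      (Complex.continuous_re.comp_continuousOn fun v hv =>
        (s3 v (hb hv)).continuousAt.continuousWithinAt) (show (0 : ℝ) ∈ _ from ⟨e3, by simp [s2]⟩)
    exact s4 v hv hv0
  have s6 : ∀ u ∈ Ω, s u + 1 ≠ 0 := fun u hu => norm_pos_iff.1 (by linarith [s5 u hu])
  have s7 : ∀ u ∈ Ω, ‖(s u + 1)⁻¹‖ ≤ 4 := fun u hu => by
    rw [norm_inv, inv_le_comm₀ (by linarith [s5 u hu]) (by norm_num)]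
    linarith [s5 u hu]
  have : Nonempty ℂ := ⟨0⟩
  set j := Function.invFunOn f Ω with hj
  have j1 : ∀ u ∈ Ω, j (f u) = u := fun u hu => hf.inj.leftInvOn_invFunOn hu
  have dh : ∀ u ∈ Ω, HasDerivAt (fun a => (s (j a) + 1)⁻¹)
      (-(s₀ w * (1 / (w - e) / (2 * s₀ u))) / (s u + 1) ^ 2 * (deriv f u)⁻¹) (f u) := by
    intro u hu
    have e1 := ((hf.diff.analyticAt (ho.mem_nhds hu)).hasStrictDerivAt.to_local_left_inverse
      (hf.der u hu) (g := j) (by filter_upwards [ho.mem_nhds hu] with v hv using j1 v hv)).hasDerivAt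
    have e2 := ((s3 u hu).add_const 1).inv (s6 u hu)
    rw [← j1 u hu] at e2
    have e3 := e2.comp (f u) e1
    rw [j1 u hu] at e3
    exact e3
  have hr : 0 < 1 - ‖f w‖ := sub_pos.2 (hf.maps w hw)
  have hball : ∀ a ∈ ball (f w) (1 - ‖f w‖), ∃ u ∈ Ω, f u = a := fun a ha => hs a (by
    have := norm_add_le (a - f w) (f w)
    rw [sub_add_cancel] at this
    linarith [mem_ball_iff_norm.1 ha])
  have key := Complex.norm_deriv_le_div_of_mapsTo_ball (f := fun a => (s (j a) + 1)⁻¹)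
    (R₂ := 8) (fun a ha => by
      obtain ⟨u, hu, rfl⟩ := hball a ha
      exact (dh u hu).differentiableAt.differentiableWithinAt) (fun a ha => by
      obtain ⟨u, hu, rfl⟩ := hball a ha
      simp only [mem_closedBall, dist_eq_norm, j1 u hu, j1 w hw]
      linarith [norm_sub_le (s u + 1)⁻¹ (s w + 1)⁻¹, s7 u hu, s7 w hw]) hr
  have d0 : 0 < ‖deriv f w‖ := norm_pos_iff.2 (hf.der w hw)
  have e : -(s₀ w * (1 / (w - e) / (2 * s₀ w))) / (s w + 1) ^ 2 * (deriv f w)⁻¹ =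
      -(8 * (w - e) * deriv f w)⁻¹ := by
    have := (hs₀ w hw).2.1
    have := hwe w hw
    have := hf.der w hw
    rw [s2]
    field_simp
    ring
  rw [(dh w hw).deriv, e, norm_neg, norm_inv, norm_mul, norm_mul, le_div_iff₀ hr,
    Complex.norm_ofNat, inv_mul_le_iff₀ (mul_pos (mul_pos (by norm_num) hd0) d0)] at key
  rw [hed]
  linarith

end RM

/-- Riemann mapping with a weak Koebe bound -/
theorem riemann {Ω : Set ℂ} (ho : IsOpen Ω) (hc : IsPreconnected Ω) {y : ℂ} (hy : y ∈ Ω) {R : ℝ}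
    (hb : Ω ⊆ ball y R) (hl : HasLogs Ω) : ∃ ψ : ℂ → ℂ, Conf Ω ψ ∧ ψ y = 0 := by
  have hR : 0 < R := nonempty_ball.1 ⟨y, hb hy⟩
  have hR' : (R : ℂ) ≠ 0 := by exact_mod_cast hR.ne'
  have d0 : ∀ u, HasDerivAt (fun u => (u - y) / (R : ℂ)) (1 / R) u := fun u =>
    ((hasDerivAt_id u).sub_const y).div_const _
  have h₀ : RM.Fam Ω y (fun u => (u - y) / (R : ℂ)) :=
    ⟨fun u _ => (d0 u).differentiableAt.differentiableWithinAt,
      fun u _ w _ h => by simpa [hR'] using h,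
      fun u hu => by
        rw [norm_div, Complex.norm_real, Real.norm_of_nonneg hR.le, div_lt_one hR]
        exact mem_ball_iff_norm.1 (hb hu),
      by simp, fun u _ => by rw [(d0 u).deriv]; simpa using hR'⟩
  obtain ⟨f, hf, hmax⟩ := RM.exists_max ho hc hy h₀
  have hne : Ωᶜ.Nonempty := ⟨y + R, fun h => by
    have := mem_ball_iff_norm.1 (hb h)
    simp [abs_of_pos hR] at this⟩
  have hs : ∀ a : ℂ, ‖a‖ < 1 → ∃ w ∈ Ω, f w = a := fun a ha => by
    by_contra h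
    push Not at h
    obtain ⟨g, hg, hlt⟩ := RM.improve ho hl hy hf ha h
    exact absurd (hmax g hg) (not_le.2 hlt)
  exact ⟨f, ⟨ho, hne, hf.diff, hf.maps, hf.der, fun w hw => RM.koebe ho hl hne hf hs hw⟩, hf.zero⟩

end Pool.Agent.P.MP_677d31_pr
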