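import Pool.Agent.P.MP_677d31_pr.Chain
import Pool.Agent.P.MP_677d31_pr.Riemann

set_option autoImplicit false

namespace Pool.Agent.P.MP_677d31_pr

open Set Metric MeasureTheory Filter Topology Real RM

theorem mak_abs_log {u : ℂ} {δ : ℝ} (h : ‖u - 1‖ ≤ δ) (hδ : δ ≤ 1 / 2) :
    |log ‖u‖| ≤ 2 * δ := by
  have h0 : 0 ≤ δ := (norm_nonneg _).trans h
  have h1 : |‖u‖ - 1| ≤ δ := by
    simpa using (abs_norm_sub_norm_le u 1).trans h
  obtain ⟨h2, h3⟩ := abs_le.mp h1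
  have hu : 0 < ‖u‖ := by linarith
  have h4 := log_le_sub_one_of_pos hu
  have h5 := one_sub_inv_le_log_of_pos hu
  have h6 : ‖u‖⁻¹ ≤ 1 + 2 * δ := by
    rw [inv_le_iff_one_le_mul₀ hu]
    nlinarith
  exact abs_le.mpr ⟨by linarith, by linarith⟩

/-- the three Schwarz estimates for a self map of the disc normalised at `x` -/
theorem mak_core {F : ℂ → ℂ} {x : ℂ} {d : ℝ} (hd : 0 < d)
    (hF : DifferentiableOn ℂ F (ball x d)) (hm : ∀ w ∈ ball x d, ‖F w‖ ≤ 1) (h0 : F x = 0)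
    (hk : 1 / (128 * d) ≤ ‖deriv F x‖) {w : ℂ} (hw : ‖w - x‖ ≤ d / 4096) :
    ‖F w‖ ≤ ‖w - x‖ / d ∧ ‖w - x‖ / d / 256 ≤ ‖F w‖ ∧
      ‖deriv F w / deriv F x - 1‖ ≤ 2048 * (‖w - x‖ / d) := by
  have hmap : MapsTo F (ball x d) (closedBall (F x) 1) := fun z hz => by
    rw [h0, mem_closedBall_zero_iff]; exact hm z hz
  have hwd : w ∈ ball x d := by rw [mem_ball, dist_eq_norm]; linarith
  have hx : x ∈ ball x d := mem_ball_self hd
  have ht := norm_nonneg (w - x)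
  refine ⟨?_, ?_, ?_⟩
  · have := Complex.dist_le_div_mul_dist_of_mapsTo_ball hF hmap hwd
    rw [h0, dist_zero_right, dist_eq_norm] at this
    exact this.trans_eq (by ring)
  · have hG : DifferentiableOn ℂ (dslope F x) (ball x d) :=
      (Complex.differentiableOn_dslope (ball_mem_nhds x hd)).mpr hF
    have hb : ∀ z ∈ ball x d, ‖dslope F x z‖ ≤ 1 / d := fun z hz =>
      Complex.norm_dslope_le_div_of_mapsTo_ball hF hmap hz
    have hmap2 : MapsTo (dslope F x) (ball x d) (closedBall (dslope F x x) (2 / d)) :=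
      fun z hz => by
        rw [mem_closedBall, dist_eq_norm]
        refine (norm_sub_le _ _).trans ((add_le_add (hb z hz) (hb x hx)).trans_eq (by ring))
    have h1 := Complex.dist_le_div_mul_dist_of_mapsTo_ball hG hmap2 hwd
    rw [dist_eq_norm, dist_eq_norm, dslope_same] at h1
    have h2 : 2 / d / d * ‖w - x‖ ≤ 1 / (256 * d) := by
      calc 2 / d / d * ‖w - x‖ ≤ 2 / d / d * (d / 4096) := by gcongr
        _ = 1 / (2048 * d) := by field_simp; norm_num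
        _ ≤ 1 / (256 * d) := by gcongr; norm_num
    have h3 : 1 / (256 * d) ≤ ‖dslope F x w‖ := by
      have := norm_sub_norm_le (deriv F x) (dslope F x w)
      rw [norm_sub_rev] at this
      have e : 1 / (128 * d) = 1 / (256 * d) + 1 / (256 * d) := by field_simp; norm_num
      linarith
    have h4 : F w = (w - x) * dslope F x w := by
      have := sub_smul_dslope F x w
      rw [h0, sub_zero, smul_eq_mul] at this
      exact this.symm
    rw [h4, norm_mul]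
    calc ‖w - x‖ / d / 256 = ‖w - x‖ * (1 / (256 * d)) := by field_simp
      _ ≤ _ := by gcongr
  · have hb : ∀ z ∈ ball x (d / 2), ‖deriv F z‖ ≤ 4 / d := fun z hz => by
      have hs : ball z (d / 2) ⊆ ball x d := ball_subset_ball' (by
        rw [mem_ball] at hz; linarith)
      have hz' : z ∈ ball x d := hs (mem_ball_self (by positivity))
      have := Complex.norm_deriv_le_div_of_mapsTo_ball (c := z) (R₁ := d / 2) (R₂ := 2)
        (hF.mono hs) (fun y hy => by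
          rw [mem_closedBall, dist_eq_norm]
          exact (norm_sub_le _ _).trans ((add_le_add (hm y (hs hy)) (hm z hz')).trans_eq
            (by norm_num))) (by positivity)
      exact this.trans_eq (by field_simp; norm_num)
    have hD : DifferentiableOn ℂ (deriv F) (ball x (d / 2)) :=
      (hF.deriv isOpen_ball).mono (ball_subset_ball (by linarith))
    have hmap2 : MapsTo (deriv F) (ball x (d / 2)) (closedBall (deriv F x) (8 / d)) :=
      fun z hz => by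
        rw [mem_closedBall, dist_eq_norm]
        exact (norm_sub_le _ _).trans ((add_le_add (hb z hz)
          (hb x (mem_ball_self (by positivity)))).trans_eq (by ring))
    have h1 := Complex.dist_le_div_mul_dist_of_mapsTo_ball hD hmap2
      (z := w) (by rw [mem_ball, dist_eq_norm]; linarith)
    rw [dist_eq_norm, dist_eq_norm] at h1
    have hp : 0 < ‖deriv F x‖ := lt_of_lt_of_le (by positivity) hk
    rw [div_sub_one (norm_pos_iff.mp hp), norm_div, div_le_iff₀ hp]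
    calc _ ≤ _ := h1
      _ = 2048 * (‖w - x‖ / d) * (1 / (128 * d)) := by field_simp; ring
      _ ≤ _ := by gcongr

theorem mak_mob1 {a z : ℂ} (ha : ‖a‖ < 1) (hz : ‖z‖ < 1) :
    (1 - (starRingEnd ℂ) a * z) * (1 + (starRingEnd ℂ) a * mob a z) =
      1 - (starRingEnd ℂ) a * a := by
  have := mob_den ha hz
  rw [mob]
  field_simp
  ring

theorem mak_mob2 {a z : ℂ} (ha : ‖a‖ < 1) (hz : ‖z‖ < 1) :
    (1 - ‖mob a z‖ ^ 2) * ‖1 - (starRingEnd ℂ) a * z‖ ^ 2 = (1 - ‖a‖ ^ 2) * (1 - ‖z‖ ^ 2) := by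
  have h := norm_pos_iff.2 (mob_den ha hz)
  rw [mob, norm_div, div_pow, sub_mul, div_mul_cancel₀ _ (by positivity)]
  simp only [Complex.sq_norm, Complex.normSq_apply]
  simp
  ring

theorem mak {κ : ℝ} (hκ : 0 < κ) : ∃ l τ : ℝ, 0 < l ∧ 0 < τ ∧ τ ≤ 1 / 4 ∧
    ∀ (Ω : Set ℂ) (ψ : ℂ → ℂ), Conf Ω ψ → ∀ (x : ℂ) (ρ : ℝ), 0 < ρ → ball x ρ ⊆ Ω →
      SMV (fun w => ‖deriv ψ w‖ ^ l * (1 - ‖ψ w‖ ^ 2) ^ (κ * l)) x (τ * ρ) := by
  obtain ⟨C, hC⟩ : ∃ C, C = 4100 + 5 * κ := ⟨_, rfl⟩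
  have hC0 : 0 < C := by rw [hC]; positivity
  obtain ⟨l, hl, hl1, hl2⟩ : ∃ l : ℝ, 0 < l ∧ l * C ≤ 1 ∧ l * C ^ 2 ≤ κ / 65536 := by
    refine ⟨min (1 / C) (κ / 65536 / C ^ 2), by positivity, ?_, ?_⟩
    · rw [← le_div_iff₀ hC0]; exact min_le_left _ _
    · rw [← le_div_iff₀ (by positivity)]; exact min_le_right _ _
  refine ⟨l, 1 / 4096, hl, by norm_num, by norm_num, fun Ω ψ hψ x ρ hρ hball => ?_⟩
  obtain ⟨d, hd⟩ : ∃ d, d = infDist x Ωᶜ := ⟨_, rfl⟩
  have hρd : ρ ≤ d := by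
    rw [hd, le_infDist hψ.ne]
    intro y hy
    by_contra h
    exact hy (hball (by rw [mem_ball, dist_comm]; exact not_le.mp h))
  have hd0 : 0 < d := hρ.trans_le hρd
  have hsub : ball x d ⊆ Ω := by rw [hd]; exact ball_infDist_compl_subset
  have hx : x ∈ Ω := hsub (mem_ball_self hd0)
  have ha := hψ.maps x hx
  obtain ⟨a, hae⟩ : ∃ a, a = ψ x := ⟨_, rfl⟩
  rw [← hae] at ha
  have hA : 0 < 1 - ‖a‖ ^ 2 := by nlinarith [norm_nonneg a]
  have hP : ∀ w ∈ Ω, 0 < 1 - ‖ψ w‖ ^ 2 := fun w hw => by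
    nlinarith [norm_nonneg (ψ w), hψ.maps w hw]
  obtain ⟨F, hFe⟩ : ∃ F : ℂ → ℂ, F = fun w => mob a (ψ w) := ⟨_, rfl⟩
  have hFd : ∀ w ∈ Ω, HasDerivAt F ((1 - (starRingEnd ℂ) a * a) /
      (1 - (starRingEnd ℂ) a * ψ w) ^ 2 * deriv ψ w) w := fun w hw => by
    rw [hFe]
    exact (mob_deriv ha (hψ.maps w hw)).comp w
      (hψ.diff.differentiableAt (hψ.isOpen.mem_nhds hw)).hasDerivAt
  have hF : DifferentiableOn ℂ F Ω := fun w hw =>
    (hFd w hw).differentiableAt.differentiableWithinAt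
  have hF1 : ∀ w ∈ Ω, ‖F w‖ < 1 := fun w hw => by rw [hFe]; exact mob_lt ha (hψ.maps w hw)
  have hF0 : F x = 0 := by rw [hFe]; simp [mob, hae]
  have hFP : ∀ w ∈ Ω, 0 < 1 - ‖F w‖ ^ 2 := fun w hw => by
    nlinarith [norm_nonneg (F w), hF1 w hw]
  have hD : ∀ w ∈ Ω, 0 < ‖1 - (starRingEnd ℂ) a * ψ w‖ := fun w hw =>
    norm_pos_iff.2 (mob_den ha (hψ.maps w hw))
  have hE : ∀ w ∈ Ω, ‖1 - (starRingEnd ℂ) a * ψ w‖ * ‖1 + (starRingEnd ℂ) a * F w‖ =
      1 - ‖a‖ ^ 2 := fun w hw => by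
    rw [← norm_mul, hFe, mak_mob1 ha (hψ.maps w hw), norm_den ha]
  have hE0 : ∀ w ∈ Ω, 0 < ‖1 + (starRingEnd ℂ) a * F w‖ := fun w hw =>
    (pos_iff_pos_of_mul_pos (by rw [hE w hw]; exact hA)).mp (hD w hw)
  have hN : ∀ w ∈ Ω, ‖deriv F w‖ =
      (1 - ‖a‖ ^ 2) / ‖1 - (starRingEnd ℂ) a * ψ w‖ ^ 2 * ‖deriv ψ w‖ := fun w hw => by
    rw [(hFd w hw).deriv, norm_mul, norm_div, norm_pow, norm_den ha]
  have hψ' : ∀ w ∈ Ω, 0 < ‖deriv ψ w‖ := fun w hw => norm_pos_iff.2 (hψ.deriv_ne w hw)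
  have hF' : ∀ w ∈ Ω, 0 < ‖deriv F w‖ := fun w hw => by
    rw [hN w hw]
    have := hD w hw
    have := hψ' w hw
    positivity
  have hk : 1 / (128 * d) ≤ ‖deriv F x‖ := by
    have h1 := hψ.koebe x hx
    rw [← hd, ← hae] at h1
    rw [hN x hx, ← hae, norm_den ha, div_le_iff₀ (by positivity)]
    have e : (1 - ‖a‖ ^ 2) / (1 - ‖a‖ ^ 2) ^ 2 * ‖deriv ψ x‖ * (128 * d) =
        2 * (64 * d * ‖deriv ψ x‖) / (1 - ‖a‖ ^ 2) := by field_simp; ring
    rw [e, le_div_iff₀ hA]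
    nlinarith [norm_nonneg a]
  -- the function in terms of `F`
  have hv : ∀ w ∈ Ω, ‖deriv ψ w‖ ^ l * (1 - ‖ψ w‖ ^ 2) ^ (κ * l) =
      exp (l * ((1 + κ) * log (1 - ‖a‖ ^ 2) + log ‖deriv F w‖
        - 2 * (1 + κ) * log ‖1 + (starRingEnd ℂ) a * F w‖ + κ * log (1 - ‖F w‖ ^ 2))) :=
    fun w hw => by
    rw [rpow_def_of_pos (hψ' w hw), rpow_def_of_pos (hP w hw), ← exp_add]
    congr 1
    have e1 := congrArg log (hE w hw)
    rw [log_mul (hD w hw).ne' (hE0 w hw).ne'] at e1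
    have e2 := congrArg log (hN w hw)
    rw [log_mul (div_pos hA (pow_pos (hD w hw) 2)).ne' (hψ' w hw).ne',
      log_div hA.ne' (pow_pos (hD w hw) 2).ne', log_pow] at e2
    have e3 := congrArg log (mak_mob2 ha (hψ.maps w hw))
    have e4 : mob a (ψ w) = F w := by rw [hFe]
    rw [e4, log_mul (hFP w hw).ne' (pow_pos (hD w hw) 2).ne', log_mul hA.ne' (hP w hw).ne',
      log_pow] at e3
    push_cast at e2 e3
    linear_combination (-l) * e2 - κ * l * e3 + 2 * l * (1 + κ) * e1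
  have hcb : ∀ t, t ≤ 1 / 4096 * ρ → closedBall x t ⊆ Ω := fun t ht =>
    (closedBall_subset_ball (by linarith)).trans hsub
  refine ⟨?_, fun t ht htρ => ?_⟩
  · have hs := hcb _ le_rfl
    have c1 : ContinuousOn (deriv ψ) Ω := (hψ.diff.deriv hψ.isOpen).continuousOn
    have c2 : ContinuousOn ψ Ω := hψ.diff.continuousOn
    exact ((c1.norm.rpow_const fun w hw => Or.inl (hψ' w hw).ne').mul
      ((continuousOn_const.sub (c2.norm.pow 2)).rpow_const
        fun w hw => Or.inl (hP w hw).ne')).mono hs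
  have hs := hcb t htρ
  have hs' : closedBall x |t| ⊆ Ω := by rwa [abs_of_pos ht]
  have hsp : sphere x |t| ⊆ Ω := sphere_subset_closedBall.trans hs'
  have an1 : AnalyticOnNhd ℂ (deriv F) Ω := (hF.analyticOnNhd hψ.isOpen).deriv
  have an2 : AnalyticOnNhd ℂ (fun w => 1 + (starRingEnd ℂ) a * F w) Ω :=
    analyticOnNhd_const.add (analyticOnNhd_const.mul (hF.analyticOnNhd hψ.isOpen))
  have av1 := (an1.mono hs').circleAverage_log_norm_of_ne_zero
    fun w hw => norm_pos_iff.1 (hF' w (hs' hw))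
  have av2 := (an2.mono hs').circleAverage_log_norm_of_ne_zero
    fun w hw => norm_pos_iff.1 (hE0 w (hs' hw))
  have i1 : CircleIntegrable (fun w => log ‖deriv F w‖) x t :=
    ((an1.continuousOn.norm.log fun w hw => (hF' w hw).ne').mono hsp).circleIntegrable'
  have i2 : CircleIntegrable (fun w => log ‖1 + (starRingEnd ℂ) a * F w‖) x t :=
    ((an2.continuousOn.norm.log fun w hw => (hE0 w hw).ne').mono hsp).circleIntegrable'
  obtain ⟨V, hV⟩ : ∃ V, V = exp (l * ((1 + κ) * log (1 - ‖a‖ ^ 2) + log ‖deriv F x‖)) := ⟨_, rfl⟩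
  have hV0 : 0 < V := by rw [hV]; exact exp_pos _
  have hvx : ‖deriv ψ x‖ ^ l * (1 - ‖ψ x‖ ^ 2) ^ (κ * l) = V := by
    rw [hv x hx, hV, hF0]; simp
  have key : ∀ w ∈ sphere x |t|, ‖deriv ψ w‖ ^ l * (1 - ‖ψ w‖ ^ 2) ^ (κ * l) ≤
      (V - V * l * log ‖deriv F x‖) + ((V * l) • log ‖deriv F w‖ +
        (-(V * l * (2 * (1 + κ)))) • log ‖1 + (starRingEnd ℂ) a * F w‖) := fun w hw => by
    have hwΩ := hsp hw
    rw [mem_sphere, dist_eq_norm, abs_of_pos ht] at hw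
    obtain ⟨k1, k2, k3⟩ := mak_core hd0 (hF.mono hsub) (fun z hz => (hF1 z (hsub hz)).le) hF0 hk
      (w := w) (by rw [hw]; linarith)
    rw [hw] at k1 k2 k3
    obtain ⟨s, hse⟩ : ∃ s, s = t / d := ⟨_, rfl⟩
    rw [← hse] at k1 k2 k3
    have hs0 : 0 < s := by rw [hse]; positivity
    have hs1 : s ≤ 1 / 4096 := by rw [hse, div_le_iff₀ hd0]; linarith
    have b1 := mak_abs_log k3 (by linarith)
    rw [norm_div, log_div (hF' w hwΩ).ne' (hF' x hx).ne'] at b1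
    have b2 : |log ‖1 + (starRingEnd ℂ) a * F w‖| ≤ 2 * s := mak_abs_log (by
      rw [add_sub_cancel_left, norm_mul, Complex.norm_conj]
      nlinarith [norm_nonneg a, norm_nonneg (F w)]) (by linarith)
    have b3 : log (1 - ‖F w‖ ^ 2) ≤ -(s / 256) ^ 2 := by
      have := log_le_sub_one_of_pos (hFP w hwΩ)
      have h2 : (s / 256) ^ 2 ≤ ‖F w‖ ^ 2 := by gcongr
      linarith
    have b4 : -s ≤ log (1 - ‖F w‖ ^ 2) := by
      have h1 := one_sub_inv_le_log_of_pos (hFP w hwΩ)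
      have h2 : ‖F w‖ ^ 2 ≤ s ^ 2 := by gcongr
      have h3 : (1 - ‖F w‖ ^ 2)⁻¹ ≤ 1 + s := by
        rw [inv_le_iff_one_le_mul₀ (hFP w hwΩ)]
        nlinarith
      linarith
    obtain ⟨H, hH⟩ : ∃ H, H = log ‖deriv F w‖ - log ‖deriv F x‖
        - 2 * (1 + κ) * log ‖1 + (starRingEnd ℂ) a * F w‖ + κ * log (1 - ‖F w‖ ^ 2) := ⟨_, rfl⟩
    have hHb : |H| ≤ C * s := by
      obtain ⟨p1, p2⟩ := abs_le.mp b1
      obtain ⟨p3, p4⟩ := abs_le.mp b2
      have p5 : log (1 - ‖F w‖ ^ 2) ≤ 0 := b3.trans (neg_nonpos.mpr (sq_nonneg _))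
      rw [hH, hC, abs_le]
      constructor <;> nlinarith
    have hlH : |l * H| ≤ l * C * s := by
      rw [abs_mul, abs_of_pos hl, mul_assoc]; gcongr
    have hex := (abs_le.mp (abs_exp_sub_one_sub_id_le (x := l * H)
      (hlH.trans (by nlinarith)))).2
    have hsq : (l * H) ^ 2 ≤ l * (κ * (s / 256) ^ 2) := by
      calc (l * H) ^ 2 = |l * H| ^ 2 := (sq_abs _).symm
        _ ≤ (l * C * s) ^ 2 := by gcongr
        _ = l * (l * C ^ 2 * s ^ 2) := by ring
        _ ≤ l * (κ / 65536 * s ^ 2) := by gcongr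
        _ = _ := by ring
    have e : ‖deriv ψ w‖ ^ l * (1 - ‖ψ w‖ ^ 2) ^ (κ * l) = V * exp (l * H) := by
      rw [hv w hwΩ, hV, ← exp_add, hH]; congr 1; ring
    have b5 : l * (κ * log (1 - ‖F w‖ ^ 2)) ≤ l * (κ * -(s / 256) ^ 2) := by gcongr
    have hfin : exp (l * H) ≤ 1 + l * (log ‖deriv F w‖ - log ‖deriv F x‖
        - 2 * (1 + κ) * log ‖1 + (starRingEnd ℂ) a * F w‖) := by
      rw [hH] at hex hsq ⊢
      linarith
    rw [e]
    refine (mul_le_mul_of_nonneg_left hfin hV0.le).trans_eq ?_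
    simp only [smul_eq_mul]
    ring
  have i3 := i1.const_fun_smul (a := V * l)
  have i4 := i2.const_fun_smul (a := -(V * l * (2 * (1 + κ))))
  have c0 : ContinuousOn (fun w => ‖deriv ψ w‖ ^ l * (1 - ‖ψ w‖ ^ 2) ^ (κ * l)) Ω :=
    ((hψ.diff.deriv hψ.isOpen).continuousOn.norm.rpow_const
      fun w hw => Or.inl (hψ' w hw).ne').mul
      ((continuousOn_const.sub (hψ.diff.continuousOn.norm.pow 2)).rpow_const
        fun w hw => Or.inl (hP w hw).ne')
  refine (circleAverage_mono (c0.mono hsp).circleIntegrable'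
    ((circleIntegrable_const _ x t).add (i3.add i4)) key).trans_eq ?_
  beta_reduce
  rw [hvx, circleAverage_add (circleIntegrable_const _ x t) (i3.add i4), circleAverage_add i3 i4,
    circleAverage_const, circleAverage_fun_smul, circleAverage_fun_smul, av1, av2, hF0]
  simp

end Pool.Agent.P.MP_677d31_pr
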