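import Pool.Agent.P.MP_677d31_pr.Mak
import Pool.Agent.P.MP_677d31_pr.Riemann

set_option autoImplicit false

namespace Pool.Agent.P.MP_677d31_pr

open Set Metric MeasureTheory ProbabilityTheory Filter Topology NNReal RM

/-- one superharmonic bump centred at `x₁` -/
theorem exists_bump {Ω : Set ℂ} {ψ : ℂ → ℂ} (h : Conf Ω ψ) {x₁ : ℂ} {r : ℝ} (hr : 0 < r)
    (hb : ball x₁ (r / 5) ⊆ Ω) : ∃ g : ℂ → ℝ, (∀ z ρ, closedBall z ρ ⊆ Ω → SMV g z ρ) ∧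
      (∀ w ∈ Ω, 0 ≤ g w ∧ g w ≤ 2) ∧ (∀ w, ‖w - x₁‖ ≤ r / 10 → 1 ≤ g w) ∧
      ∀ y, ψ y = 0 → g y = 2 * (1 - ‖ψ x₁‖ ^ 2) := by
  have hx₁ : x₁ ∈ Ω := hb (mem_ball_self (by positivity))
  have ha := h.maps _ hx₁
  set F : ℂ → ℂ := fun w => mob (ψ x₁) (ψ w) with hF
  have hFd : DifferentiableOn ℂ F Ω := fun w hw =>
    (mob_deriv ha (h.maps w hw)).differentiableAt.comp_differentiableWithinAt w (h.diff w hw)
  have hF1 : ∀ w ∈ Ω, ‖F w‖ < 1 := fun w hw => mob_lt ha (h.maps w hw)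
  have hF0 : F x₁ = 0 := by simp [hF, mob]
  refine ⟨fun w => 2 * (1 - ‖F w‖ ^ 2), fun z ρ hz => ⟨?_, fun t ht htρ => ?_⟩, fun w hw => ?_,
    fun w hw => ?_, fun y hy => by simp [hF, mob, hy]⟩
  · have := hFd.continuousOn.mono hz
    fun_prop
  · have hs : closedBall z |t| ⊆ Ω := by
      rw [abs_of_pos ht]; exact (closedBall_subset_closedBall htρ).trans hz
    have h1 : DiffContOnCl ℂ F (ball z |t|) :=
      DifferentiableOn.diffContOnCl (hFd.mono (closure_ball_subset_closedBall.trans hs))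
    have h2 := avg_normsq h1 (m := 0) fun w _ => by positivity
    have hc : CircleIntegrable (fun w => ‖F w‖ ^ 2) z t := by
      have := hFd.continuousOn.mono (sphere_subset_closedBall.trans hs)
      exact ContinuousOn.circleIntegrable' (by fun_prop)
    have e := Real.circleAverage_fun_smul (a := (2 : ℝ)) (f := fun w => 1 - ‖F w‖ ^ 2) (c := z)
      (R := t)
    simp only [smul_eq_mul] at e
    rw [e, Real.circleAverage_fun_sub (circleIntegrable_const _ _ _) hc, Real.circleAverage_const]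
    linarith
  · have := hF1 w hw
    have h0 := norm_nonneg (F w)
    constructor <;> nlinarith
  · have hw' : w ∈ ball x₁ (r / 5) := by
      rw [mem_ball, dist_eq_norm]; linarith
    have := Complex.dist_le_div_mul_dist_of_mapsTo_ball (R₂ := 1) (hFd.mono hb)
      (fun u hu => by rw [hF0]; exact mem_closedBall_zero_iff.2 (hF1 u (hb hu)).le) hw'
    rw [hF0, dist_zero_right (F w), dist_eq_norm] at this
    have h3 : ‖F w‖ ≤ 1 / 2 := this.trans (by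
      rw [div_mul_eq_mul_div, div_le_iff₀ (by positivity)]; linarith)
    have h0 := norm_nonneg (F w)
    show 1 ≤ 2 * (1 - ‖F w‖ ^ 2)
    nlinarith

/-- the bumps of all cells around `x₀` -/
theorem exists_cells {Ω : Set ℂ} {ψ : ℂ → ℂ} (h : Conf Ω ψ) {r k : ℝ} (hr : 0 < r) (hk : 0 ≤ k)
    {Λ : ℕ} (hΛ : 1 ≤ Λ) (x₀ : ℂ) : ∃ g : ℂ → ℝ, (∀ z ρ, closedBall z ρ ⊆ Ω → SMV g z ρ) ∧
      (∀ w ∈ Ω, 0 ≤ g w ∧ g w ≤ (81 * Λ) ^ 2 * 2) ∧
      (∀ w, ‖w - x₀‖ ≤ 2 * Λ * r → ball w (r / 5) ⊆ Ω → 1 - ‖ψ w‖ ^ 2 ≤ k → 1 ≤ g w) ∧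
      ∀ y, ψ y = 0 → g y ≤ (81 * Λ) ^ 2 * (2 * k) := by
  let cell : ℂ → ℤ × ℤ := fun w => (⌊(w - x₀).re / (r / 20)⌋, ⌊(w - x₀).im / (r / 20)⌋)
  have hcell : ∀ w w', cell w = cell w' → ‖w - w'‖ ≤ r / 10 := by
    intro w w' e
    have h1 := Int.abs_sub_lt_one_of_floor_eq_floor (congrArg Prod.fst e)
    have h2 := Int.abs_sub_lt_one_of_floor_eq_floor (congrArg Prod.snd e)
    have h20 : 0 < r / 20 := by positivity
    rw [← _root_.sub_div, abs_div, abs_of_pos h20, div_lt_one h20] at h1 h2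
    have := Complex.norm_le_abs_re_add_abs_im (w - w')
    simp only [Complex.sub_re, Complex.sub_im, sub_sub_sub_cancel_right] at this h1 h2
    linarith
  have key : ∀ q : ℤ × ℤ, ∃ g : ℂ → ℝ, (∀ z ρ, closedBall z ρ ⊆ Ω → SMV g z ρ) ∧
      (∀ w ∈ Ω, 0 ≤ g w ∧ g w ≤ 2) ∧
      (∀ w, cell w = q → ball w (r / 5) ⊆ Ω → 1 - ‖ψ w‖ ^ 2 ≤ k → 1 ≤ g w) ∧
      ∀ y, ψ y = 0 → g y ≤ 2 * k := by
    intro q
    by_cases hq : ∃ w, cell w = q ∧ ball w (r / 5) ⊆ Ω ∧ 1 - ‖ψ w‖ ^ 2 ≤ k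
    · obtain ⟨x₁, e, hb, h1⟩ := hq
      obtain ⟨g, g1, g2, g3, g4⟩ := exists_bump h hr hb
      exact ⟨g, g1, g2, fun w hw _ _ => g3 w (hcell _ _ (hw.trans e.symm)),
        fun y hy => by rw [g4 y hy]; linarith⟩
    · exact ⟨fun _ => 0, fun z ρ _ => smv_const 0 z ρ, fun _ _ => by norm_num,
        fun w h1 h2 h3 => absurd ⟨w, h1, h2, h3⟩ hq, fun _ _ => by positivity⟩
  choose g g1 g2 g3 g4 using key
  set Q : Finset (ℤ × ℤ) := Finset.Icc (-(40 * Λ : ℤ)) (40 * Λ) ×ˢ Finset.Icc (-(40 * Λ : ℤ)) (40 * Λ)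
    with hQ
  have hcard : (Q.card : ℝ) ≤ (81 * Λ) ^ 2 := by
    have : (Finset.Icc (-(40 * Λ : ℤ)) (40 * Λ)).card = 80 * Λ + 1 := by
      rw [Int.card_Icc]; omega
    rw [hQ, Finset.card_product, this]
    have : (1 : ℝ) ≤ Λ := by exact_mod_cast hΛ
    push_cast
    nlinarith
  have hsum : ∀ (w : ℂ) (b : ℝ), 0 ≤ b → (∀ q, g q w ≤ b) → ∑ q ∈ Q, g q w ≤ (81 * Λ) ^ 2 * b := by
    intro w b hb H
    refine (Finset.sum_le_card_nsmul Q _ b fun q _ => H q).trans ?_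
    rw [nsmul_eq_mul]
    exact mul_le_mul_of_nonneg_right hcard hb
  have hfl : ∀ t : ℝ, |t| ≤ 2 * Λ * r → ⌊t / (r / 20)⌋ ∈ Finset.Icc (-(40 * Λ : ℤ)) (40 * Λ) := by
    intro t ht
    obtain ⟨h1, h2⟩ := abs_le.1 ht
    rw [Finset.mem_Icc, Int.le_floor, Int.floor_le_iff, le_div_iff₀ (by positivity),
      div_lt_iff₀ (by positivity)]
    push_cast
    constructor <;> nlinarith
  refine ⟨fun w => ∑ q ∈ Q, g q w, fun z ρ hz => SMV.sum fun q _ => g1 q z ρ hz,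
    fun w hw => ⟨Finset.sum_nonneg fun q _ => (g2 q w hw).1,
      hsum w 2 (by norm_num) fun q => (g2 q w hw).2⟩, fun w hw hb h1 => ?_,
    fun y hy => hsum y _ (by positivity) fun q => g4 q y hy⟩
  have hw' : w ∈ Ω := hb (mem_ball_self (by positivity))
  refine (g3 _ w rfl hb h1).trans (Finset.single_le_sum (f := fun q => g q w)
    (fun q _ => (g2 q w hw').1) ?_)
  exact Finset.mem_product.2 ⟨hfl _ ((Complex.abs_re_le_norm _).trans hw),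
    hfl _ ((Complex.abs_im_le_norm _).trans hw)⟩

theorem nogap_fn {m : ℕ} (hm : 4 ≤ m) (C : ℝ) {ε : ℝ} (hε : 0 < ε) :
    ∃ τ : ℝ, 0 < τ ∧ τ ≤ 1 / 10 ∧ ∀ᶠ Λ : ℕ in atTop, ∀ (Ω : Set ℂ) (ψ : ℂ → ℂ) (y : ℂ) (r : ℝ)
      (ι : Type) (s : Finset ι) (x : ι → ℂ) (c : ι → ℝ), Conf Ω ψ → ψ y = 0 → 0 < r →
      ball y (Λ ^ m * r / 4) ⊆ Ω → (∀ i ∈ s, 0 ≤ c i) → ∑ i ∈ s, c i ≤ C * Λ ^ (m - 4) →
      ∃ (f : ℂ → ℝ) (U : ℝ), 0 ≤ U ∧ f y ≤ ε ∧ ∀ z, ball z (3 / 10 * r) ⊆ Ω →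
        SMV f z (τ * r) ∧ ∀ w ∈ closedBall z (τ * r), 0 ≤ f w ∧ f w ≤ U ∧
          (infDist w Ωᶜ ≤ r → 1 ≤ ∑ i ∈ s with ‖w - x i‖ ≤ 2 * Λ * r, c i → 1 ≤ f w) := by
  obtain ⟨n, rfl⟩ := Nat.exists_eq_add_of_le' hm
  set κ : ℝ := 1 / (2 * (n + 3)) with hκ
  have hκ0 : 0 < κ := by positivity
  obtain ⟨l, τ, hl, hτ, hτ4, H⟩ := mak hκ0
  refine ⟨τ * (3 / 10), by positivity, by linarith, ?_⟩
  have t1 : Tendsto (fun Λ : ℕ => (512 * (Λ : ℝ) ^ (-(1 / 2 : ℝ))) ^ l) atTop (𝓝 0) := by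
    refine Tendsto.rpow_const_nhds_zero ?_ hl
    simpa using ((tendsto_rpow_neg_atTop (y := 1 / 2) (by norm_num)).comp
      tendsto_natCast_atTop_atTop).const_mul 512
  have t2 := tendsto_const_div_atTop_nhds_zero_nat (C * 81 ^ 2 * 2)
  filter_upwards [t1.eventually (ge_mem_nhds (half_pos hε)),
    t2.eventually (ge_mem_nhds (half_pos hε)), eventually_ge_atTop 1]
    with Λ e1 e2 hΛ Ω ψ y r ι s x c h hy hr hb hc hs
  have hL : (1 : ℝ) ≤ Λ := by exact_mod_cast hΛ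
  have hL0 : (0 : ℝ) < Λ := by linarith
  set k : ℝ := ((Λ : ℝ) ^ (n + 3))⁻¹ with hk
  have hk0 : 0 < k := by positivity
  have hA : k ^ κ = (Λ : ℝ) ^ (-(1 / 2 : ℝ)) := by
    rw [hk, ← Real.rpow_natCast, ← Real.rpow_neg hL0.le, ← Real.rpow_mul hL0.le, hκ]
    congr 1
    push_cast
    field_simp
  have hA0 : 0 < k ^ κ := Real.rpow_pos_of_pos hk0 _
  set vmin : ℝ := (k / (128 * r) * k ^ κ) ^ l with hvmin
  have hv0 : 0 < vmin := Real.rpow_pos_of_pos (by positivity) _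
  choose g g1 g2 g3 g4 using fun i => exists_cells h hr hk0.le hΛ (x i)
  have hψ : ∀ w ∈ Ω, 0 ≤ 1 - ‖ψ w‖ ^ 2 := fun w hw => by
    have := h.maps w hw
    nlinarith [norm_nonneg (ψ w)]
  have hv : ∀ w ∈ Ω, ‖deriv ψ w‖ ^ l * (1 - ‖ψ w‖ ^ 2) ^ (κ * l) =
      (‖deriv ψ w‖ * (1 - ‖ψ w‖ ^ 2) ^ κ) ^ l := fun w hw => by
    rw [Real.mul_rpow (norm_nonneg _) (Real.rpow_nonneg (hψ w hw) _), Real.rpow_mul (hψ w hw)]
  refine ⟨fun w => vmin⁻¹ * (‖deriv ψ w‖ ^ l * (1 - ‖ψ w‖ ^ 2) ^ (κ * l)) + ∑ i ∈ s, c i * g i w,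
    vmin⁻¹ * (2 / (r / 5)) ^ l + ∑ i ∈ s, c i * ((81 * Λ) ^ 2 * 2),
    add_nonneg (by positivity) (Finset.sum_nonneg fun i hi => mul_nonneg (hc i hi) (by positivity)),
    ?_, fun z hz => ?_⟩
  · have hd : ‖deriv ψ y‖ ≤ 1 / ((Λ : ℝ) ^ (n + 4) * r / 4) :=
      Complex.norm_deriv_le_div_of_mapsTo_ball (h.diff.mono hb)
        (fun u hu => by rw [hy]; exact mem_closedBall_zero_iff.2 (h.maps u (hb hu)).le)
        (by positivity)
    have a1 : vmin⁻¹ * (‖deriv ψ y‖ ^ l * (1 - ‖ψ y‖ ^ 2) ^ (κ * l)) ≤ ε / 2 := by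
      refine le_trans ?_ e1
      rw [hy, norm_zero, zero_pow two_ne_zero, sub_zero, Real.one_rpow, mul_one,
        inv_mul_le_iff₀ hv0, hvmin, ← Real.mul_rpow (by positivity) (by positivity)]
      refine Real.rpow_le_rpow (norm_nonneg _) (hd.trans_eq ?_) hl.le
      have : (Λ : ℝ) ^ (-(1 / 2 : ℝ)) * (Λ : ℝ) ^ (-(1 / 2 : ℝ)) = (Λ : ℝ)⁻¹ := by
        rw [← Real.rpow_add hL0, ← Real.rpow_neg_one]; norm_num
      rw [hA, mul_assoc, mul_left_comm _ (512 : ℝ), this, hk]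
      field_simp
      ring
    have a2 : ∑ i ∈ s, c i * g i y ≤ ε / 2 := by
      calc ∑ i ∈ s, c i * g i y ≤ ∑ i ∈ s, c i * ((81 * Λ) ^ 2 * (2 * k)) :=
            Finset.sum_le_sum fun i hi => mul_le_mul_of_nonneg_left (g4 i y hy) (hc i hi)
        _ ≤ C * Λ ^ (n + 4 - 4) * ((81 * Λ) ^ 2 * (2 * k)) := by
            rw [← Finset.sum_mul]; exact mul_le_mul_of_nonneg_right hs (by positivity)
        _ = C * 81 ^ 2 * 2 / Λ := by
            rw [hk, Nat.add_sub_cancel, pow_add]; field_simp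
        _ ≤ ε / 2 := e2
    show _ + _ ≤ ε
    linarith
  have hτr : τ * (3 / 10) * r ≤ r / 10 := by nlinarith
  have hcb : closedBall z (τ * (3 / 10) * r) ⊆ Ω :=
    (closedBall_subset_ball (by linarith)).trans hz
  refine ⟨SMV.add (SMV.mul (by rw [mul_assoc]; exact H Ω ψ h z _ (by positivity) hz)
    (by positivity)) (SMV.sum fun i hi => (g1 i z _ hcb).mul (hc i hi)), fun w hw => ?_⟩
  have hw' := hcb hw
  have hbw : ball w (r / 5) ⊆ Ω := (ball_subset_ball' (by rw [mem_closedBall] at hw; linarith)).trans hz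
  have b1 : 0 ≤ vmin⁻¹ * (‖deriv ψ w‖ ^ l * (1 - ‖ψ w‖ ^ 2) ^ (κ * l)) := by
    have := hψ w hw'
    positivity
  have b2 : 0 ≤ ∑ i ∈ s, c i * g i w :=
    Finset.sum_nonneg fun i hi => mul_nonneg (hc i hi) (g2 i w hw').1
  refine ⟨add_nonneg b1 b2, add_le_add ?_ (Finset.sum_le_sum fun i hi =>
    mul_le_mul_of_nonneg_left (g2 i w hw').2 (hc i hi)), fun hd h1 => ?_⟩
  · refine mul_le_mul_of_nonneg_left ?_ (by positivity)
    have := Complex.norm_deriv_le_div_of_mapsTo_ball (h.diff.mono hbw)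
      (lip h.maps hbw (by positivity)) (by positivity)
    refine (mul_le_of_le_one_right (by positivity) (Real.rpow_le_one (hψ w hw') ?_
      (by positivity))).trans (Real.rpow_le_rpow (norm_nonneg _) this hl.le)
    nlinarith [norm_nonneg (ψ w)]
  show 1 ≤ _ + _
  by_cases hG : 1 - ‖ψ w‖ ^ 2 ≤ k
  · have : ∑ i ∈ s with ‖w - x i‖ ≤ 2 * Λ * r, c i ≤ ∑ i ∈ s, c i * g i w := by
      rw [Finset.sum_filter]
      refine Finset.sum_le_sum fun i hi => ?_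
      split_ifs with hi'
      · exact le_mul_of_one_le_right (hc i hi) (g3 i w hi' hbw hG)
      · exact mul_nonneg (hc i hi) (g2 i w hw').1
    linarith
  · push Not at hG
    have hko := h.koebe w hw'
    have h2 : k / (128 * r) ≤ ‖deriv ψ w‖ := by
      rw [div_le_iff₀ (by positivity)]
      have := h.maps w hw'
      have h3 := mul_le_mul_of_nonneg_right hd (norm_nonneg (deriv ψ w))
      nlinarith [norm_nonneg (ψ w)]
    have : 1 ≤ vmin⁻¹ * (‖deriv ψ w‖ ^ l * (1 - ‖ψ w‖ ^ 2) ^ (κ * l)) := by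
      rw [le_inv_mul_iff₀ hv0, mul_one, hv w hw']
      exact Real.rpow_le_rpow (by positivity) (mul_le_mul h2
        (Real.rpow_le_rpow hk0.le hG.le hκ0.le) hA0.le (norm_nonneg _)) hl.le
    linarith

end Pool.Agent.P.MP_677d31_pr
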