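import Pool.Agent.P.MP_677d31_pr.Defs

set_option autoImplicit false

namespace Pool.Agent.P.MP_677d31_pr

open Set Metric Real

/-- distance to the doubled ball -/
noncomputable def gap (p : ℂ) (ρ : ℝ) (x : ℂ) : ℝ := max (‖x - p‖ - 2 * ρ) 0

/-- contribution of one ball of the cover -/
noncomputable def atom (E : Set ℂ) (s : ℝ) (N : ℕ) (p : ℂ) (ρ : ℝ) (x : ℂ) : ℝ :=
  (ρ / (infDist x E + ρ)) ^ s / (1 + gap p ρ x / infDist x E) ^ N

/-- the potential -/
noncomputable def pot (E : Set ℂ) (s : ℝ) (N : ℕ) (t : Finset ℕ) (p : ℕ → ℂ) (ρ : ℕ → ℝ)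
    (A D₀ : ℝ) (x : ℂ) : ℝ :=
  ∑ i ∈ t, A * atom E s N (p i) (ρ i) x + infDist x E / D₀

theorem gap_nonneg (p : ℂ) (ρ : ℝ) (x : ℂ) : 0 ≤ gap p ρ x := le_max_right _ _

theorem gap_le (p : ℂ) (ρ : ℝ) (x y : ℂ) : gap p ρ y ≤ gap p ρ x + ‖x - y‖ := by
  have := norm_sub_le_norm_sub_add_norm_sub y x p
  rw [norm_sub_rev y x] at this
  exact max_le (by linarith [le_max_left (‖x - p‖ - 2 * ρ) 0, gap.eq_1 p ρ x])
    (add_nonneg (gap_nonneg _ _ _) (norm_nonneg _))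

variable {E : Set ℂ} {s : ℝ} {N : ℕ}

theorem den_pos (E : Set ℂ) (p : ℂ) (ρ : ℝ) (x : ℂ) : 1 ≤ 1 + gap p ρ x / infDist x E :=
  le_add_of_nonneg_right (div_nonneg (gap_nonneg _ _ _) infDist_nonneg)

theorem atom_nonneg {p : ℂ} {ρ : ℝ} (hρ : 0 < ρ) (x : ℂ) : 0 ≤ atom E s N p ρ x := by
  have := den_pos E p ρ x
  have : 0 ≤ infDist x E := infDist_nonneg
  unfold atom; positivity

theorem atom_le {p : ℂ} {ρ Q Q' C : ℝ} (hs : 0 ≤ s) (hρ : 0 < ρ) {x y : ℂ} (hQ : 1 ≤ Q)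
    (h1 : infDist y E ≤ Q * infDist x E) (h2 : Q ^ s ≤ Q')
    (h3 : 1 + gap p ρ y / infDist y E ≤ C * (1 + gap p ρ x / infDist x E)) :
    atom E s N p ρ x ≤ Q' * C ^ N * atom E s N p ρ y := by
  have a1 := den_pos E p ρ x
  have a2 := den_pos E p ρ y
  have a3 : 0 ≤ infDist x E := infDist_nonneg
  have a4 : 0 ≤ infDist y E := infDist_nonneg
  have hC : 0 < C := by by_contra! h; nlinarith
  have b1 : (ρ / (infDist x E + ρ)) ^ s ≤ Q' * (ρ / (infDist y E + ρ)) ^ s := by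
    refine le_trans ?_ (mul_le_mul_of_nonneg_right h2 (by positivity))
    rw [← mul_rpow (by linarith) (by positivity)]
    refine rpow_le_rpow (by positivity) ?_ hs
    rw [← mul_div_assoc, div_le_div_iff₀ (by positivity) (by positivity)]
    nlinarith [mul_le_mul_of_nonneg_left h1 hρ.le, mul_le_mul_of_nonneg_left hQ (mul_pos hρ hρ).le]
  have b2 := pow_le_pow_left₀ (by linarith) h3 N
  have hQ' : 0 ≤ Q' := (rpow_nonneg (by linarith) s).trans h2
  unfold atom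
  rw [← mul_div_assoc, div_le_div_iff₀ (by positivity) (by positivity)]
  rw [mul_pow] at b2
  calc _ ≤ (Q' * (ρ / (infDist y E + ρ)) ^ s) * (C ^ N * (1 + gap p ρ x / infDist x E) ^ N) := by
        gcongr
    _ = _ := by ring

theorem infDist_le_add (E : Set ℂ) (x y : ℂ) : infDist x E ≤ infDist y E + ‖x - y‖ := by
  simpa [dist_eq_norm] using infDist_le_infDist_add_dist (x := x) (y := y) (s := E)

variable {t : Finset ℕ} {p : ℕ → ℂ} {ρ : ℕ → ℝ} {A D₀ : ℝ}

theorem pot_pos (hρ : ∀ i, 0 < ρ i) (hA : 0 ≤ A) (hD : 0 < D₀) {x : ℂ} (hx : 0 < infDist x E) :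
    0 < pot E s N t p ρ A D₀ x :=
  add_pos_of_nonneg_of_pos (Finset.sum_nonneg fun i _ => mul_nonneg hA (atom_nonneg (hρ i) x))
    (div_pos hx hD)

theorem pot_nonneg (hρ : ∀ i, 0 < ρ i) (hA : 0 ≤ A) (hD : 0 < D₀) (x : ℂ) :
    0 ≤ pot E s N t p ρ A D₀ x :=
  add_nonneg (Finset.sum_nonneg fun i _ => mul_nonneg hA (atom_nonneg (hρ i) x))
    (div_nonneg infDist_nonneg hD.le)

theorem pot_grow (hs : 0 ≤ s) (hs1 : s ≤ 1) (hρ : ∀ i, 0 < ρ i) (hA : 0 ≤ A) (hD : 0 < D₀)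
    {Λ : ℝ} (hΛ : 3 ≤ Λ) {x y : ℂ} (hy : 0 < infDist y E)
    (h1 : infDist y E ≤ Λ ^ (N + 2) * infDist x E) (h2 : ‖x - y‖ ≤ 2 * Λ * infDist y E) :
    pot E s N t p ρ A D₀ x ≤ Λ ^ (3 * N + 2) * pot E s N t p ρ A D₀ y := by
  have a1 : ∀ k : ℕ, 1 ≤ Λ ^ k := fun k => one_le_pow₀ (by linarith)
  have hx : 0 < infDist x E := (mul_pos_iff_of_pos_left (by positivity)).mp (hy.trans_le h1)
  have a2 : infDist x E ≤ Λ ^ 2 * infDist y E := by
    nlinarith [infDist_le_add E x y, mul_le_mul_of_nonneg_right hΛ (mul_pos (by linarith : 0 < Λ) hy).le]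
  unfold pot
  rw [mul_add, Finset.mul_sum]
  refine add_le_add (Finset.sum_le_sum fun i _ => ?_) ?_
  · have := atom_le (N := N) (p := p i) (C := Λ ^ 2) (Q' := Λ ^ (N + 2)) hs (hρ i) (a1 _) h1
      (by simpa using rpow_le_rpow_of_exponent_le (a1 (N + 2)) hs1) (by
        have b1 : gap (p i) (ρ i) y / infDist y E ≤ gap (p i) (ρ i) x / infDist y E + 2 * Λ := by
          rw [div_add' _ _ _ hy.ne']
          gcongr
          linarith [gap_le (p i) (ρ i) x y]
        have b2 : gap (p i) (ρ i) x / infDist y E ≤ Λ ^ 2 * (gap (p i) (ρ i) x / infDist x E) := by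
          rw [← mul_div_assoc, div_le_div_iff₀ hy hx]
          nlinarith [mul_le_mul_of_nonneg_left a2 (gap_nonneg (p i) (ρ i) x)]
        nlinarith)
    calc _ ≤ A * (Λ ^ (N + 2) * (Λ ^ 2) ^ N * atom E s N (p i) (ρ i) y) := by gcongr
      _ = _ := by ring
  · rw [← mul_div_assoc]
    gcongr
    refine a2.trans ?_
    gcongr
    · linarith
    · omega

theorem atom_drop {k : ℕ} (hs : 0 ≤ s) (hk : (k + 5) * s ≤ k) {p : ℂ} {ρ Λ B r : ℝ} (hρ : 0 < ρ)
    (hB : 2 ≤ B) (hΛ : 4 * (2 * B + 1) ^ (k + 5) ≤ Λ) (hr : 0 < r) {x y : ℂ}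
    (hy : infDist y E = Λ ^ (k + 5) * r) (h1 : r / 2 ≤ infDist x E) (h2 : infDist x E ≤ r)
    (h3 : ‖x - y‖ ≤ B * infDist y E)
    (hA : 3 * Λ ^ (k + 5) * (2 * B + 1) ^ (k + 5) * atom E s (k + 5) p ρ y < 1) :
    atom E s (k + 5) p ρ x ≤ atom E s (k + 5) p ρ y / (2 * Λ) +
      if ‖x - p‖ ≤ 2 * Λ * r then 2 * Λ ^ k * (2 * B + 1) ^ (k + 5) * atom E s (k + 5) p ρ y
      else 0 := by
  have a0 : (1 : ℝ) ≤ (2 * B + 1) ^ (k + 5) := one_le_pow₀ (by linarith)
  have hΛ1 : 1 ≤ Λ := by linarith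
  have a1 : ∀ k : ℕ, 1 ≤ Λ ^ k := fun k => one_le_pow₀ hΛ1
  have hs1 : s ≤ 1 := by nlinarith [(Nat.cast_nonneg k : (0 : ℝ) ≤ k)]
  have hy0 : 0 < infDist y E := by rw [hy]; positivity
  have hx0 : 0 < infDist x E := by linarith
  have a2 := atom_nonneg (E := E) (s := s) (N := k + 5) (p := p) hρ y
  have key : ∀ C, 1 + gap p ρ y / infDist y E ≤ C * (1 + gap p ρ x / infDist x E) →
      atom E s (k + 5) p ρ x ≤ 2 * Λ ^ k * C ^ (k + 5) * atom E s (k + 5) p ρ y := fun C hC => by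
    refine atom_le (Q := 2 * Λ ^ (k + 5)) hs hρ (by linarith [a1 (k + 5)])
      (by rw [hy]; nlinarith [a1 (k + 5)]) ?_ hC
    rw [mul_rpow (by norm_num) (by positivity), ← rpow_natCast, ← rpow_mul (by linarith),
      ← rpow_natCast]
    gcongr
    · simpa using rpow_le_rpow_of_exponent_le (one_le_two (α := ℝ)) hs1
    · push_cast; exact hk
  have small : 1 + gap p ρ y / infDist y E ≤ (2 * B + 1) / Λ * (1 + gap p ρ x / infDist x E) →
      atom E s (k + 5) p ρ x ≤ atom E s (k + 5) p ρ y / (2 * Λ) := fun h => by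
    refine (key _ h).trans ?_
    rw [div_eq_inv_mul (atom _ _ _ _ _ _)]
    gcongr
    rw [div_pow, ← one_div, ← mul_div_assoc, div_le_div_iff₀ (by positivity) (by positivity)]
    have : Λ ^ (k + 5) = Λ ^ k * Λ * Λ * Λ ^ 3 := by ring
    rw [this]
    have : Λ ≤ Λ * Λ ^ 3 := le_mul_of_one_le_right (by linarith) (a1 3)
    nlinarith [mul_le_mul_of_nonneg_left (hΛ.trans this) (by positivity : 0 ≤ Λ ^ k * Λ)]
  have g1 := gap_le p ρ x y
  have g2 := gap_nonneg p ρ x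
  have g3 : gap p ρ x / r ≤ gap p ρ x / infDist x E := by gcongr
  have hi : 0 ≤ (if ‖x - p‖ ≤ 2 * Λ * r then
      2 * Λ ^ k * (2 * B + 1) ^ (k + 5) * atom E s (k + 5) p ρ y else 0) := by
    split_ifs <;> positivity
  rcases le_or_gt (2 * B * infDist y E) (gap p ρ y) with h | h
  · refine le_add_of_le_of_nonneg (small ?_) hi
    have b1 : 2 * B ≤ gap p ρ y / infDist y E := by rwa [le_div_iff₀ hy0]
    have b2 : Λ * (gap p ρ y / infDist y E) ≤ 2 * (gap p ρ x / r) := by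
      rw [← mul_div_assoc, ← mul_div_assoc, div_le_div_iff₀ hy0 hr]
      have : Λ * r ≤ infDist y E := by
        rw [hy]; gcongr; exact le_self_pow₀ hΛ1 (by omega)
      nlinarith [mul_le_mul (by linarith : gap p ρ y ≤ 2 * gap p ρ x) this (by positivity)
        (by positivity)]
    rw [div_mul_eq_mul_div, le_div_iff₀ (by linarith)]
    nlinarith [div_nonneg g2 hr.le]
  have b1 : 1 + gap p ρ y / infDist y E ≤ 2 * B + 1 := by
    linarith [(div_lt_iff₀ hy0).mpr h]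
  split_ifs with hc
  · exact le_add_of_nonneg_of_le (by positivity)
      (key _ (b1.trans (le_mul_of_one_le_right (by linarith) (den_pos E p ρ x))))
  rw [add_zero]
  refine small (b1.trans ?_)
  have b2 : ρ ≤ r / 2 := by
    by_contra! hc
    refine hA.not_ge ?_
    have c1 : 1 ≤ 3 * Λ ^ (k + 5) * (ρ / (infDist y E + ρ)) ^ s := by
      have c2 := rpow_le_rpow_of_exponent_ge (x := ρ / (infDist y E + ρ)) (by positivity)
        (by rw [div_le_one (by positivity)]; linarith) hs1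
      rw [rpow_one] at c2
      refine le_trans ?_ (mul_le_mul_of_nonneg_left c2 (by positivity))
      rw [← mul_div_assoc, le_div_iff₀ (by positivity), hy]
      nlinarith [a1 (k + 5)]
    have c3 := pow_le_pow_left₀ (by linarith [den_pos E p ρ y]) b1 (k + 5)
    unfold atom
    rw [← mul_div_assoc, le_div_iff₀ (by linarith [one_le_pow₀ (n := k + 5) (den_pos E p ρ y)])]
    nlinarith
  have b3 : Λ ≤ gap p ρ x / r := by
    rw [le_div_iff₀ hr]
    refine le_trans ?_ (le_max_left _ _)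
    nlinarith [not_le.mp hc]
  rw [div_mul_eq_mul_div, le_div_iff₀ (by linarith)]
  nlinarith

theorem pot_drop {k : ℕ} (hs : 0 ≤ s) (hk : (k + 5) * s ≤ k) (hρ : ∀ i, 0 < ρ i) (hD : 0 < D₀)
    {Λ B r : ℝ} (hB : 2 ≤ B) (hΛ : 4 * (2 * B + 1) ^ (k + 5) ≤ Λ) (hr : 0 < r) {x y : ℂ}
    (hy : infDist y E = Λ ^ (k + 5) * r) (h1 : r / 2 ≤ infDist x E) (h2 : infDist x E ≤ r)
    (h3 : ‖x - y‖ ≤ B * infDist y E) (hA : 4 * Λ ^ (k + 5) * (2 * B + 1) ^ (k + 5) ≤ A)
    (hV : pot E s (k + 5) t p ρ A D₀ y ≤ 1)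
    (hx : pot E s (k + 5) t p ρ A D₀ y / Λ < pot E s (k + 5) t p ρ A D₀ x) :
    1 ≤ ∑ i ∈ t with ‖x - p i‖ ≤ 2 * Λ * r, 4 * (2 * B + 1) ^ (k + 5) * Λ ^ (k + 1) *
      (A * atom E s (k + 5) (p i) (ρ i) y / pot E s (k + 5) t p ρ A D₀ y) := by
  have a0 : (1 : ℝ) ≤ (2 * B + 1) ^ (k + 5) := one_le_pow₀ (by linarith)
  have hΛ0 : 0 < Λ := by linarith
  have hA0 : 0 ≤ A := le_trans (by positivity) hA
  have hy0 : 0 < infDist y E := by rw [hy]; positivity
  have hV0 := pot_pos (s := s) (N := k + 5) (t := t) (p := p) hρ hA0 hD hy0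
  have a1 : ∀ i ∈ t, A * atom E s (k + 5) (p i) (ρ i) y ≤ 1 := fun i hi =>
    (Finset.single_le_sum (f := fun i => A * atom E s (k + 5) (p i) (ρ i) y)
      (fun i _ => mul_nonneg hA0 (atom_nonneg (hρ i) y)) hi).trans
      ((le_add_of_nonneg_right (by positivity)).trans hV)
  have a2 : pot E s (k + 5) t p ρ A D₀ x ≤ pot E s (k + 5) t p ρ A D₀ y / (2 * Λ) +
      ∑ i ∈ t with ‖x - p i‖ ≤ 2 * Λ * r,
        A * (2 * Λ ^ k * (2 * B + 1) ^ (k + 5) * atom E s (k + 5) (p i) (ρ i) y) := by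
    rw [Finset.sum_filter]
    unfold pot
    rw [add_div, Finset.sum_div, add_right_comm, ← Finset.sum_add_distrib]
    refine add_le_add (Finset.sum_le_sum fun i hi => ?_) ?_
    · have := atom_drop (p := p i) hs hk (hρ i) hB hΛ hr hy h1 h2 h3 (by
        nlinarith [a1 i hi, mul_le_mul_of_nonneg_right hA
          (atom_nonneg (E := E) (s := s) (N := k + 5) (p := p i) (hρ i) y)])
      refine (mul_le_mul_of_nonneg_left this hA0).trans (le_of_eq ?_)
      split_ifs <;> ring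
    · rw [div_right_comm]
      gcongr
      rw [le_div_iff₀ (by positivity), hy]
      have : Λ * Λ ≤ Λ ^ (k + 5) := by
        rw [← sq]; exact pow_le_pow_right₀ (by linarith) (by omega)
      nlinarith [mul_le_mul_of_nonneg_right h2 hΛ0.le,
        mul_le_mul_of_nonneg_right (by nlinarith : 2 * Λ ≤ Λ ^ (k + 5)) hr.le]
  have e : ∀ i, 4 * (2 * B + 1) ^ (k + 5) * Λ ^ (k + 1) *
      (A * atom E s (k + 5) (p i) (ρ i) y / pot E s (k + 5) t p ρ A D₀ y) =
      2 * Λ / pot E s (k + 5) t p ρ A D₀ y *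
        (A * (2 * Λ ^ k * (2 * B + 1) ^ (k + 5) * atom E s (k + 5) (p i) (ρ i) y)) := fun i => by
    ring
  simp only [e]
  rw [← Finset.mul_sum, div_mul_eq_mul_div, le_div_iff₀ hV0, ← div_le_iff₀' (by positivity)]
  have : pot E s (k + 5) t p ρ A D₀ y / Λ = 2 * (pot E s (k + 5) t p ρ A D₀ y / (2 * Λ)) := by
    field_simp
  rw [one_mul]
  linarith

theorem measurable_pot : Measurable (pot E s N t p ρ A D₀) := by
  have := (continuous_infDist_pt E).measurable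
  unfold pot atom gap
  fun_prop

theorem continuousAt_pot (hs : 0 ≤ s) (hρ : ∀ i, 0 < ρ i) {y : ℂ} (hy : 0 < infDist y E) :
    ContinuousAt (pot E s N t p ρ A D₀) y := by
  have h := (continuous_infDist_pt E).continuousAt (x := y)
  refine ContinuousAt.add (tendsto_finsetSum _ fun i _ => ContinuousAt.mul continuousAt_const
    (ContinuousAt.div (ContinuousAt.rpow_const (continuousAt_const.div (h.add continuousAt_const)
      (by linarith [hρ i])) (Or.inr hs)) (ContinuousAt.pow (continuousAt_const.add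
        (ContinuousAt.div (by unfold gap; fun_prop) h hy.ne')) N) ?_)) (h.div_const _)
  exact (pow_pos (by linarith [den_pos E (p i) (ρ i) y]) N).ne'

theorem one_le_pot (hE : IsCompact E) (hn : E.Nonempty) (hs1 : s ≤ 1) (hρ : ∀ i, 0 < ρ i)
    (hA : 2 ≤ A) (hD : 0 < D₀) (hc : E ⊆ ⋃ i ∈ t, ball (p i) (ρ i)) {x : ℂ}
    (hx : (∀ i ∈ t, infDist x E ≤ ρ i) ∨ D₀ ≤ infDist x E) : 1 ≤ pot E s N t p ρ A D₀ x := by
  have a0 : ∀ i ∈ t, 0 ≤ A * atom E s N (p i) (ρ i) x := fun i _ =>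
    mul_nonneg (by linarith) (atom_nonneg (hρ i) x)
  have a1 : 0 ≤ infDist x E := infDist_nonneg
  rcases hx with hx | hx
  · obtain ⟨e, he, h1⟩ := hE.exists_infDist_eq_dist hn x
    obtain ⟨i, hi, h2⟩ := mem_iUnion₂.mp (hc he)
    refine le_add_of_le_of_nonneg (le_trans ?_ (Finset.single_le_sum a0 hi)) (by positivity)
    have h3 : gap (p i) (ρ i) x = 0 := max_eq_right (by
      linarith [dist_triangle x e (p i), dist_eq_norm x (p i), hx i hi, mem_ball.mp h2])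
    have := hρ i
    have c2 := rpow_le_rpow_of_exponent_ge (x := ρ i / (infDist x E + ρ i)) (by positivity)
      (by rw [div_le_one (by positivity)]; linarith) hs1
    have c3 : 1 / 2 ≤ ρ i / (infDist x E + ρ i) := by
      rw [le_div_iff₀ (by positivity)]; linarith [hx i hi]
    simp only [atom, h3, zero_div, add_zero, one_pow, div_one]
    rw [rpow_one] at c2
    nlinarith
  · exact le_add_of_nonneg_of_le (Finset.sum_nonneg a0) ((one_le_div hD).mpr hx)

theorem pot_le (hs : 0 ≤ s) (hρ : ∀ i, 0 < ρ i) (hA : 0 ≤ A) (hD : 0 < D₀) {r : ℝ} (hr : 0 < r)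
    {x : ℂ} (h1 : r ≤ infDist x E) (h2 : infDist x E ≤ 2 * r) :
    pot E s N t p ρ A D₀ x ≤ A / r ^ s * ∑ i ∈ t, ρ i ^ s + 2 * r / D₀ := by
  rw [Finset.mul_sum]
  refine add_le_add (Finset.sum_le_sum fun i _ => ?_) (by gcongr)
  have := hρ i
  rw [div_mul_eq_mul_div, mul_div_assoc, ← div_rpow this.le hr.le]
  refine mul_le_mul_of_nonneg_left ((div_le_self (by positivity [hr.trans_le h1])
    (one_le_pow₀ (den_pos _ _ _ _))).trans ?_) hA
  have := hr.trans_le h1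
  gcongr
  linarith

end Pool.Agent.P.MP_677d31_pr
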