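import Pool.Agent.P.MP_677d31_pr.NoGap
import Pool.Agent.P.MP_677d31_pr.Pot
import Pool.Agent.P.MP_677d31_pr.Grid
import Pool.Agent.P.MP_677d31_pr.Riemann

set_option autoImplicit false
set_option linter.unusedSectionVars false

namespace Pool.Agent.P.MP_677d31_pr

open Set Metric MeasureTheory Filter Topology Real

variable {Ω : Type} [MeasurableSpace Ω] {P : Measure Ω} [IsProbabilityMeasure P]

theorem exists_far {E : Set ℂ} {e₁ e₂ : ℂ} (h₁ : e₁ ∈ E) (h₂ : e₂ ∈ E) (x : ℂ) :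
    ∃ e ∈ E, ‖e₁ - e₂‖ ≤ 2 * ‖e - x‖ := by
  have := norm_sub_le_norm_sub_add_norm_sub e₁ x e₂
  rw [norm_sub_rev x] at this
  rcases le_total ‖e₁ - x‖ ‖e₂ - x‖ with h | h
  · exact ⟨e₂, h₂, by linarith⟩
  · exact ⟨e₁, h₁, by linarith⟩

theorem meas_or {f g f' g' : ℂ → ℝ} (hf : Continuous f) (hg : Continuous g) (hf' : Continuous f')
    (hg' : Continuous g') : MeasurableSet {x | f x ≤ g x ∨ f' x ≤ g' x} :=
  (isClosed_le hf hg).measurableSet.union (isClosed_le hf' hg').measurableSet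

theorem stage_gap {E D : Set ℂ} {h θ R : ℝ} (hh : 0 < h) (hθ : θ ≤ h) {e e' y : ℂ} (he : e ∈ E)
    (he' : e' ∈ E) (hR : R < ‖e' - y‖) {c : ℕ → ℂ} {n N : ℕ} (hn : n ≤ N) (c0 : c 0 = y)
    (cn : c n = y) (h1 : ∀ i < n, ‖c (i + 1) - c i‖ ≤ h)
    (h2 : ∀ i ≤ n, ‖c i - y‖ ≤ R ∧ ∀ e' ∈ E, 20 * h ≤ ‖c i - e'‖) (hw : wsum e c n ≠ 0)
    (hD : ∀ x, 14 * h ≤ infDist x E → ‖x - y‖ ≤ R + 6 * h → x ∉ D) :
    Disjoint (ball y h) D ∧ ∀ᶠ σ in 𝓝[>] (0 : ℝ), ∀ W : Walk P σ,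
      PB W (FE E θ D univ) (ball y h) (1 - p1 ^ (N + 33)) := by
  obtain ⟨c', d0, d1, d2, d3⟩ := valid_of_loop hh (cn.trans c0.symm) h1 he he'
    (fun i hi => ⟨(h2 i hi).2 e he, (h2 i hi).2 e' he'⟩) (by
      rwa [wsum_far (x := e') (cn.trans c0.symm) fun i hi => by
        rw [c0, norm_sub_rev y]; exact (h2 i hi).1.trans_lt hR])
  have d4 : ∀ i < n + 33, Disjoint (ball (c' i) (2 * h)) D := fun i hi => by
    obtain ⟨j, hj, d5⟩ := d2 i hi
    refine disjoint_left.mpr fun x hx => ?_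
    have a1 : ‖x - c j‖ ≤ 6 * h := by
      linarith [norm_sub_le_norm_sub_add_norm_sub x (c' i) (c j), mem_ball_iff_norm.mp hx]
    refine hD x ((le_infDist ⟨e, he⟩).mpr fun w hw => ?_) ?_
    · have := norm_sub_le_norm_sub_add_norm_sub (c j) x w
      rw [norm_sub_rev (c j) x] at this
      rw [dist_eq_norm]
      linarith [(h2 j hj).2 w hw]
    · linarith [norm_sub_le_norm_sub_add_norm_sub x (c j) y, (h2 j hj).1]
  have d6 := d4 0 (by omega)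
  rw [d0, c0] at d6
  refine ⟨d6.mono_left (ball_subset_ball (by linarith)), ?_⟩
  filter_upwards [chain (P := P) hh] with σ hσ W
  have := hσ W E θ D D univ 1 hθ MeasurableSet.univ zero_le_one (PB.one le_rfl) (n + 33) c' d1
    (fun i hi => ⟨d4 i hi, subset_univ _⟩) d3
  rw [d0, c0, one_mul] at this
  refine this.mono (fun j X _ ⟨m, k1, _, k3⟩ => ⟨m, k1, k1.2.1, k3⟩)
    (ball_subset_ball (by linarith)) ?_
  linarith [pow_le_pow_of_le_one p1_pos.le p1_le (show n + 33 ≤ N + 33 by omega)]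

theorem stage_nogap {E O T : Set ℂ} (hT : MeasurableSet T) (hO : IsOpen O) {f : ℂ → ℝ} {y : ℂ}
    {r R U τ ε θ : ℝ} (hR : 0 < R) (hU : 0 ≤ U) (hτ : 0 < τ) (hε : 0 < ε)
    (hθ : θ < r / 4) (hy : y ∈ O) (hy' : r < infDist y E) (hf : f y ≤ ε)
    (h1 : ∀ x ∈ O, r < infDist x E → ‖x - y‖ < R → ball x (r / 4) ⊆ O ∧ SMV f x τ ∧
      ∀ w ∈ closedBall x τ, 0 ≤ f w ∧ f w ≤ U ∧ (infDist w E ≤ r → w ∈ T → 1 ≤ f w)) :
    ∀ᶠ u in 𝓝[>] (0 : ℝ), Disjoint (ball y u) {x | infDist x E ≤ r ∨ R ≤ ‖x - y‖} ∧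
      ∀ᶠ σ in 𝓝[>] (0 : ℝ), ∀ W : Walk P σ,
        PB W (FE E θ {x | infDist x E ≤ r ∨ R ≤ ‖x - y‖} (T ∩ {x | infDist x E ≤ r})) (ball y u)
          (3 * ε) := by
  have hc := continuous_infDist_pt E
  have m1 : MeasurableSet {x | infDist x E ≤ r} := (isClosed_le hc continuous_const).measurableSet
  have m2 : MeasurableSet {x : ℂ | infDist x E ≤ r ∨ R ≤ ‖x - y‖} :=
    meas_or hc continuous_const continuous_const (by fun_prop)
  have e1 : ∀ᶠ x in 𝓝 y, x ∈ O ∧ r < infDist x E ∧ ‖x - y‖ < R ∧ f x < 2 * ε := by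
    refine (hO.eventually_mem hy).and ((continuousAt_const.eventually_lt hc.continuousAt hy').and
      ((ContinuousAt.eventually_lt (by fun_prop) continuousAt_const (by simpa using hR)).and
        (ContinuousAt.eventually_lt ?_ continuousAt_const (by linarith))))
    exact (h1 y hy hy' (by simpa using hR)).2.1.1.continuousAt (closedBall_mem_nhds y hτ)
  filter_upwards [eventually_ball_subset e1 |>.filter_mono nhdsWithin_le_nhds] with u hu
  refine ⟨disjoint_left.mpr fun x hx h => h.elim (hu hx).2.1.not_ge (hu hx).2.2.1.not_ge, ?_⟩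
  filter_upwards [hit_bound (P := P) hU hτ hR hε] with σ hσ W
  have a1 : ∀ x ∉ {x : ℂ | infDist x E ≤ r ∨ R ≤ ‖x - y‖} ∪ Oᶜ,
      x ∈ O ∧ r < infDist x E ∧ ‖x - y‖ < R := fun x hx => by
    simp only [mem_union, mem_ofPred_eq, mem_compl_iff, not_or, not_le, not_not] at hx
    exact ⟨hx.2, hx.1⟩
  refine (hσ W f ({x | infDist x E ≤ r ∨ R ≤ ‖x - y‖} ∪ Oᶜ) (T ∩ {x | infDist x E ≤ r})
    (ball y u) (2 * ε) y (m2.union hO.measurableSet.compl) (hT.inter m1)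
    (fun x hx => Or.inl (Or.inl hx.2)) (fun x hx => mem_ball_iff_norm.mpr (a1 x hx).2.2)
    (fun x hx => ?_) fun x hx => ⟨fun h => (hu hx).2.1.not_ge h.2, fun _ => (hu hx).2.2.2.le⟩).mono
    ?_ Subset.rfl (by linarith)
  · obtain ⟨-, b1, b2⟩ := h1 x (a1 x hx).1 (a1 x hx).2.1 (a1 x hx).2.2
    exact ⟨b1, fun w hw => ⟨(b2 w hw).1, (b2 w hw).2.1, fun h => (b2 w hw).2.2 h.2 h.1⟩⟩
  · rintro j X hj ⟨n, k1, k2, k3⟩
    have : ∀ m, j ≤ m → m ≤ n → X m ∈ O := by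
      intro m hm
      induction m, hm using Nat.le_induction with
      | base => exact fun _ => (hu hj).1
      | succ m hm ih =>
        intro hn
        have b1 := k1.2.2 m hm hn
        simp only [mem_ofPred_eq, not_or, not_le] at b1
        exact (h1 _ (ih (by omega)) b1.1 b1.2).1
          (mem_ball_iff_norm.mpr (((mem_ND.mp k3).1 m hm hn).trans_lt hθ))
    exact ⟨n, ⟨k1.1, Or.inl k1.2.1, fun m m1 m2 h =>
      h.elim (k1.2.2 m m1 m2) fun h' => h' (this m m1 m2.le)⟩, k2⟩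

theorem stage (k : ℕ) {ε : ℝ} (hε : 0 < ε) : ∀ᶠ Λ : ℕ in atTop, ∃ q A : ℝ, 0 < q ∧ q ≤ 1 ∧ 2 ≤ A ∧
    ∀ E : Set ℂ, IsCompact E → ∀ e₁ ∈ E, ∀ e₂ ∈ E, ∀ s : ℝ, 0 ≤ s → (k + 5) * s ≤ k →
    ∀ (t : Finset ℕ) (p : ℕ → ℂ) (ρ : ℕ → ℝ), (∀ i, 0 < ρ i) → ∀ D₀ : ℝ, 0 < D₀ →
    Λ * D₀ ≤ ‖e₁ - e₂‖ → ∀ (y : ℂ) (θ : ℝ), 0 < infDist y E → infDist y E ≤ D₀ →
    pot E s (k + 5) t p ρ A D₀ y ≤ 1 → Λ ^ (k + 7) * θ ≤ infDist y E →
    ∃ D : Set ℂ, MeasurableSet D ∧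
      (∀ x ∉ D, infDist y E < Λ ^ (k + 6) * infDist x E ∧ ‖x - y‖ < Λ * infDist y E) ∧
      ∀ᶠ u in 𝓝[>] (0 : ℝ), Disjoint (ball y u) D ∧ ∀ᶠ σ in 𝓝[>] (0 : ℝ), ∀ W : Walk P σ,
        PB W (FE E θ D univ) (ball y u) (1 - q) ∨
        PB W (FE E θ D {x | pot E s (k + 5) t p ρ A D₀ y / Λ < pot E s (k + 5) t p ρ A D₀ x})
          (ball y u) ε := by
  have hp : 1 - p1 ^ 333 < 1 := by linarith [pow_pos p1_pos 333]
  have hp' : 0 ≤ 1 - p1 ^ 333 := sub_nonneg.mpr (pow_le_one₀ p1_pos.le p1_le)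
  obtain ⟨J, hJ⟩ := exists_pow_lt_of_lt_one (show 0 < ε / 4 by positivity) hp
  obtain ⟨B, hB⟩ : ∃ B : ℝ, B = 2 * 2 ^ J + 2 := ⟨_, rfl⟩
  have hJ1 : (1 : ℝ) ≤ 2 ^ J := one_le_pow₀ one_le_two
  have hB4 : 4 ≤ B := by linarith
  obtain ⟨τ, hτ, hτ', hng⟩ := nogap_fn (m := k + 5) (by omega) (4 * (2 * B + 1) ^ (k + 5))
    (show 0 < ε / 4 by positivity)
  filter_upwards [hng, tendsto_natCast_atTop_atTop.eventually_ge_atTop
    (4 * (2 * B + 1) ^ (k + 5))] with Λ hng hΛ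
  obtain ⟨L, hL⟩ : ∃ L : ℕ, L = 100 * Λ ^ (k + 5) * (2 * 2 ^ J + 2) := ⟨_, rfl⟩
  have b0 : (2 * B + 1) * (2 * B + 1) ≤ (2 * B + 1) ^ (k + 5) := by
    rw [← sq]; exact pow_le_pow_right₀ (by linarith) (by omega)
  have hΛB : 36 * (2 * B + 1) ≤ Λ := by nlinarith
  have hΛ1 : (1 : ℝ) ≤ Λ := by linarith
  have a1 : (Λ : ℝ) ≤ Λ ^ (k + 5) := le_self_pow₀ hΛ1 (by omega)
  refine ⟨p1 ^ (2 * (2 * L + 1) ^ 2 + 1 + 33), 4 * Λ ^ (k + 5) * (2 * B + 1) ^ (k + 5),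
    pow_pos p1_pos _, pow_le_one₀ p1_pos.le p1_le, by nlinarith, ?_⟩
  intro E hE e₁ h₁ e₂ h₂ s hs hk t p ρ hρ D₀ hD hΔ y θ hy hyD hV hθ
  obtain ⟨r, hr⟩ : ∃ r, infDist y E = Λ ^ (k + 5) * r :=
    ⟨infDist y E / Λ ^ (k + 5), by field_simp⟩
  have hr0 : 0 < r := (mul_pos_iff_of_pos_left (by positivity)).mp (hr ▸ hy)
  have a2 : 100 * r ≤ infDist y E := by rw [hr]; gcongr; linarith
  have a3 : θ ≤ r / 100 := by
    by_contra! h
    have : (Λ : ℝ) ^ (k + 7) = Λ ^ (k + 5) * (Λ * Λ) := by ring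
    rw [hr, this, mul_assoc] at hθ
    have := le_of_mul_le_mul_left hθ (by positivity)
    nlinarith [mul_le_mul_of_nonneg_right (by nlinarith : (100 : ℝ) ≤ Λ * Λ) (by linarith : 0 ≤ θ)]
  have a4 : L * (r / 100) = B * infDist y E := by rw [hL, hr, hB]; push_cast; ring
  have a5 : Λ * infDist y E ≤ ‖e₁ - e₂‖ := le_trans (by gcongr) hΔ
  have a6 : 36 * (2 * B + 1) * infDist y E ≤ Λ * infDist y E := by gcongr
  have a7 : ∀ x, ∀ e ∈ E, infDist x E ≤ ‖x - e‖ := fun x e he =>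
    (infDist_le_dist_of_mem he).trans_eq (dist_eq_norm _ _)
  have a8 : 4 * infDist y E ≤ B * infDist y E := by gcongr
  have hc := continuous_infDist_pt E
  rcases dichotomy E y (h := r / 100) (by positivity) L (fun e he => by linarith [a7 y e he]) with
    ⟨e, he, c, n, hn, c0, cn, c1, c2, c3⟩ | ⟨O, o1, o2, o3, o4, o5, o6, o7⟩
  · obtain ⟨e', he', h3⟩ := exists_far h₁ h₂ y
    refine ⟨{x | Λ ^ (k + 6) * infDist x E ≤ infDist y E ∨ Λ * infDist y E ≤ ‖x - y‖},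
      meas_or (by fun_prop) continuous_const continuous_const (by fun_prop),
      fun x hx => by simpa using hx, ?_⟩
    obtain ⟨g1, g2⟩ := stage_gap (P := P) (R := 2 * L * (r / 100)) (by positivity) a3 he he'
      (by nlinarith) hn c0 cn c1 c2 c3 (D := {x | Λ ^ (k + 6) * infDist x E ≤ infDist y E ∨
        Λ * infDist y E ≤ ‖x - y‖}) fun x x1 x2 h => by
        rcases h with h | h
        · rw [hr, pow_succ, mul_assoc] at h
          have := le_of_mul_le_mul_left h (by positivity)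
          nlinarith
        · nlinarith
    filter_upwards [Ioo_mem_nhdsGT (show 0 < r / 100 by positivity)] with u hu
    exact ⟨g1.mono_left (ball_subset_ball hu.2.le), g2.mono fun σ hσ W =>
      Or.inl ((hσ W).mono (fun _ _ _ h => h) (ball_subset_ball hu.2.le) le_rfl)⟩
  obtain ⟨ψ, hψ, hψ0⟩ := riemann o1 o2 o3 o5 o6
  rw [a4] at o7
  have hA : (0 : ℝ) ≤ 4 * Λ ^ (k + 5) * (2 * B + 1) ^ (k + 5) := by positivity
  have hV0 := pot_pos (s := s) (N := k + 5) (t := t) (p := p) hρ hA hD hy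
  obtain ⟨f, U, hU, f1, f2⟩ := hng O ψ y r ℕ t p (fun i => 4 * (2 * B + 1) ^ (k + 5) * Λ ^ (k + 1) *
    (4 * Λ ^ (k + 5) * (2 * B + 1) ^ (k + 5) * atom E s (k + 5) (p i) (ρ i) y /
      pot E s (k + 5) t p ρ (4 * Λ ^ (k + 5) * (2 * B + 1) ^ (k + 5)) D₀ y)) hψ hψ0 hr0
    (hr ▸ o7 y o3 _ (by rw [sub_self, norm_zero]; linarith) fun e he => by linarith [a7 y e he])
    (fun i _ => by have := atom_nonneg (E := E) (s := s) (N := k + 5) (p := p i) (hρ i) y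
                   positivity)
    (by
      rw [← Finset.mul_sum, ← Finset.sum_div]
      exact mul_le_of_le_one_right (by positivity)
        ((div_le_one hV0).mpr (le_add_of_nonneg_right (by positivity))))
  refine ⟨{x | infDist x E ≤ r ∨ (B - 1) * infDist y E ≤ ‖x - y‖},
    meas_or hc continuous_const continuous_const (by fun_prop), fun x hx => ?_, ?_⟩
  · simp only [mem_ofPred_eq, not_or, not_le] at hx
    refine ⟨?_, by nlinarith [hx.2]⟩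
    rw [hr, pow_succ (Λ : ℝ) (k + 5), mul_assoc]
    exact mul_lt_mul_of_pos_left (by nlinarith [hx.1]) (by positivity)
  obtain ⟨x₀, hx₀, hx₀'⟩ := hE.exists_infDist_eq_dist ⟨e₁, h₁⟩ y
  obtain ⟨x₁, hx₁, hx₁'⟩ := exists_far h₁ h₂ x₀
  filter_upwards [Ioo_mem_nhdsGT hy, stage_nogap (P := P) (E := E) (f := f) (θ := θ) (r := r)
    (T := {x | pot E s (k + 5) t p ρ (4 * Λ ^ (k + 5) * (2 * B + 1) ^ (k + 5)) D₀ y / Λ <
      pot E s (k + 5) t p ρ (4 * Λ ^ (k + 5) * (2 * B + 1) ^ (k + 5)) D₀ x})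
    (R := (B - 1) * infDist y E) (measurableSet_lt measurable_const measurable_pot) o1
    (by nlinarith) hU (mul_pos hτ hr0) (show 0 < ε / 4 by positivity) (by linarith) o3
    (by linarith) f1 fun x x1 x2 x3 => by
      have x4 := o7 x x1 (3 / 10 * r) (by linarith) fun e he => by linarith [a7 x e he]
      refine ⟨(ball_subset_ball (by linarith)).trans x4, (f2 x x4).1, fun w hw =>
        ⟨((f2 x x4).2 w hw).1, ((f2 x x4).2 w hw).2.1, fun w1 w2 => ((f2 x x4).2 w hw).2.2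
          ((infDist_le_infDist_of_subset o4.subset_compl_left ⟨e₁, h₁⟩).trans w1) ?_⟩⟩
      have w3 : ‖w - x‖ ≤ r / 10 := by nlinarith [mem_closedBall_iff_norm.mp hw]
      refine pot_drop hs hk hρ hD (by linarith) hΛ hr0 hr ?_ w1 ?_ le_rfl hV w2
      · have := infDist_le_add E x w
        rw [norm_sub_rev] at this
        linarith
      · linarith [norm_sub_le_norm_sub_add_norm_sub w x y]] with u hu ⟨g1, g2⟩
  refine ⟨g1, ?_⟩
  filter_upwards [g2, far (P := P) J (show 0 < 2 * infDist y E by positivity)] with σ g3 g4 W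
  have g5 := g4 W E θ {x | infDist x E ≤ r ∨ (B - 1) * infDist y E ≤ ‖x - y‖}
    {x | (B - 1) * infDist y E ≤ ‖x - y‖} (by linarith) x₀ hx₀ x₁ hx₁ (by nlinarith)
    (disjoint_left.mpr fun x x1 x2 => by
      have := dist_triangle x x₀ y
      rw [dist_comm x₀, ← hx₀', dist_eq_norm x y] at this
      have x3 : (B - 1) * infDist y E ≤ ‖x - y‖ := x2
      nlinarith [mem_ball.mp x1])
  have g6 : ball y u ⊆ ball x₀ (2 * infDist y E) := fun x hx => by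
    have := dist_triangle x y x₀
    rw [mem_ball]
    linarith [mem_ball.mp hx, hu.2]
  refine Or.inr ((((g3 W).union (fun j C hC hX => g5 j C hC fun ω hω => g6 (hX ω hω))
    (by positivity) (by positivity))).mono ?_ Subset.rfl (by linarith))
  rintro j X - ⟨n, k1, k2, k3⟩
  exact k1.2.1.imp (fun h => ⟨n, k1, ⟨k2, h⟩, k3⟩) fun h => ⟨n, k1, h, k3⟩

end Pool.Agent.P.MP_677d31_pr
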