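import Pool.Agent.P.MP_677d31_pr.Defs

set_option autoImplicit false
set_option linter.unusedSectionVars false

namespace Pool.Agent.P.MP_677d31_pr

open Set Metric MeasureTheory ProbabilityTheory Filter Topology ENNReal

/-- standard planar Gaussian -/
noncomputable def g1 : Measure ℂ :=
  ((gaussianReal 0 1).prod (gaussianReal 0 1)).map Complex.equivRealProdCLM.symm

instance : IsProbabilityMeasure g1 :=
  Measure.isProbabilityMeasure_map Complex.equivRealProdCLM.symm.continuous.measurable.aemeasurable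

/-- a Gaussian random walk with step size `σ` -/
structure Walk {Ω : Type} [m : MeasurableSpace Ω] (P : Measure Ω) (σ : ℝ) where
  F : ℕ → MeasurableSpace Ω
  mono : Monotone F
  le : ∀ j, F j ≤ m
  X : Ω → ℕ → ℂ
  adapt : ∀ j, Measurable[F j] fun ω => X ω j
  markov : ∀ j C, MeasurableSet[F j] C → ∀ f : ℂ → ℝ≥0∞, Measurable f →
    ∫⁻ ω in C, f (X ω (j + 1)) ∂P = ∫⁻ ω in C, ∫⁻ ξ, f (X ω j + σ • ξ) ∂g1 ∂P

/-- path events determined by the first `n` steps -/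
def Ad (A : Set (ℕ → ℂ)) (n : ℕ) : Prop :=
  MeasurableSet A ∧ ∀ X Y : ℕ → ℂ, (∀ m ≤ n, X m = Y m) → X ∈ A → Y ∈ A

/-- the first visit to `D` from time `j` on happens at time `n` -/
def FH (D : Set ℂ) (j n : ℕ) : Set (ℕ → ℂ) :=
  {X | j ≤ n ∧ X n ∈ D ∧ ∀ m, j ≤ m → m < n → X m ∉ D}

/-- the first visit to `D` from time `j` on is in `S` -/
def Hit (D S : Set ℂ) (j : ℕ) : Set (ℕ → ℂ) := {X | ∃ n, X ∈ FH D j n ∧ X n ∈ S}

theorem Ad.inter {A B : Set (ℕ → ℂ)} {n : ℕ} (hA : Ad A n) (hB : Ad B n) : Ad (A ∩ B) n :=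
  ⟨hA.1.inter hB.1, fun X Y h hX => ⟨hA.2 X Y h hX.1, hB.2 X Y h hX.2⟩⟩

theorem Ad.compl {A : Set (ℕ → ℂ)} {n : ℕ} (hA : Ad A n) : Ad Aᶜ n :=
  ⟨hA.1.compl, fun X Y h hX hY => hX (hA.2 Y X (fun m hm => (h m hm).symm) hY)⟩

theorem ad_eval {S : Set ℂ} (hS : MeasurableSet S) (n : ℕ) : Ad {X | X n ∈ S} n :=
  ⟨measurable_pi_apply n hS, fun X Y h hX => by
    show Y n ∈ S
    rw [← h n le_rfl]; exact hX⟩

theorem ad_FH {D : Set ℂ} (hD : MeasurableSet D) (j n : ℕ) : Ad (FH D j n) n := by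
  refine ⟨?_, fun X Y h hX => ⟨hX.1, h n le_rfl ▸ hX.2.1, fun m h1 h2 =>
    h m h2.le ▸ hX.2.2 m h1 h2⟩⟩
  simp only [FH, ofPred_and, ofPred_forall]
  exact (MeasurableSet.const _).inter ((measurable_pi_apply n hD).inter
    (MeasurableSet.iInter fun m => MeasurableSet.iInter fun _ => MeasurableSet.iInter fun _ =>
      (measurable_pi_apply m hD).compl))

theorem FH.unique {D : Set ℂ} {j n n' : ℕ} {X : ℕ → ℂ} (h : X ∈ FH D j n) (h' : X ∈ FH D j n') :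
    n = n' := by
  rcases lt_trichotomy n n' with k | k | k
  · exact absurd h.2.1 (h'.2.2 n h.1 k)
  · exact k
  · exact absurd h'.2.1 (h.2.2 n' h'.1 k)

theorem exists_FH {D : Set ℂ} {j n : ℕ} {X : ℕ → ℂ} (h : j ≤ n) (hn : X n ∈ D) :
    ∃ t, t ≤ n ∧ X ∈ FH D j t := by
  classical
  have e : ∃ t, j ≤ t ∧ X t ∈ D := ⟨n, h, hn⟩
  exact ⟨Nat.find e, Nat.find_min' e ⟨h, hn⟩, (Nat.find_spec e).1, (Nat.find_spec e).2,
    fun m h1 h2 h3 => Nat.find_min e h2 ⟨h1, h3⟩⟩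

theorem FH.later {D : Set ℂ} {j n t : ℕ} {X : ℕ → ℂ} (h : X ∈ FH D j n) (h1 : j ≤ t)
    (h2 : t ≤ n) : X ∈ FH D t n :=
  ⟨h2, h.2.1, fun m k1 k2 => h.2.2 m (h1.trans k1) k2⟩

variable {Ω : Type} [MeasurableSpace Ω] {P : Measure Ω} [IsProbabilityMeasure P] {σ : ℝ}

theorem Ad.meas {A : Set (ℕ → ℂ)} {n : ℕ} (hA : Ad A n) (W : Walk P σ) :
    MeasurableSet[W.F n] (W.X ⁻¹' A) := by
  have e : W.X ⁻¹' A = (fun ω m => W.X ω (min m n)) ⁻¹' A := by
    ext ω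
    exact ⟨hA.2 _ _ fun m hm => by simp [min_eq_left hm],
      hA.2 _ _ fun m hm => by simp [min_eq_left hm]⟩
  rw [e]
  exact @measurable_pi_lambda _ _ _ (W.F n) _ _
    (fun m => (W.adapt _).mono (W.mono (min_le_right m n)) le_rfl) _ hA.1

/-- conditional probability bound: started in `S` at time `j`, the event `A j` has probability
at most `c` -/
def PB (W : Walk P σ) (A : ℕ → Set (ℕ → ℂ)) (S : Set ℂ) (c : ℝ) : Prop :=
  ∀ j C, MeasurableSet[W.F j] C → (∀ ω ∈ C, W.X ω j ∈ S) →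
    P (C ∩ W.X ⁻¹' A j) ≤ ENNReal.ofReal c * P C

variable {W : Walk P σ} {A A' : ℕ → Set (ℕ → ℂ)} {S S' : Set ℂ} {a b c : ℝ}

theorem PB.mono (h : PB W A' S' a) (hA : ∀ j X, X j ∈ S → X ∈ A j → X ∈ A' j) (hS : S ⊆ S')
    (hc : a ≤ c) : PB W A S c := fun j C hC hX =>
  le_trans (measure_mono fun ω hω => mem_inter hω.1 (hA j _ (hX ω hω.1) hω.2))
    ((h j C hC fun ω hω => hS (hX ω hω)).trans (by gcongr))

theorem PB.one (hc : 1 ≤ c) : PB W A S c := fun j C _ _ =>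
  (measure_mono inter_subset_left).trans
    (le_mul_of_one_le_left' (by simpa using ENNReal.ofReal_le_ofReal hc))

theorem PB.empty (h : ∀ j X, X j ∈ S → X ∉ A j) : PB W A S c := fun j C _ hX => by
  have : C ∩ W.X ⁻¹' A j = ∅ := eq_empty_of_forall_notMem fun ω hω => h j _ (hX ω hω.1) hω.2
  simp [this]

theorem PB.split {T : Set ℂ} (hT : MeasurableSet T) (h1 : PB W A (S ∩ T) c)
    (h2 : PB W A (S \ T) c) : PB W A S c := by
  intro j C hC hX
  have hT' : MeasurableSet[W.F j] ((fun ω => W.X ω j) ⁻¹' T) := W.adapt j hT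
  rw [← measure_inter_add_sdiff C (W.le j _ hT'), mul_add]
  refine le_trans ?_ (add_le_add (h1 j _ (hC.inter hT') fun ω hω => ⟨hX ω hω.1, hω.2⟩)
    (h2 j _ (hC.diff hT') fun ω hω => ⟨hX ω hω.1, hω.2⟩))
  refine le_trans (measure_mono fun ω hω => ?_) (measure_union_le _ _)
  by_cases h : W.X ω j ∈ T
  · exact Or.inl ⟨⟨hω.1, h⟩, hω.2⟩
  · exact Or.inr ⟨⟨hω.1, h⟩, hω.2⟩

theorem PB.cover {ι : Type*} {t : Set ι} (ht : t.Finite) {T : ι → Set ℂ}
    (hT : ∀ i ∈ t, MeasurableSet (T i)) (hS : S ⊆ ⋃ i ∈ t, T i)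
    (h : ∀ i ∈ t, PB W A (S ∩ T i) c) : PB W A S c := by
  induction t, ht using Set.Finite.induction_on generalizing S with
  | empty => exact PB.empty fun j X hX => by simpa using hS hX
  | @insert i t _ _ ih =>
    refine PB.split (hT i (mem_insert _ _)) (h i (mem_insert _ _))
      (ih (fun k hk => hT k (mem_insert_of_mem _ hk)) (fun x hx => ?_) fun k hk =>
        (h k (mem_insert_of_mem _ hk)).mono (fun _ _ _ h => h) (fun x hx => ⟨hx.1.1, hx.2⟩) le_rfl)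
    have := hS hx.1
    rw [biUnion_insert] at this
    exact this.resolve_left hx.2

theorem PB.union (h1 : PB W A S a) (h2 : PB W A' S b) (ha : 0 ≤ a) (hb : 0 ≤ b) :
    PB W (fun j => A j ∪ A' j) S (a + b) := by
  intro j C hC hX
  rw [ENNReal.ofReal_add ha hb, add_mul, preimage_union, inter_union_distrib_left]
  exact (measure_union_le _ _).trans (add_le_add (h1 j C hC hX) (h2 j C hC hX))

theorem PB.iUnion {B : ℕ → ℕ → Set (ℕ → ℂ)} (hB : ∀ j, Monotone fun m => B m j)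
    (h : ∀ m, PB W (B m) S c) : PB W (fun j => ⋃ m, B m j) S c := by
  intro j C hC hX
  rw [preimage_iUnion, inter_iUnion, Monotone.measure_iUnion fun m n hmn =>
    inter_subset_inter_right _ (preimage_mono (hB j hmn))]
  exact iSup_le fun m => h m j C hC hX

theorem PB.comp {D S₁ S₂ : Set ℂ} {A₁ A₂ : ℕ → Set (ℕ → ℂ)} {G : ℕ → ℕ → Set (ℕ → ℂ)}
    (hD : MeasurableSet D) (hS₁ : MeasurableSet S₁) (hS₂ : MeasurableSet S₂)
    (hG : ∀ j n, Ad (G j n) n)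
    (h : ∀ j X, X j ∈ S → X ∈ A j → ∃ n, X ∈ FH D j n ∧
      ((X ∉ G j n ∧ X n ∈ S₁ ∧ X ∈ A₁ n) ∨ (X ∈ G j n ∧ X n ∈ S₂ ∧ X ∈ A₂ n)))
    (h1 : PB W A₁ S₁ a) (h2 : PB W A₂ S₂ (a + b))
    (h3 : PB W (fun j => {X | ∃ n, X ∈ FH D j n ∧ X ∈ G j n}) S c) (ha : 0 ≤ a) (hb : 0 ≤ b)
    (hc : 0 ≤ c) : PB W A S (a + b * c) := by
  intro j C hC hX
  let H₁ : ℕ → Set Ω := fun n => C ∩ W.X ⁻¹' (FH D j n ∩ (G j n)ᶜ ∩ {X | X n ∈ S₁})
  let H₂ : ℕ → Set Ω := fun n => C ∩ W.X ⁻¹' (FH D j n ∩ G j n ∩ {X | X n ∈ S₂})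
  have m1 : ∀ n, MeasurableSet[W.F n] (H₁ n) := fun n => by
    by_cases hn : j ≤ n
    · exact (W.mono hn _ hC).inter ((((ad_FH hD j n).inter (hG j n).compl).inter
        (ad_eval hS₁ n)).meas W)
    · have : H₁ n = ∅ := eq_empty_of_forall_notMem fun ω hω => hn hω.2.1.1.1
      rw [this]; exact @MeasurableSet.empty _ (W.F n)
  have m2 : ∀ n, MeasurableSet[W.F n] (H₂ n) := fun n => by
    by_cases hn : j ≤ n
    · exact (W.mono hn _ hC).inter ((((ad_FH hD j n).inter (hG j n)).inter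
        (ad_eval hS₂ n)).meas W)
    · have : H₂ n = ∅ := eq_empty_of_forall_notMem fun ω hω => hn hω.2.1.1.1
      rw [this]; exact @MeasurableSet.empty _ (W.F n)
  have d1 : Pairwise (Function.onFun Disjoint H₁) := fun n n' hn =>
    disjoint_left.mpr fun ω k1 k2 => hn (FH.unique k1.2.1.1 k2.2.1.1)
  have d2 : Pairwise (Function.onFun Disjoint H₂) := fun n n' hn =>
    disjoint_left.mpr fun ω k1 k2 => hn (FH.unique k1.2.1.1 k2.2.1.1)
  have e1 := measure_iUnion (μ := P) d1 fun n => W.le n _ (m1 n)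
  have e2 := measure_iUnion (μ := P) d2 fun n => W.le n _ (m2 n)
  have e3 : P (⋃ n, H₁ n) + P (⋃ n, H₂ n) ≤ P C := by
    rw [← measure_union _ (MeasurableSet.iUnion fun n => W.le n _ (m2 n))]
    · exact measure_mono (union_subset (iUnion_subset fun n => inter_subset_left)
        (iUnion_subset fun n => inter_subset_left))
    · refine disjoint_left.mpr fun ω k1 k2 => ?_
      obtain ⟨n, k1⟩ := mem_iUnion.mp k1
      obtain ⟨n', k2⟩ := mem_iUnion.mp k2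
      obtain rfl := FH.unique k1.2.1.1 k2.2.1.1
      exact k1.2.1.2 k2.2.1.2
  have e4 : P (⋃ n, H₂ n) ≤ ENNReal.ofReal c * P C :=
    le_trans (measure_mono (iUnion_subset fun n ω hω =>
      mem_inter hω.1 (by exact ⟨n, hω.2.1.1, hω.2.1.2⟩))) (h3 j C hC hX)
  calc P (C ∩ W.X ⁻¹' A j)
      ≤ P ((⋃ n, H₁ n ∩ W.X ⁻¹' A₁ n) ∪ ⋃ n, H₂ n ∩ W.X ⁻¹' A₂ n) := by
        refine measure_mono fun ω hω => ?_
        obtain ⟨n, k1, k2 | k2⟩ := h j _ (hX ω hω.1) hω.2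
        · exact Or.inl (mem_iUnion.mpr ⟨n, ⟨hω.1, ⟨k1, k2.1⟩, k2.2.1⟩, k2.2.2⟩)
        · exact Or.inr (mem_iUnion.mpr ⟨n, ⟨hω.1, ⟨k1, k2.1⟩, k2.2.1⟩, k2.2.2⟩)
    _ ≤ ∑' n, ENNReal.ofReal a * P (H₁ n) + ∑' n, ENNReal.ofReal (a + b) * P (H₂ n) :=
        (measure_union_le _ _).trans (add_le_add
          ((measure_iUnion_le _).trans (ENNReal.tsum_le_tsum fun n =>
            h1 n _ (m1 n) fun ω hω => hω.2.2))
          ((measure_iUnion_le _).trans (ENNReal.tsum_le_tsum fun n =>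
            h2 n _ (m2 n) fun ω hω => hω.2.2)))
    _ = ENNReal.ofReal a * (P (⋃ n, H₁ n) + P (⋃ n, H₂ n)) +
          ENNReal.ofReal b * P (⋃ n, H₂ n) := by
        rw [ENNReal.tsum_mul_left, ENNReal.tsum_mul_left, ← e1, ← e2, ENNReal.ofReal_add ha hb]
        ring
    _ ≤ ENNReal.ofReal a * P C + ENNReal.ofReal b * (ENNReal.ofReal c * P C) := by gcongr
    _ = _ := by
        rw [ENNReal.ofReal_add ha (mul_nonneg hb hc), ENNReal.ofReal_mul hb]
        ring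

theorem PB.super {D : Set ℂ} (hD : MeasurableSet D) {v : ℂ → ℝ≥0∞} (hv : Measurable v)
    (h1 : ∀ x ∉ D, ∫⁻ ξ, v (x + σ • ξ) ∂g1 ≤ v x) (h2 : ∀ x ∈ S', 1 ≤ v x)
    (h3 : ∀ x ∈ S, v x ≤ ENNReal.ofReal c) : PB W (Hit D S') S c := by
  have key : ∀ k j C, MeasurableSet[W.F j] C →
      P (C ∩ W.X ⁻¹' {X | ∃ n < j + k, X ∈ FH D j n ∧ X n ∈ S'}) ≤
        ∫⁻ ω in C, v (W.X ω j) ∂P := by
    intro k
    induction k with
    | zero =>
      intro j C _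
      have : C ∩ W.X ⁻¹' {X | ∃ n < j + 0, X ∈ FH D j n ∧ X n ∈ S'} = ∅ :=
        eq_empty_of_forall_notMem fun ω ⟨_, n, k1, k2, _⟩ => absurd k2.1 (by omega)
      rw [this, measure_empty]
      exact zero_le
    | succ k ih =>
      intro j C hC
      have hT : MeasurableSet[W.F j] ((fun ω => W.X ω j) ⁻¹' D) := W.adapt j hD
      have hvm : Measurable fun ω => v (W.X ω j) := hv.comp ((W.adapt j).mono (W.le j) le_rfl)
      rw [← lintegral_inter_add_sdiff _ C (W.le j _ hT)]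
      refine le_trans (measure_mono (t := ((C ∩ (fun ω => W.X ω j) ⁻¹' D) ∩
        {ω | 1 ≤ v (W.X ω j)}) ∪ ((C \ (fun ω => W.X ω j) ⁻¹' D) ∩
          W.X ⁻¹' {X | ∃ n < j + 1 + k, X ∈ FH D (j + 1) n ∧ X n ∈ S'})) ?_)
        ((measure_union_le _ _).trans (add_le_add ?_ ?_))
      · rintro ω ⟨k0, n, k1, k2, k3⟩
        rcases k2.1.eq_or_lt with rfl | k4
        · exact Or.inl ⟨⟨k0, k2.2.1⟩, h2 _ k3⟩
        · exact Or.inr ⟨⟨k0, k2.2.2 j le_rfl k4⟩, n, by omega, FH.later k2 (by omega) k4, k3⟩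
      · rw [inter_comm, ← Measure.restrict_apply' (W.le j _ (hC.inter hT))]
        simpa using mul_meas_ge_le_lintegral₀ (μ := P.restrict (C ∩ (fun ω => W.X ω j) ⁻¹' D))
          hvm.aemeasurable 1
      · refine (ih _ _ (W.mono (Nat.le_succ j) _ (hC.diff hT))).trans ?_
        rw [W.markov j _ (hC.diff hT) v hv]
        exact setLIntegral_mono' (W.le j _ (hC.diff hT)) fun ω hω => h1 _ hω.2
  refine PB.mono (A' := fun j => ⋃ k, {X | ∃ n < j + k, X ∈ FH D j n ∧ X n ∈ S'})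
    (PB.iUnion (fun j k k' hk X ⟨n, k1, k2⟩ => ⟨n, by omega, k2⟩) fun k j C hC hX => ?_)
    (fun j X _ ⟨n, k1, k2⟩ => mem_iUnion.mpr ⟨n + 1, n, by omega, k1, k2⟩) Subset.rfl le_rfl
  refine (key k j C hC).trans ?_
  rw [← setLIntegral_const]
  exact setLIntegral_mono' (W.le j _ hC) fun ω hω => h3 _ (hX ω hω)

end Pool.Agent.P.MP_677d31_pr
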